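import Pool.Agent.H286R2.Delaunay

/-!
Gift wrapping, existence of a first cell, finiteness of neighbours and the group action.
-/

namespace Pool.Agent.H286R2

namespace Sys

variable {S : Sys}

variable (S) in
/-- all supporting functionals with a spanning contact set are integral -/
def Int1 : Prop := ∀ f : V3 →ₗ[ℤ] ℝ, S.Supp f →
  (∃ u v w, S.X u ∧ S.X v ∧ S.X w ∧ f u = 1 ∧ f v = 1 ∧ f w = 1 ∧ D u v w ≠ 0) →
  ∃ l : V3 →ₗ[ℤ] ℤ, f = toR l

theorem neg_coord {g : V3 →ₗ[ℤ] ℝ} {v : V3} (hv : S.X v) (hg : g v = 0) (hne : ∃ i, S.c g i ≠ 0) :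
    ∃ i, S.c g i < 0 := by
  by_contra hall
  push Not at hall
  obtain ⟨i, hi⟩ := hne
  have h1 := S.expand g v
  rw [hg] at h1
  have h2 : ∀ j ∈ Finset.univ, co S.y g j * S.ell j v = 0 :=
    (Finset.sum_eq_zero_iff_of_nonneg (fun j _ => mul_nonneg (hall j) (hv j).le)).1 h1.symm
  have h3 := h2 i (Finset.mem_univ i)
  rcases mul_eq_zero.1 h3 with h | h
  · exact hi h
  · have := hv i
    linarith

theorem toR_eq_zero {l : V3 →ₗ[ℤ] ℤ} (h : toR l = 0) : l = 0 := by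
  apply LinearMap.ext
  intro x
  have := congrArg (fun f : V3 →ₗ[ℤ] ℝ => f x) h
  simpa using this

theorem adj {κ : ℝ} (hκ : S.Gen κ) (H : S.Int1) {l : V3 →ₗ[ℤ] ℤ} {τ : V3 →ₗ[ℤ] ℝ} {v a b : V3}
    (h : S.IsCell κ l τ v a b) : ∃ l' τ' c, S.IsCell κ l' τ' a v c := by
  classical
  set g : V3 →ₗ[ℤ] ℝ := toR (Dl v a) with hg
  have gx : ∀ x, g x = (D v a x : ℝ) := fun x => rfl
  have gv : g v = 0 := by rw [gx, D_self3]; simp
  have ga : g a = 0 := by rw [gx, D_self2]; simp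
  have hDl : Dl v a ≠ 0 := by
    intro h0
    have := congrArg (fun f : V3 →ₗ[ℤ] ℤ => f b) h0
    simp [h.det] at this
  have hneg := neg_coord (S := S) h.Xu gv ⟨0, co_ne hDl 0⟩
  obtain ⟨s, hs0, hsupp, x1, hx1, hgx1, hfx1⟩ := rotate h.supp hneg
  have hDx1 : D v a x1 < 0 := by
    have : (D v a x1 : ℝ) < 0 := hgx1
    exact_mod_cast this
  have hfv : (toR l + s • g) v = 1 := by
    change (l v : ℝ) + s * g v = 1
    rw [gv, h.lu]; simp
  have hfa : (toR l + s • g) a = 1 := by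
    change (l a : ℝ) + s * g a = 1
    rw [ga, h.lv]; simp
  obtain ⟨l', hl'⟩ := H _ hsupp ⟨v, a, x1, h.Xu, h.Xv, hx1, hfv, hfa, hfx1, hDx1.ne⟩
  rw [hl'] at hsupp
  have hval : ∀ x, (l' x : ℝ) = l x + s * D v a x := by
    intro x
    have := congrArg (fun f : V3 →ₗ[ℤ] ℝ => f x) hl'
    exact this.symm
  have lv' : l' v = 1 := by
    have := hval v
    rw [D_self3, h.lu] at this
    have h2 : (l' v : ℝ) = 1 := by simpa using this
    exact_mod_cast h2
  have la' : l' a = 1 := by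
    have := hval a
    rw [D_self2, h.lv] at this
    have h2 : (l' a : ℝ) = 1 := by simpa using this
    exact_mod_cast h2
  have lx1' : l' x1 = 1 := by
    rw [hl', toR_apply] at hfx1
    exact_mod_cast hfx1
  have hl'0 : l' ≠ 0 := ne_of_one lv'
  have hfin := fin_le (S := S) (supp_pos hsupp) 1
  obtain ⟨τ0, t0v, t0a, t0s⟩ : ∃ τ0 : V3 →ₗ[ℤ] ℝ, τ0 v = S.q κ l' v v ∧ τ0 a = S.q κ l' a a ∧
      (s = 0 → ∀ x, S.X x → l' x = 1 → τ0 x ≤ S.q κ l' x x) := by
    by_cases hs : s = 0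
    · have hll : l' = l := by
        apply LinearMap.ext
        intro x
        have := hval x
        rw [hs, zero_mul, add_zero] at this
        exact_mod_cast this
      rw [hll]
      exact ⟨τ, h.tu, h.tv, fun _ => h.le⟩
    · refine ⟨S.q κ l' v v • toR (Dl a b) + S.q κ l' a a • toR (Dl b v), ?_, ?_, fun h0 => absurd h0 hs⟩
      · change S.q κ l' v v * (D a b v : ℝ) + S.q κ l' a a * (D b v v : ℝ) = _
        rw [D_self2, ← D_rot, h.det]
        simp
      · change S.q κ l' v v * (D a b a : ℝ) + S.q κ l' a a * (D b v a : ℝ) = _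
        rw [D_self3, ← D_rot' , h.det]
        simp
  obtain ⟨c, hc, hcmin⟩ := Finset.exists_min_image
    (hfin.toFinset.filter fun x => l' x = 1 ∧ D v a x < 0)
    (fun x => (S.q κ l' x x - τ0 x) / (-(D v a x : ℝ))) ⟨x1, by
      rw [Finset.mem_filter, Set.Finite.mem_toFinset]
      refine ⟨⟨hx1, ?_⟩, lx1', hDx1⟩
      rw [toR_apply, lx1']; simp⟩
  rw [Finset.mem_filter, Set.Finite.mem_toFinset] at hc
  obtain ⟨⟨hcX, -⟩, lc, hDc⟩ := hc
  set s' := (S.q κ l' c c - τ0 c) / (-(D v a c : ℝ)) with hs'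
  have hDc' : (D v a c : ℝ) < 0 := by exact_mod_cast hDc
  have hs'eq : s' * (-(D v a c : ℝ)) = S.q κ l' c c - τ0 c := div_mul_cancel₀ _ (by linarith)
  have tval : ∀ x, (τ0 + (-s') • g) x = τ0 x - s' * (D v a x : ℝ) := by
    intro x
    change τ0 x + (-s') * g x = _
    rw [gx]; ring
  refine ⟨l', τ0 + (-s') • g, c, ?_⟩
  apply mk_cell hκ hsupp _ h.Xv h.Xu hcX la' lv' lc
  · rw [tval, D_self2, t0a]; simp
  · rw [tval, D_self3, t0v]; simp
  · rw [tval]; linarith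
  · rw [D_swap]; omega
  · intro x hx lx
    rw [tval]
    rcases lt_trichotomy (D v a x) 0 with hD | hD | hD
    · have hD' : (D v a x : ℝ) < 0 := by exact_mod_cast hD
      have := hcmin x (by
        rw [Finset.mem_filter, Set.Finite.mem_toFinset]
        refine ⟨⟨hx, ?_⟩, lx, hD⟩
        rw [toR_apply, lx]; simp)
      rw [le_div_iff₀ (by linarith)] at this
      linarith
    · -- on the line
      have hcr := cramer v a b x
      rw [h.det, one_smul, hD, zero_smul, add_zero] at hcr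
      set m := D x a b
      set n := D v x b
      have hmn : m + n = 1 := by
        have := congrArg l' hcr
        simp only [map_add, map_smul, smul_eq_mul, lv', la', lx, mul_one] at this
        exact this.symm
      have hconv := q_conv (S := S) κ l' (x := x) (u := v) (v := a) (w := b) (n := 1) (α := m) (β := n)
        (γ := 0) (by rw [one_smul, zero_smul, add_zero]; exact hcr) (by omega)
      have ht : τ0 x = m * τ0 v + n * τ0 a := by
        have := congrArg τ0 hcr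
        simp only [map_add, map_smul] at this
        simpa only [zsmul_eq_mul] using this
      rw [ht, t0v, t0a, hD]
      have hmn0 : (m : ℝ) * n ≤ 0 := by
        have : m * n ≤ 0 := by
          rcases le_or_gt m 0 with h1 | h1
          · exact mul_nonpos_of_nonpos_of_nonneg h1 (by omega)
          · exact mul_nonpos_of_nonneg_of_nonpos h1.le (by omega)
        exact_mod_cast this
      have hva : v - a ≠ 0 := by
        intro h0
        have := sub_eq_zero.1 h0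
        have h2 := h.det
        rw [this, D_self1] at h2
        omega
      have hq := q_pos (S := S) hκ.1 hl'0 hva
      have : (m : ℝ) * n * S.q κ l' (v - a) (v - a) ≤ 0 := mul_nonpos_of_nonpos_of_nonneg hmn0 hq.le
      push_cast at hconv ⊢
      linarith
    · have hD' : (0 : ℝ) < D v a x := by exact_mod_cast hD
      have e1 := hval x
      rw [lx] at e1
      have e2 : (1 : ℝ) ≤ l x := h.supp x hx
      have hs : s = 0 := by
        by_contra hne
        have hspos : 0 < s := lt_of_le_of_ne hs0 (Ne.symm hne)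
        have := mul_pos hspos hD'
        push_cast at e1
        linarith
      have hle := t0s hs
      have hs'n : 0 ≤ s' := by
        rw [hs']
        apply div_nonneg
        · linarith [hle c hcX lc]
        · linarith
      have := hle x hx lx
      have := mul_nonneg hs'n hD'.le
      linarith

/-- one step of lifting -/
theorem lift {P : Set V3} (hP : P.Finite) {Q : V3 → ℝ} {τ h : V3 →ₗ[ℤ] ℝ} (hle : ∀ x ∈ P, τ x ≤ Q x)
    (hex : ∃ x ∈ P, 0 < h x) :
    ∃ s : ℝ, (∀ x ∈ P, (τ + s • h) x ≤ Q x) ∧ ∃ u ∈ P, 0 < h u ∧ (τ + s • h) u = Q u := by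
  classical
  obtain ⟨x0, hx0, hh0⟩ := hex
  obtain ⟨u, hu, hmin⟩ := Finset.exists_min_image (hP.toFinset.filter fun x => 0 < h x)
    (fun x => (Q x - τ x) / h x) ⟨x0, by
      rw [Finset.mem_filter, Set.Finite.mem_toFinset]
      exact ⟨hx0, hh0⟩⟩
  rw [Finset.mem_filter, Set.Finite.mem_toFinset] at hu
  obtain ⟨huP, hhu⟩ := hu
  set s := (Q u - τ u) / h u with hs
  have hsn : 0 ≤ s := div_nonneg (by linarith [hle u huP]) hhu.le
  have hseq : s * h u = Q u - τ u := div_mul_cancel₀ _ hhu.ne'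
  refine ⟨s, ?_, u, huP, hhu, ?_⟩
  · intro x hx
    change τ x + s * h x ≤ Q x
    by_cases hhx : 0 < h x
    · have := hmin x (by
        rw [Finset.mem_filter, Set.Finite.mem_toFinset]
        exact ⟨hx, hhx⟩)
      rw [le_div_iff₀ hhx] at this
      linarith
    · push Not at hhx
      have := mul_nonpos_of_nonneg_of_nonpos hsn hhx
      linarith [hle x hx]
  · change τ u + s * h u = Q u
    linarith

theorem parallel {u w : V3} (h : ∀ x, D u w x = 0) (i : Fin 3) : u i • w = w i • u := by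
  have h2 := h ![0, 0, 1]
  have h1 := h ![0, 1, 0]
  have h0 := h ![1, 0, 0]
  simp [D] at h0 h1 h2
  apply V3ext <;> fin_cases i <;> simp <;> linarith

theorem exists_cell {κ : ℝ} (hκ : S.Gen κ) (H : S.Int1) : ∃ l τ u v w, S.IsCell κ l τ u v w := by
  classical
  obtain ⟨x0, hx0, -⟩ := S.ap 0 1 one_pos
  set e : V3 →ₗ[ℤ] ℝ := S.ell 0 + S.ell 1 + S.ell 2 with he
  have ex : ∀ x, e x = S.ell 0 x + S.ell 1 x + S.ell 2 x := fun x => rfl
  have ce : ∀ i, 0 < S.c e i := by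
    intro i
    change 0 < co S.y (S.ell 0 + S.ell 1 + S.ell 2) i
    rw [co_add, co_add, S.dual, S.dual, S.dual]
    fin_cases i <;> simp
  have hfin := fin_le (S := S) ce (e x0)
  obtain ⟨x1, hx1, hmin1⟩ := Finset.exists_min_image hfin.toFinset (fun x => e x)
    ⟨x0, by rw [Set.Finite.mem_toFinset]; exact ⟨hx0, le_rfl⟩⟩
  rw [Set.Finite.mem_toFinset] at hx1
  obtain ⟨hx1X, hx1le⟩ := hx1
  have e1pos : 0 < e x1 := by
    rw [ex]; linarith [hx1X 0, hx1X 1, hx1X 2]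
  have hf1 : S.Supp ((1 / e x1) • e) := by
    intro x hx
    change 1 ≤ (1 / e x1) * e x
    have : e x1 ≤ e x := by
      by_cases hle : e x ≤ e x0
      · exact hmin1 x (by rw [Set.Finite.mem_toFinset]; exact ⟨hx, hle⟩)
      · push Not at hle
        linarith
    rw [one_div, ← div_eq_inv_mul, le_div_iff₀ e1pos]
    linarith
  set f1 := (1 / e x1) • e with hf1def
  have f1x1 : f1 x1 = 1 := by
    change (1 / e x1) * e x1 = 1
    field_simp
  set g1 : V3 →ₗ[ℤ] ℝ := S.ell 1 x1 • S.ell 0 - S.ell 0 x1 • S.ell 1 with hg1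
  have g1x : ∀ x, g1 x = S.ell 1 x1 * S.ell 0 x - S.ell 0 x1 * S.ell 1 x := fun x => rfl
  have cg1 : S.c g1 1 < 0 := by
    change co S.y (S.ell 1 x1 • S.ell 0 - S.ell 0 x1 • S.ell 1) 1 < 0
    rw [co_sub, co_smul, co_smul, S.dual, S.dual]
    have := hx1X 0
    simp
    exact this
  obtain ⟨s1, hs1, hf2, x2, hx2, g1x2, f2x2⟩ := rotate hf1 ⟨1, cg1⟩
  set f2 := f1 + s1 • g1 with hf2def
  have f2x1 : f2 x1 = 1 := by
    change f1 x1 + s1 * g1 x1 = 1
    rw [g1x, f1x1]; ring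
  set g2 : V3 →ₗ[ℤ] ℝ := (S.ell 1 x1 * S.ell 2 x2 - S.ell 2 x1 * S.ell 1 x2) • S.ell 0 +
    (S.ell 2 x1 * S.ell 0 x2 - S.ell 0 x1 * S.ell 2 x2) • S.ell 1 +
    (S.ell 0 x1 * S.ell 1 x2 - S.ell 1 x1 * S.ell 0 x2) • S.ell 2 with hg2
  have g2x : ∀ x, g2 x = (S.ell 1 x1 * S.ell 2 x2 - S.ell 2 x1 * S.ell 1 x2) * S.ell 0 x +
    (S.ell 2 x1 * S.ell 0 x2 - S.ell 0 x1 * S.ell 2 x2) * S.ell 1 x +
    (S.ell 0 x1 * S.ell 1 x2 - S.ell 1 x1 * S.ell 0 x2) * S.ell 2 x := fun x => rfl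
  have g2x1 : g2 x1 = 0 := by rw [g2x]; ring
  have g2x2 : g2 x2 = 0 := by rw [g2x]; ring
  have cg2 : S.c g2 2 ≠ 0 := by
    change co S.y ((S.ell 1 x1 * S.ell 2 x2 - S.ell 2 x1 * S.ell 1 x2) • S.ell 0 +
      (S.ell 2 x1 * S.ell 0 x2 - S.ell 0 x1 * S.ell 2 x2) • S.ell 1 +
      (S.ell 0 x1 * S.ell 1 x2 - S.ell 1 x1 * S.ell 0 x2) • S.ell 2) 2 ≠ 0
    rw [co_add, co_add, co_smul, co_smul, co_smul, S.dual, S.dual, S.dual]
    rw [g1x] at g1x2
    simp
    intro h0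
    linarith
  obtain ⟨s2, hs2, hf3, x3, hx3, g2x3, f3x3⟩ := rotate hf2 (neg_coord hx1X g2x1 ⟨2, cg2⟩)
  set f3 := f2 + s2 • g2 with hf3def
  have f3x1 : f3 x1 = 1 := by
    change f2 x1 + s2 * g2 x1 = 1
    rw [g2x1, f2x1]; ring
  have f3x2 : f3 x2 = 1 := by
    change f2 x2 + s2 * g2 x2 = 1
    rw [g2x2, f2x2]; ring
  have hD : D x1 x2 x3 ≠ 0 := by
    intro h0
    have hall : ∀ x, D x1 x2 x = 0 := by
      intro x
      have := cramerR g2 x1 x2 x3 x
      rw [h0, g2x1, g2x2] at this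
      simp at this
      rcases this with h | h
      · exact h
      · linarith
    have hpar := parallel hall
    have hne := X_ne_zero hx1X
    obtain ⟨i, hi⟩ := Function.ne_iff.1 hne
    have k0 := congrArg (S.ell 0) (hpar i)
    have k1 := congrArg (S.ell 1) (hpar i)
    simp only [map_smul] at k0 k1
    simp only [zsmul_eq_mul] at k0 k1
    have hi' : (x1 i : ℝ) ≠ 0 := by
      simpa using hi
    rw [g1x] at g1x2
    have : (x1 i : ℝ) * (S.ell 1 x1 * S.ell 0 x2 - S.ell 0 x1 * S.ell 1 x2) = 0 := by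
      linear_combination S.ell 1 x1 * k0 - S.ell 0 x1 * k1
    rcases mul_eq_zero.1 this with h | h
    · exact hi' h
    · linarith
  obtain ⟨l, hl⟩ := H f3 hf3 ⟨x1, x2, x3, hx1X, hx2, hx3, f3x1, f3x2, f3x3, hD⟩
  rw [hl] at hf3
  rw [hl, toR_apply] at f3x1 f3x2 f3x3
  have lx1 : l x1 = 1 := by exact_mod_cast f3x1
  have lx2 : l x2 = 1 := by exact_mod_cast f3x2
  have lx3 : l x3 = 1 := by exact_mod_cast f3x3
  set P : Set V3 := {x | S.X x ∧ l x = 1} with hPdef
  have hP : P.Finite := by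
    apply (fin_le (S := S) (supp_pos hf3) 1).subset
    rintro x ⟨h1, h2⟩
    refine ⟨h1, ?_⟩
    rw [toR_apply, h2]; simp
  -- first contact point
  obtain ⟨u, huP, humin⟩ := Finset.exists_min_image hP.toFinset (fun x => S.q κ l x x)
    ⟨x1, by rw [Set.Finite.mem_toFinset]; exact ⟨hx1X, lx1⟩⟩
  rw [Set.Finite.mem_toFinset] at huP
  set τ1 : V3 →ₗ[ℤ] ℝ := S.q κ l u u • toR l with hτ1
  have τ1x : ∀ x, τ1 x = S.q κ l u u * (l x : ℝ) := fun x => rfl
  have hle1 : ∀ x ∈ P, τ1 x ≤ S.q κ l x x := by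
    intro x hx
    rw [τ1x, hx.2]
    have := humin x (by rw [Set.Finite.mem_toFinset]; exact hx)
    simpa using this
  have τ1u : τ1 u = S.q κ l u u := by rw [τ1x, huP.2]; simp
  -- second contact point
  obtain ⟨w, hwP, hwu⟩ : ∃ w ∈ P, w ≠ u := by
    by_contra hall
    push Not at hall
    have h1 := hall x1 ⟨hx1X, lx1⟩
    have h2 := hall x2 ⟨hx2, lx2⟩
    rw [h1, h2, D_self1] at hD
    exact hD rfl
  have hell : S.ell 0 w - S.ell 0 u ≠ 0 := by
    rw [← map_sub]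
    exact S.nz 0 _ (sub_ne_zero.2 hwu)
  obtain ⟨h1, h1u, h1w⟩ : ∃ h1 : V3 →ₗ[ℤ] ℝ, h1 u = 0 ∧ 0 < h1 w := by
    refine ⟨(S.ell 0 w - S.ell 0 u) • (S.ell 0 - S.ell 0 u • toR l), ?_, ?_⟩
    · change (S.ell 0 w - S.ell 0 u) * (S.ell 0 u - S.ell 0 u * (l u : ℝ)) = 0
      rw [huP.2]; simp
    · change 0 < (S.ell 0 w - S.ell 0 u) * (S.ell 0 w - S.ell 0 u * (l w : ℝ))
      rw [hwP.2]
      simp only [Int.cast_one, mul_one]
      exact mul_self_pos.2 hell
  obtain ⟨t1, hle2, u2, hu2P, h1u2, τu2⟩ := lift hP hle1 ⟨w, hwP, h1w⟩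
  set τ2 := τ1 + t1 • h1 with hτ2
  have τ2u : τ2 u = S.q κ l u u := by
    change τ1 u + t1 * h1 u = _
    rw [h1u, τ1u]; ring
  have hu2u : u2 ≠ u := by
    rintro rfl
    linarith
  -- third contact point
  obtain ⟨z, hzP, hzD⟩ : ∃ z ∈ P, D u u2 z ≠ 0 := by
    by_contra hall
    push Not at hall
    have z1 := hall x1 ⟨hx1X, lx1⟩
    have z2 := hall x2 ⟨hx2, lx2⟩
    have z3 := hall x3 ⟨hx3, lx3⟩
    have hall' : ∀ x, D u u2 x = 0 := by
      intro x
      have := cramerZ (Dl u u2) x1 x2 x3 x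
      simp only [Dl_apply] at this
      rw [z1, z2, z3] at this
      simp at this
      rcases this with h | h
      · exact absurd h hD
      · exact h
    have hpar := parallel hall'
    obtain ⟨i, hi⟩ := Function.ne_iff.1 (X_ne_zero huP.1)
    have k := congrArg l (hpar i)
    simp only [map_smul, smul_eq_mul, huP.2, hu2P.2, mul_one] at k
    have k2 := hpar i
    rw [← k] at k2
    have k3 : u i • (u2 - u) = 0 := by rw [smul_sub, k2, sub_self]
    rcases smul_eq_zero.1 k3 with h | h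
    · exact hi h
    · exact hu2u (sub_eq_zero.1 h)
  obtain ⟨h2, h2u, h2u2, h2z, h2D⟩ : ∃ h2 : V3 →ₗ[ℤ] ℝ, h2 u = 0 ∧ h2 u2 = 0 ∧ 0 < h2 z ∧
      ∀ x, 0 < h2 x → D u u2 x ≠ 0 := by
    refine ⟨(D u u2 z : ℝ) • toR (Dl u u2), ?_, ?_, ?_, ?_⟩
    · change (D u u2 z : ℝ) * (D u u2 u : ℝ) = 0
      rw [D_self3]; simp
    · change (D u u2 z : ℝ) * (D u u2 u2 : ℝ) = 0
      rw [D_self2]; simp
    · change 0 < (D u u2 z : ℝ) * (D u u2 z : ℝ)
      exact mul_self_pos.2 (by exact_mod_cast hzD)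
    · intro x hx h0
      change 0 < (D u u2 z : ℝ) * (D u u2 x : ℝ) at hx
      rw [h0] at hx
      simp at hx
  obtain ⟨t2, hle3, u3, hu3P, h2u3, τu3⟩ := lift hP hle2 ⟨z, hzP, h2z⟩
  set τ3 := τ2 + t2 • h2 with hτ3
  have τ3u : τ3 u = S.q κ l u u := by
    change τ2 u + t2 * h2 u = _
    rw [h2u, τ2u]; ring
  have τ3u2 : τ3 u2 = S.q κ l u2 u2 := by
    change τ2 u2 + t2 * h2 u2 = _
    rw [h2u2, τu2]; ring
  have hD3 := h2D u3 h2u3
  rcases lt_or_gt_of_ne hD3 with hlt | hgt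
  · exact ⟨l, τ3, u2, u, u3, mk_cell hκ hf3 (fun x h1 h2 => hle3 x ⟨h1, h2⟩) hu2P.1 huP.1 hu3P.1 hu2P.2
      huP.2 hu3P.2 τ3u2 τ3u τu3 (by rw [D_swap]; omega)⟩
  · exact ⟨l, τ3, u, u2, u3, mk_cell hκ hf3 (fun x h1 h2 => hle3 x ⟨h1, h2⟩) huP.1 hu2P.1 hu3P.1 huP.2
      hu2P.2 hu3P.2 τ3u τ3u2 τu3 hgt⟩

end Sys

end Pool.Agent.H286R2
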