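import Pool.Agent.H286R2.Irr

/-!
Construction of the system from a matrix with an eigenbasis.
-/

namespace Pool.Agent.H286R2

open Module

/-- cast -/
def cst (x : V3) : Fin 3 → ℝ := fun j => (x j : ℝ)

theorem cst_add (x y : V3) : cst (x + y) = cst x + cst y := by
  funext j; simp [cst]

theorem cst_smul (c : ℤ) (x : V3) : cst (c • x) = (c : ℝ) • cst x := by
  funext j; simp [cst]

theorem cst_single (k : Fin 3) : cst (Pi.single k 1) = Pi.single k 1 := by
  funext j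
  unfold cst
  by_cases h : j = k
  · subst h; simp
  · simp [Pi.single_apply, h]

noncomputable def el (b : Basis (Fin 3) ℝ (Fin 3 → ℝ)) (i : Fin 3) : V3 →ₗ[ℤ] ℝ where
  toFun x := b.repr (cst x) i
  map_add' x y := by rw [cst_add, map_add]; rfl
  map_smul' c x := by
    rw [cst_smul, map_smul]
    simp

theorem el_apply (b : Basis (Fin 3) ℝ (Fin 3 → ℝ)) (i : Fin 3) (x : V3) :
    el b i x = b.repr (cst x) i := rfl

theorem el_sum (b : Basis (Fin 3) ℝ (Fin 3 → ℝ)) (x : V3) (j : Fin 3) :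
    (x j : ℝ) = ∑ i, el b i x * b i j := by
  have h := congrFun (b.sum_repr (cst x)) j
  rw [Finset.sum_apply] at h
  exact h.symm

theorem f_basis (f : V3 →ₗ[ℤ] ℝ) (x : V3) : f x = ∑ j, f (Pi.single j 1) * (x j : ℝ) := by
  have e : x = x 0 • (Pi.single 0 1 : V3) + x 1 • (Pi.single 1 1 : V3) + x 2 • (Pi.single 2 1 : V3) := by
    apply V3ext <;> simp
  nth_rewrite 1 [e]
  rw [map_add, map_add, map_smul, map_smul, map_smul]
  simp only [zsmul_eq_mul]
  rw [Fin.sum_univ_three]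
  ring

theorem el_expand (b : Basis (Fin 3) ℝ (Fin 3 → ℝ)) (f : V3 →ₗ[ℤ] ℝ) (x : V3) :
    f x = ∑ i, co (fun i => b i) f i * el b i x := by
  rw [f_basis]
  unfold co
  simp only [Finset.sum_mul]
  rw [Finset.sum_comm]
  apply Finset.sum_congr rfl
  intro j _
  rw [el_sum b x j, Finset.mul_sum]
  apply Finset.sum_congr rfl
  intro i _
  ring

theorem el_dual (b : Basis (Fin 3) ℝ (Fin 3 → ℝ)) (i j : Fin 3) :
    co (fun i => b i) (el b i) j = if i = j then 1 else 0 := by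
  have h1 : b j = ∑ k, b j k • (Pi.single k 1 : Fin 3 → ℝ) := by
    funext m
    rw [Finset.sum_apply]
    simp [Pi.single_apply]
  have h2 : b.repr (b j) i = ∑ k, b j k * b.repr (Pi.single k 1) i := by
    conv_lhs => rw [h1]
    rw [map_sum]
    simp only [map_smul]
    rw [Finsupp.finset_sum_apply]
    rfl
  unfold co
  have h3 : ∑ k, el b i (Pi.single k 1) * b j k = b.repr (b j) i := by
    rw [h2]
    apply Finset.sum_congr rfl
    intro k _
    rw [el_apply, cst_single, mul_comm]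
  rw [h3, b.repr_self, Finsupp.single_apply]
  simp only [eq_comm]

theorem cst_mulVec (A : Matrix (Fin 3) (Fin 3) ℤ) (x : V3) :
    cst (A.mulVec x) = (A.map (fun a : ℤ => (a : ℝ))).mulVec (cst x) := by
  funext i
  simp [cst, Matrix.mulVec, dotProduct]

theorem el_eig {A : Matrix (Fin 3) (Fin 3) ℤ} {b : Basis (Fin 3) ℝ (Fin 3 → ℝ)} {μ : Fin 3 → ℝ}
    (heig : ∀ i, (A.map (fun a : ℤ => (a : ℝ))).mulVec (b i) = μ i • b i) (i : Fin 3) (x : V3) :
    el b i (A.mulVec x) = μ i * el b i x := by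
  have h : cst (A.mulVec x) = ∑ k, (μ k * el b k x) • b k := by
    rw [cst_mulVec]
    conv_lhs => rw [← b.sum_repr (cst x)]
    rw [← Matrix.mulVecLin_apply, map_sum]
    apply Finset.sum_congr rfl
    intro k _
    rw [map_smul, Matrix.mulVecLin_apply, heig, smul_smul, mul_comm]
    rfl
  rw [el_apply, h, Basis.repr_sum_self]

theorem el_fin (b : Basis (Fin 3) ℝ (Fin 3 → ℝ)) (c : ℝ) :
    {x : V3 | ∀ i, 0 < el b i x ∧ el b i x ≤ c}.Finite := by
  set M : ℝ := ∑ j, ∑ i, |c| * |b i j| with hM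
  apply (Set.finite_Icc (fun _ : Fin 3 => -⌈M⌉) (fun _ : Fin 3 => ⌈M⌉)).subset
  intro x hx
  have hb : ∀ j, |(x j : ℝ)| ≤ ⌈M⌉ := by
    intro j
    refine le_trans ?_ (Int.le_ceil M)
    rw [el_sum b x j]
    refine (Finset.abs_sum_le_sum_abs _ _).trans ?_
    have h1 : ∑ i, |el b i x * b i j| ≤ ∑ i, |c| * |b i j| := by
      apply Finset.sum_le_sum
      intro i _
      rw [abs_mul]
      apply mul_le_mul_of_nonneg_right _ (abs_nonneg _)
      rw [abs_of_pos (hx i).1]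
      exact (hx i).2.trans (le_abs_self c)
    refine h1.trans ?_
    rw [hM]
    exact Finset.single_le_sum (f := fun j => ∑ i, |c| * |b i j|)
      (fun j _ => Finset.sum_nonneg fun i _ => by positivity) (Finset.mem_univ j)
  rw [Set.mem_Icc]
  constructor
  · intro j
    have := (abs_le.1 (hb j)).1
    exact_mod_cast this
  · intro j
    have := (abs_le.1 (hb j)).2
    exact_mod_cast this

/-- real determinant -/
def DR (u v w : Fin 3 → ℝ) : ℝ :=
  u 0 * (v 1 * w 2 - v 2 * w 1) - u 1 * (v 0 * w 2 - v 2 * w 0) + u 2 * (v 0 * w 1 - v 1 * w 0)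

def Vd (μ : Fin 3 → ℝ) : ℝ := (μ 1 - μ 0) * (μ 2 - μ 0) * (μ 2 - μ 1)

theorem el_norm {A : Matrix (Fin 3) (Fin 3) ℤ} {b : Basis (Fin 3) ℝ (Fin 3 → ℝ)} {μ : Fin 3 → ℝ}
    (heig : ∀ i, (A.map (fun a : ℤ => (a : ℝ))).mulVec (b i) = μ i • b i) (x : V3) :
    (D x (A.mulVec x) (A.mulVec (A.mulVec x)) : ℝ) =
      (DR (b 0) (b 1) (b 2) * Vd μ) * (el b 0 x * el b 1 x * el b 2 x) := by
  have h0 : ∀ j, (x j : ℝ) = el b 0 x * b 0 j + el b 1 x * b 1 j + el b 2 x * b 2 j := by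
    intro j
    rw [el_sum b x j, Fin.sum_univ_three]
  have h1 : ∀ j, ((A.mulVec x) j : ℝ) =
      μ 0 * el b 0 x * b 0 j + μ 1 * el b 1 x * b 1 j + μ 2 * el b 2 x * b 2 j := by
    intro j
    rw [el_sum b (A.mulVec x) j, Fin.sum_univ_three, el_eig heig, el_eig heig, el_eig heig]
  have h2 : ∀ j, ((A.mulVec (A.mulVec x)) j : ℝ) =
      μ 0 * (μ 0 * el b 0 x) * b 0 j + μ 1 * (μ 1 * el b 1 x) * b 1 j +
        μ 2 * (μ 2 * el b 2 x) * b 2 j := by
    intro j
    rw [el_sum b (A.mulVec (A.mulVec x)) j, Fin.sum_univ_three, el_eig heig, el_eig heig,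
      el_eig heig, el_eig heig, el_eig heig, el_eig heig]
  unfold D
  push_cast
  rw [h0, h0, h0, h1, h1, h1, h2, h2, h2]
  unfold DR Vd
  ring

theorem el_nz {A : Matrix (Fin 3) (Fin 3) ℤ} (hA : Irreducible (A.charpoly.map (Int.castRingHom ℚ)))
    {b : Basis (Fin 3) ℝ (Fin 3 → ℝ)} {μ : Fin 3 → ℝ}
    (heig : ∀ i, (A.map (fun a : ℤ => (a : ℝ))).mulVec (b i) = μ i • b i) (i : Fin 3) (x : V3)
    (hx : x ≠ 0) : el b i x ≠ 0 := by
  intro h
  have h1 := irr_det hA hx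
  have h2 := el_norm heig x
  have h3 : el b 0 x * el b 1 x * el b 2 x = 0 := by
    fin_cases i
    · change el b 0 x = 0 at h
      rw [h]; ring
    · change el b 1 x = 0 at h
      rw [h]; ring
    · change el b 2 x = 0 at h
      rw [h]; ring
  rw [h3, mul_zero] at h2
  exact h1 (by exact_mod_cast h2)

theorem K_ne {A : Matrix (Fin 3) (Fin 3) ℤ} (hA : Irreducible (A.charpoly.map (Int.castRingHom ℚ)))
    {b : Basis (Fin 3) ℝ (Fin 3 → ℝ)} {μ : Fin 3 → ℝ}
    (heig : ∀ i, (A.map (fun a : ℤ => (a : ℝ))).mulVec (b i) = μ i • b i) :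
    DR (b 0) (b 1) (b 2) * Vd μ ≠ 0 := by
  intro h
  have hx : (Pi.single 0 1 : V3) ≠ 0 := by
    intro h
    have := congrFun h 0
    simp at this
  have h1 := irr_det hA hx
  have h2 := el_norm heig (Pi.single 0 1)
  rw [h, zero_mul] at h2
  exact h1 (by exact_mod_cast h2)

/-- evaluation functional -/
def ev (t : ℝ) : V3 →ₗ[ℤ] ℝ where
  toFun c := c 0 + c 1 * t + c 2 * t ^ 2
  map_add' x y := by simp only [Pi.add_apply]; push_cast; ring
  map_smul' n x := by simp only [Pi.smul_apply, smul_eq_mul, RingHom.id_apply]; push_cast; simp; ring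

theorem ev_apply (t : ℝ) (c : V3) : ev t c = c 0 + c 1 * t + c 2 * t ^ 2 := rfl

def G (A : Matrix (Fin 3) (Fin 3) ℤ) (c x : V3) : V3 :=
  c 0 • x + c 1 • A.mulVec x + c 2 • A.mulVec (A.mulVec x)

theorem el_G {A : Matrix (Fin 3) (Fin 3) ℤ} {b : Basis (Fin 3) ℝ (Fin 3 → ℝ)} {μ : Fin 3 → ℝ}
    (heig : ∀ i, (A.map (fun a : ℤ => (a : ℝ))).mulVec (b i) = μ i • b i) (i : Fin 3) (c x : V3) :
    el b i (G A c x) = ev (μ i) c * el b i x := by
  unfold G
  rw [map_add, map_add, map_smul, map_smul, map_smul, el_eig heig, el_eig heig, el_eig heig, ev_apply]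
  simp only [zsmul_eq_mul]
  ring

theorem G_ne {A : Matrix (Fin 3) (Fin 3) ℤ} (hA : Irreducible (A.charpoly.map (Int.castRingHom ℚ)))
    {c x : V3} (hc : c ≠ 0) (hx : x ≠ 0) : G A c x ≠ 0 := by
  intro h
  obtain ⟨h0, h1, h2⟩ := irr_comb hA hx h
  exact hc (V3ext h0 h1 h2)

theorem pigeon (φ ψ : V3 →ₗ[ℤ] ℝ) {δ : ℝ} (hδ : 0 < δ) :
    ∃ c : V3, c ≠ 0 ∧ |φ c| < δ ∧ |ψ c| < δ := by
  classical
  set Bf : (V3 →ₗ[ℤ] ℝ) → ℝ := fun f => ∑ j, |f (Pi.single j 1)| with hBf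
  have hB0 : ∀ f, 0 ≤ Bf f := fun f => Finset.sum_nonneg fun j _ => abs_nonneg _
  obtain ⟨K, hK⟩ := exists_nat_ge ((Bf φ + Bf ψ) / δ)
  rw [div_le_iff₀ hδ] at hK
  set N : ℕ := (2 * K + 2) ^ 2 with hN
  set s : Finset V3 := Fintype.piFinset (fun _ : Fin 3 => Finset.Icc (0 : ℤ) N) with hs
  set t : Finset (ℤ × ℤ) := Finset.Icc (-(K * N : ℤ)) (K * N) ×ˢ Finset.Icc (-(K * N : ℤ)) (K * N) with ht
  have hcs : s.card = (N + 1) ^ 3 := by
    rw [hs, Fintype.card_piFinset]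
    simp [Int.card_Icc]
  have hct : t.card = (2 * (K * N) + 1) ^ 2 := by
    rw [ht, Finset.card_product, Int.card_Icc]
    have : ((K : ℤ) * N + 1 - -(K * N : ℤ)).toNat = 2 * (K * N) + 1 := by
      have h : ((K : ℤ) * N + 1 - -(K * N : ℤ)) = ((2 * (K * N) + 1 : ℕ) : ℤ) := by
        push_cast; ring
      rw [h, Int.toNat_natCast]
    rw [this]; ring
  have hlt : t.card < s.card := by
    rw [hcs, hct]
    have h1 : 2 * (K * N) + 1 ≤ (2 * K + 2) * (N + 1) := by nlinarith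
    calc (2 * (K * N) + 1) ^ 2 ≤ ((2 * K + 2) * (N + 1)) ^ 2 := Nat.pow_le_pow_left h1 2
      _ = N * (N + 1) ^ 2 := by rw [mul_pow, ← hN]
      _ < (N + 1) * (N + 1) ^ 2 := by
          apply Nat.mul_lt_mul_of_pos_right (by omega) (by positivity)
      _ = (N + 1) ^ 3 := by ring
  have hbd : ∀ (f : V3 →ₗ[ℤ] ℝ), Bf f ≤ K * δ → ∀ c ∈ s, ⌊f c / δ⌋ ∈ Finset.Icc (-(K * N : ℤ)) (K * N) := by
    intro f hf c hc
    rw [hs, Fintype.mem_piFinset] at hc
    have h1 : |f c| ≤ K * N * δ := by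
      rw [f_basis]
      refine (Finset.abs_sum_le_sum_abs _ _).trans ?_
      calc ∑ j, |f (Pi.single j 1) * (c j : ℝ)| ≤ ∑ j, |f (Pi.single j 1)| * N := by
            apply Finset.sum_le_sum
            intro j _
            rw [abs_mul]
            apply mul_le_mul_of_nonneg_left _ (abs_nonneg _)
            have := Finset.mem_Icc.1 (hc j)
            rw [abs_of_nonneg (by exact_mod_cast this.1)]
            exact_mod_cast this.2
        _ = Bf f * N := by rw [hBf, ← Finset.sum_mul]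
        _ ≤ K * δ * N := mul_le_mul_of_nonneg_right hf (by positivity)
        _ = K * N * δ := by ring
    rw [abs_le] at h1
    rw [Finset.mem_Icc]
    constructor
    · rw [Int.le_floor]
      push_cast
      rw [le_div_iff₀ hδ]
      linarith [h1.1]
    · have : f c / δ ≤ ((K * N : ℤ) : ℝ) := by
        push_cast
        rw [div_le_iff₀ hδ]
        exact h1.2
      exact Int.floor_le_iff.2 (by linarith)
  have hφK : Bf φ ≤ K * δ := by linarith [hB0 ψ]
  have hψK : Bf ψ ≤ K * δ := by linarith [hB0 φ]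
  obtain ⟨c, hc, c', hc', hne, heq⟩ := Finset.exists_ne_map_eq_of_card_lt_of_maps_to hlt
    (f := fun c => (⌊φ c / δ⌋, ⌊ψ c / δ⌋)) (fun c hc => by
      rw [ht]
      exact Finset.mem_coe.2 (Finset.mem_product.2 ⟨hbd φ hφK c hc, hbd ψ hψK c hc⟩))
  have heq : (⌊φ c / δ⌋, ⌊ψ c / δ⌋) = (⌊φ c' / δ⌋, ⌊ψ c' / δ⌋) := heq
  rw [Prod.mk.injEq] at heq
  have fin : ∀ (f : V3 →ₗ[ℤ] ℝ), ⌊f c / δ⌋ = ⌊f c' / δ⌋ → |f (c - c')| < δ := by
    intro f hf
    have := Int.abs_sub_lt_one_of_floor_eq_floor hf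
    rw [← sub_div, abs_div, abs_of_pos hδ, div_lt_one hδ] at this
    rwa [map_sub]
  exact ⟨c - c', sub_ne_zero.2 hne, fin φ heq.1, fin ψ heq.2⟩

theorem exists_pos (b : Basis (Fin 3) ℝ (Fin 3 → ℝ)) : ∃ x : V3, ∀ j, 0 < el b j x := by
  set t : ℝ := 1 + ∑ j, ∑ k, |b.repr (Pi.single k 1) j| with ht
  set s : Fin 3 → ℝ := ∑ i, b i with hs
  refine ⟨fun k => ⌊t * s k⌋, ?_⟩
  intro j
  set fr : Fin 3 → ℝ := fun k => Int.fract (t * s k) with hfr
  have h1 : cst (fun k => ⌊t * s k⌋) = t • s - fr := by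
    funext k
    have := Int.self_sub_fract (t * s k)
    simp only [cst, Pi.sub_apply, Pi.smul_apply, smul_eq_mul, hfr]
    linarith
  have h2 : fr = ∑ k, fr k • (Pi.single k 1 : Fin 3 → ℝ) := by
    funext m
    rw [Finset.sum_apply]
    simp [Pi.single_apply]
  have h3 : b.repr fr j = ∑ k, fr k * b.repr (Pi.single k 1) j := by
    conv_lhs => rw [h2]
    rw [map_sum]
    simp only [map_smul]
    rw [Finsupp.finset_sum_apply]
    rfl
  have h4 : b.repr fr j ≤ ∑ k, |b.repr (Pi.single k 1) j| := by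
    rw [h3]
    apply Finset.sum_le_sum
    intro k _
    have f0 : 0 ≤ fr k := Int.fract_nonneg _
    have f1 : fr k ≤ 1 := (Int.fract_lt_one _).le
    calc fr k * b.repr (Pi.single k 1) j ≤ fr k * |b.repr (Pi.single k 1) j| :=
          mul_le_mul_of_nonneg_left (le_abs_self _) f0
      _ ≤ 1 * |b.repr (Pi.single k 1) j| := mul_le_mul_of_nonneg_right f1 (abs_nonneg _)
      _ = _ := one_mul _
  have h5 : b.repr s j = 1 := by
    have : s = ∑ i, (fun _ => (1 : ℝ)) i • b i := by rw [hs]; simp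
    rw [this, Basis.repr_sum_self]
  have h6 : ∑ k, |b.repr (Pi.single k 1) j| ≤ ∑ j, ∑ k, |b.repr (Pi.single k 1) j| :=
    Finset.single_le_sum (f := fun j => ∑ k, |b.repr (Pi.single k 1) j|)
      (fun j _ => Finset.sum_nonneg fun i _ => abs_nonneg _) (Finset.mem_univ j)
  rw [el_apply, h1, map_sub, map_smul, Finsupp.sub_apply, Finsupp.smul_apply, h5, smul_eq_mul]
  linarith

theorem el_ap {A : Matrix (Fin 3) (Fin 3) ℤ} (hA : Irreducible (A.charpoly.map (Int.castRingHom ℚ)))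
    {b : Basis (Fin 3) ℝ (Fin 3 → ℝ)} {μ : Fin 3 → ℝ}
    (heig : ∀ i, (A.map (fun a : ℤ => (a : ℝ))).mulVec (b i) = μ i • b i) (i : Fin 3) (δ : ℝ)
    (hδ : 0 < δ) : ∃ x, (∀ j, 0 < el b j x) ∧ ∀ j, j ≠ i → el b j x < δ := by
  obtain ⟨x0, hx0⟩ := exists_pos b
  have hx00 : x0 ≠ 0 := by
    rintro rfl
    have := hx0 0
    simp at this
  set M : ℝ := 1 + ∑ j, el b j x0 with hM
  have hMj : ∀ j, el b j x0 < M := by
    intro j
    have := Finset.single_le_sum (f := fun j => el b j x0) (fun j _ => (hx0 j).le) (Finset.mem_univ j)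
    rw [hM]
    linarith
  have hM0 : 0 < M := lt_trans (hx0 0) (hMj 0)
  set δ' : ℝ := min 1 (δ / M) with hδ'
  have hδ'0 : 0 < δ' := lt_min one_pos (div_pos hδ hM0)
  obtain ⟨c, hc, h1, h2⟩ := pigeon (ev (μ (i + 1))) (ev (μ (i + 2))) hδ'0
  have hsm : ∀ j, j ≠ i → |ev (μ j) c| < δ' := by
    intro j hj
    have : j = i + 1 ∨ j = i + 2 := by omega
    rcases this with h | h
    · rw [h]; exact h1
    · rw [h]; exact h2
  have hev : ∀ j, ev (μ j) c ≠ 0 := by
    intro j h0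
    have h3 := el_G heig j c x0
    rw [h0, zero_mul] at h3
    exact el_nz hA heig j _ (G_ne hA hc hx00) h3
  refine ⟨G A c (G A c x0), ?_, ?_⟩
  · intro j
    rw [el_G heig, el_G heig, ← mul_assoc]
    exact mul_pos (mul_self_pos.2 (hev j)) (hx0 j)
  · intro j hj
    rw [el_G heig, el_G heig, ← mul_assoc]
    have h3 := hsm j hj
    have h4 : ev (μ j) c * ev (μ j) c < δ' := by
      rw [← abs_mul_abs_self]
      have h5 : |ev (μ j) c| < 1 := lt_of_lt_of_le h3 (min_le_left _ _)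
      have h6 := abs_nonneg (ev (μ j) c)
      nlinarith
    have h7 : δ' ≤ δ / M := min_le_right _ _
    have h8 : 0 ≤ ev (μ j) c * ev (μ j) c := mul_self_nonneg _
    calc ev (μ j) c * ev (μ j) c * el b j x0 ≤ ev (μ j) c * ev (μ j) c * M :=
          mul_le_mul_of_nonneg_left (hMj j).le h8
      _ < δ / M * M := mul_lt_mul_of_pos_right (lt_of_lt_of_le h4 h7) hM0
      _ = δ := div_mul_cancel₀ _ hM0.ne'

end Pool.Agent.H286R2
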