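import Mathlib

/-!
Lattice geometry in `ℤ³`: determinants, Cramer's rule, empty triangles.
-/

namespace Pool.Agent.H286R2

abbrev V3 := Fin 3 → ℤ

/-- the determinant -/
def D (u v w : V3) : ℤ :=
  u 0 * (v 1 * w 2 - v 2 * w 1) - u 1 * (v 0 * w 2 - v 2 * w 0) + u 2 * (v 0 * w 1 - v 1 * w 0)

theorem V3ext {x y : V3} (h0 : x 0 = y 0) (h1 : x 1 = y 1) (h2 : x 2 = y 2) : x = y := by
  funext i
  fin_cases i
  · exact h0
  · exact h1
  · exact h2

theorem cramer (u v w x : V3) : D u v w • x = D x v w • u + D u x w • v + D u v x • w := by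
  apply V3ext <;> simp only [Pi.add_apply, Pi.smul_apply, smul_eq_mul, D] <;> ring

theorem cramerR (f : V3 →ₗ[ℤ] ℝ) (u v w x : V3) :
    (D u v w : ℝ) * f x = D x v w * f u + D u x w * f v + D u v x * f w := by
  have h := congrArg f (cramer u v w x)
  simp only [map_add, map_smul] at h
  simp only [zsmul_eq_mul] at h
  exact h

theorem cramerZ (f : V3 →ₗ[ℤ] ℤ) (u v w x : V3) :
    D u v w * f x = D x v w * f u + D u x w * f v + D u v x * f w := by
  have h := congrArg f (cramer u v w x)
  simp only [map_add, map_smul, smul_eq_mul] at h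
  exact h

theorem D_rot (u v w : V3) : D u v w = D v w u := by unfold D; ring
theorem D_rot' (u v w : V3) : D u v w = D w u v := by unfold D; ring
theorem D_swap (u v w : V3) : D u v w = - D v u w := by unfold D; ring
theorem D_swap' (u v w : V3) : D u v w = - D u w v := by unfold D; ring
theorem D_self1 (u w : V3) : D u u w = 0 := by unfold D; ring
theorem D_self2 (u w : V3) : D w u u = 0 := by unfold D; ring
theorem D_self3 (u w : V3) : D u w u = 0 := by unfold D; ring

/-- `x ↦ D u v x` as a linear map -/
def Dl (u v : V3) : V3 →ₗ[ℤ] ℤ where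
  toFun x := D u v x
  map_add' x y := by simp only [D, Pi.add_apply]; ring
  map_smul' c x := by simp only [D, Pi.smul_apply, smul_eq_mul, RingHom.id_apply]; ring

@[simp] theorem Dl_apply (u v x : V3) : Dl u v x = D u v x := rfl

/-- an integral functional as a real one -/
def toR (l : V3 →ₗ[ℤ] ℤ) : V3 →ₗ[ℤ] ℝ where
  toFun x := (l x : ℝ)
  map_add' x y := by rw [map_add]; push_cast; rfl
  map_smul' c x := by
    rw [map_smul]
    simp

@[simp] theorem toR_apply (l : V3 →ₗ[ℤ] ℤ) (x : V3) : toR l x = (l x : ℝ) := rfl

theorem D_comb (k p q : V3) (a b c a' b' c' a'' b'' c'' : ℤ) :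
    D (a • k + b • p + c • q) (a' • k + b' • p + c' • q) (a'' • k + b'' • p + c'' • q) =
      (a * (b' * c'' - c' * b'') - b * (a' * c'' - c' * a'') + c * (a' * b'' - b' * a'')) * D k p q := by
  simp only [D, Pi.add_apply, Pi.smul_apply, smul_eq_mul]
  ring

theorem gen_unit {k p q : V3} (h : ∀ x : V3, ∃ a b c : ℤ, x = a • k + b • p + c • q) :
    D k p q = 1 ∨ D k p q = -1 := by
  obtain ⟨a, b, c, h0⟩ := h ![1, 0, 0]
  obtain ⟨a', b', c', h1⟩ := h ![0, 1, 0]
  obtain ⟨a'', b'', c'', h2⟩ := h ![0, 0, 1]
  have e := D_comb k p q a b c a' b' c' a'' b'' c''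
  rw [← h0, ← h1, ← h2] at e
  have e1 : D ![1, 0, 0] ![0, 1, 0] ![0, 0, 1] = 1 := by
    simp [D]
  rw [e1] at e
  exact Int.eq_one_or_neg_one_of_mul_eq_one (by rw [mul_comm]; exact e.symm)

/-- three vectors in the kernel of a surjective functional are dependent -/
theorem D_ker (l : V3 →ₗ[ℤ] ℤ) {k x y z : V3} (hk : l k = 1) (hx : l x = 0) (hy : l y = 0)
    (hz : l z = 0) : D x y z = 0 := by
  have h := cramerZ l x y z k
  rw [hk, hx, hy, hz] at h
  linarith

/-- An empty lattice triangle at height `d` has determinant `d`. -/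
theorem empty_triangle (l : V3 →ₗ[ℤ] ℤ) {k u v w : V3} {d : ℤ} (hk : l k = 1)
    (hu : l u = d) (hv : l v = d) (hw : l w = d) (hd : 0 < d) (hD : 0 < D u v w)
    (hemp : ∀ (x : V3) (n α β γ : ℤ), 0 < n → 0 ≤ α → 0 ≤ β → 0 ≤ γ →
      n • x = α • u + β • v + γ • w → l x = d → x = u ∨ x = v ∨ x = w) :
    D u v w = d := by
  set p := v - u with hp
  set q := w - u with hq
  have hlp : l p = 0 := by rw [hp, map_sub, hv, hu, sub_self]
  have hlq : l q = 0 := by rw [hq, map_sub, hw, hu, sub_self]
  set m := D k p q with hm
  have hker0 : D (u - d • k) p q = 0 := by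
    apply D_ker l hk _ hlp hlq
    rw [map_sub, map_smul, hk, hu, smul_eq_mul, mul_one, sub_self]
  have hDm : D u v w = d * m := by
    have e : D (u - d • k) p q = D u v w - d * m := by
      rw [hm, hp, hq]
      simp only [D, Pi.sub_apply, Pi.smul_apply, smul_eq_mul]
      ring
    linarith
  have hm0 : 0 < m := by
    rw [hDm] at hD
    by_contra hle
    push Not at hle
    nlinarith
  by_contra hne
  have hm2 : 2 ≤ m := by
    by_contra hlt
    have : m = 1 := by omega
    rw [this, mul_one] at hDm
    exact hne hDm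
  have hex : ∃ x : V3, ¬ ∃ a b c : ℤ, x = a • k + b • p + c • q := by
    by_contra hall
    push Not at hall
    have := gen_unit (fun x => hall x)
    omega
  obtain ⟨x, hx⟩ := hex
  set z := x - l x • k with hz
  have hlz : l z = 0 := by rw [hz, map_sub, map_smul, hk, smul_eq_mul, mul_one, sub_self]
  have hc := cramer k p q z
  rw [D_ker l hk hlz hlp hlq, zero_smul, zero_add, ← hm] at hc
  set A := D k z q with hA
  set B := D k p z with hB
  set a := A % m with ha
  set b := B % m with hb
  have ha0 : 0 ≤ a := Int.emod_nonneg _ (by omega)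
  have hb0 : 0 ≤ b := Int.emod_nonneg _ (by omega)
  have ham : a < m := Int.emod_lt_of_pos _ hm0
  have hbm : b < m := Int.emod_lt_of_pos _ hm0
  set z' := z - (A / m) • p - (B / m) • q with hz'
  have hlz' : l z' = 0 := by
    rw [hz', map_sub, map_sub, map_smul, map_smul, hlz, hlp, hlq]
    simp
  have hmz' : m • z' = a • p + b • q := by
    have e1 : m * (A / m) + a = A := Int.mul_ediv_add_emod A m
    have e2 : m * (B / m) + b = B := Int.mul_ediv_add_emod B m
    rw [hz', smul_sub, smul_sub, hc, smul_smul, smul_smul]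
    nth_rewrite 1 [← e1]
    nth_rewrite 1 [← e2]
    rw [add_smul, add_smul]
    abel
  have hA' : D k z' q = a := by
    have e : m * D k z' q = D k (m • z') q := by
      simp only [D, Pi.smul_apply, smul_eq_mul]; ring
    have e2 : D k (a • p + b • q) q = a * m := by
      rw [hm]; simp only [D, Pi.add_apply, Pi.smul_apply, smul_eq_mul]; ring
    rw [hmz', e2, mul_comm a m] at e
    exact mul_left_cancel₀ (by omega) e
  have hB' : D k p z' = b := by
    have e : m * D k p z' = D k p (m • z') := by
      simp only [D, Pi.smul_apply, smul_eq_mul]; ring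
    have e2 : D k p (a • p + b • q) = b * m := by
      rw [hm]; simp only [D, Pi.add_apply, Pi.smul_apply, smul_eq_mul]; ring
    rw [hmz', e2, mul_comm b m] at e
    exact mul_left_cancel₀ (by omega) e
  have hnz : ¬ (a = 0 ∧ b = 0) := by
    rintro ⟨h1, h2⟩
    rw [h1, h2, zero_smul, zero_smul, add_zero] at hmz'
    have hz0 : z' = 0 := by
      rcases smul_eq_zero.1 hmz' with hh | hh
      · omega
      · exact hh
    apply hx
    refine ⟨l x, A / m, B / m, ?_⟩
    rw [hz'] at hz0
    have : z = (A / m) • p + (B / m) • q := by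
      have := sub_eq_zero.1 (by rw [← hz0]; abel : z - ((A / m) • p + (B / m) • q) = 0)
      exact this
    rw [add_assoc, ← this, hz]
    abel
  by_cases hab : a + b ≤ m
  · have key := hemp (u + z') m (m - a - b) a b hm0 (by omega) ha0 hb0
      (by rw [smul_add, hmz', hp, hq, smul_sub, smul_sub, sub_smul, sub_smul]; abel)
      (by rw [map_add, hu, hlz', add_zero])
    rcases key with h1 | h1 | h1
    · have hz0 : z' = 0 := by
        have := congrArg (fun t => t - u) h1
        simpa using this
      rw [hz0] at hA' hB'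
      apply hnz
      constructor
      · rw [← hA']; simp [D]
      · rw [← hB']; simp [D]
    · have hz0 : z' = p := by
        rw [hp, ← h1]; abel
      rw [hz0] at hA'
      omega
    · have hz0 : z' = q := by
        rw [hq, ← h1]; abel
      rw [hz0] at hB'
      omega
  · push Not at hab
    have key := hemp (u + (p + q - z')) m (a + b - m) (m - a) (m - b) hm0 (by omega) (by omega) (by omega)
      (by rw [smul_add, smul_sub, hmz', hp, hq]; simp only [smul_add, smul_sub, sub_smul, add_smul]; abel)
      (by rw [map_add, map_sub, map_add, hu, hlz', hlp, hlq]; ring)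
    have eA : D k (p + q - z') q = m - a := by
      rw [← hA', hm]
      simp only [D, Pi.add_apply, Pi.sub_apply]; ring
    have eB : D k p (p + q - z') = m - b := by
      rw [← hB', hm]
      simp only [D, Pi.add_apply, Pi.sub_apply]; ring
    rcases key with h1 | h1 | h1
    · have hz0 : p + q - z' = 0 := by
        have := congrArg (fun t => t - u) h1
        simpa using this
      rw [hz0] at eA
      have : D k 0 q = 0 := by simp [D]
      omega
    · have hz0 : p + q - z' = p := by
        have := congrArg (fun t => t - u) h1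
        rw [hp]
        simpa using this
      rw [hz0, D_self2] at eB
      omega
    · have hz0 : p + q - z' = q := by
        have := congrArg (fun t => t - u) h1
        rw [hq]
        simpa using this
      rw [hz0, D_self2] at eA
      omega

end Pool.Agent.H286R2
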