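import Pool.Agent.H286R2.Sum

/-!
Existence of a generic parameter.
-/

namespace Pool.Agent.H286R2

namespace Sys

/-- an integral functional from its values -/
def ofV (m : V3) : V3 →ₗ[ℤ] ℤ where
  toFun x := m 0 * x 0 + m 1 * x 1 + m 2 * x 2
  map_add' x y := by simp only [Pi.add_apply]; ring
  map_smul' c x := by simp only [Pi.smul_apply, smul_eq_mul, RingHom.id_apply]; ring

theorem ofV_surj (l : V3 →ₗ[ℤ] ℤ) : ∃ m, l = ofV m := by
  refine ⟨fun i => l (Pi.single i 1), ?_⟩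
  apply LinearMap.ext
  intro x
  have e : x = x 0 • (Pi.single 0 1 : V3) + x 1 • (Pi.single 1 1 : V3) + x 2 • (Pi.single 2 1 : V3) := by
    apply V3ext <;> simp
  nth_rewrite 1 [e]
  simp only [map_add, map_smul, smul_eq_mul]
  change _ = l (Pi.single 0 1) * x 0 + l (Pi.single 1 1) * x 1 + l (Pi.single 2 1) * x 2
  ring

theorem exists_gen (S : Sys) : ∃ κ, S.Gen κ := by
  set bad : V3 × V3 × V3 → ℝ := fun t =>
    -((S.c (toR (ofV t.1)) 0) ^ 2 * (S.ell 0 t.2.1 * S.ell 0 t.2.2)) /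
      ((S.c (toR (ofV t.1)) 1) ^ 2 * (S.ell 1 t.2.1 * S.ell 1 t.2.2)) with hbad
  have hc : (Set.range bad).Countable := Set.countable_range bad
  have hnc : ¬ (Set.Ioi (0 : ℝ)).Countable := by
    intro h
    have h1 := Cardinal.mk_Ioi_real 0
    have h2 := h.le_aleph0
    rw [h1] at h2
    exact absurd h2 (not_le.2 Cardinal.aleph0_lt_continuum)
  obtain ⟨κ, hκ, hκb⟩ : ∃ κ ∈ Set.Ioi (0 : ℝ), κ ∉ Set.range bad := by
    by_contra hno
    push Not at hno
    exact hnc (hc.mono hno)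
  refine ⟨κ, hκ, ?_⟩
  intro l hl e f he hf hq
  apply hκb
  obtain ⟨m, rfl⟩ := ofV_surj l
  refine ⟨(m, e, f), ?_⟩
  have h1 := co_ne (S := S) hl 1
  have h2 := S.nz 1 e he
  have h3 := S.nz 1 f hf
  rw [hbad]
  unfold q at hq
  change -((S.c (toR (ofV m)) 0) ^ 2 * (S.ell 0 e * S.ell 0 f)) /
      ((S.c (toR (ofV m)) 1) ^ 2 * (S.ell 1 e * S.ell 1 f)) = κ
  rw [div_eq_iff (mul_ne_zero (pow_ne_zero 2 h1) (mul_ne_zero h2 h3))]
  linarith

theorem not_int1 (S : Sys) : ¬ S.Int1 := by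
  obtain ⟨κ, hκ⟩ := S.exists_gen
  intro H
  exact main_sum hκ H

end Sys

end Pool.Agent.H286R2
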