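import Pool.Agent.H286R2.Alg
import Pool.Agent.H286R2.Kap

/-!
Assembling the system.
-/

namespace Pool.Agent.H286R2

open Module

theorem co_ofV (b : Basis (Fin 3) ℝ (Fin 3 → ℝ)) (m : V3) (i : Fin 3) :
    co (fun i => b i) (toR (Sys.ofV m)) i = m 0 * b i 0 + m 1 * b i 1 + m 2 * b i 2 := by
  unfold co
  rw [Fin.sum_univ_three]
  simp [Sys.ofV]

theorem el_dualbd {A : Matrix (Fin 3) (Fin 3) ℤ} (hA : Irreducible (A.charpoly.map (Int.castRingHom ℚ)))
    {b : Basis (Fin 3) ℝ (Fin 3 → ℝ)} {μ : Fin 3 → ℝ}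
    (heig : ∀ i, (A.map (fun a : ℤ => (a : ℝ))).mulVec (b i) = μ i • b i) :
    ∃ c : ℝ, 0 < c ∧ ∀ l : V3 →ₗ[ℤ] ℤ, l ≠ 0 →
      c ≤ |co (fun i => b i) (toR l) 0 * co (fun i => b i) (toR l) 1 * co (fun i => b i) (toR l) 2| := by
  have hK := K_ne hA heig
  have hDb : DR (b 0) (b 1) (b 2) ≠ 0 := left_ne_zero_of_mul hK
  have hVd : Vd μ ≠ 0 := right_ne_zero_of_mul hK
  refine ⟨|DR (b 0) (b 1) (b 2)| / |Vd μ|, div_pos (abs_pos.2 hDb) (abs_pos.2 hVd), ?_⟩
  intro l hl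
  obtain ⟨m, rfl⟩ := Sys.ofV_surj l
  have hm : m ≠ 0 := by
    rintro rfl
    apply hl
    apply LinearMap.ext
    intro x
    simp [Sys.ofV]
  have hAT : Irreducible (A.transpose.charpoly.map (Int.castRingHom ℚ)) := by
    rw [Matrix.charpoly_transpose]; exact hA
  have h1 := irr_det hAT hm
  -- eigenvalue relation for the coordinates
  have hco : ∀ (m : V3) (i : Fin 3), co (fun i => b i) (toR (Sys.ofV (A.transpose.mulVec m))) i =
      μ i * co (fun i => b i) (toR (Sys.ofV m)) i := by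
    intro m i
    rw [co_ofV, co_ofV]
    have e := heig i
    have e0 := congrFun e 0
    have e1 := congrFun e 1
    have e2 := congrFun e 2
    simp only [Matrix.mulVec, dotProduct, Fin.sum_univ_three, Matrix.map_apply, Pi.smul_apply,
      smul_eq_mul] at e0 e1 e2
    simp only [Matrix.mulVec, dotProduct, Fin.sum_univ_three, Matrix.transpose_apply]
    push_cast
    have : μ i * ((m 0 : ℝ) * b i 0 + m 1 * b i 1 + m 2 * b i 2) =
      m 0 * (μ i * b i 0) + m 1 * (μ i * b i 1) + m 2 * (μ i * b i 2) := by ring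
    rw [this, ← e0, ← e1, ← e2]
    ring
  set m' := A.transpose.mulVec m with hm'
  set m'' := A.transpose.mulVec m' with hm''
  have c1 : ∀ i, co (fun i => b i) (toR (Sys.ofV m')) i = μ i * co (fun i => b i) (toR (Sys.ofV m)) i :=
    hco m
  have c2 : ∀ i, co (fun i => b i) (toR (Sys.ofV m'')) i =
      μ i * (μ i * co (fun i => b i) (toR (Sys.ofV m)) i) := by
    intro i
    rw [hm'', hco, c1]
  have key : (D m m' m'' : ℝ) * DR (b 0) (b 1) (b 2) =
      Vd μ * (co (fun i => b i) (toR (Sys.ofV m)) 0 * co (fun i => b i) (toR (Sys.ofV m)) 1 *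
        co (fun i => b i) (toR (Sys.ofV m)) 2) := by
    have e : (D m m' m'' : ℝ) * DR (b 0) (b 1) (b 2) =
        DR (fun i => co (fun i => b i) (toR (Sys.ofV m)) i) (fun i => co (fun i => b i) (toR (Sys.ofV m')) i)
          (fun i => co (fun i => b i) (toR (Sys.ofV m'')) i) := by
      simp only [co_ofV]
      unfold DR D
      push_cast
      ring
    rw [e]
    simp only [c1, c2]
    unfold DR Vd
    ring
  have h2 : (1 : ℝ) ≤ |(D m m' m'' : ℝ)| := by
    have : (1 : ℤ) ≤ |D m m' m''| := Int.one_le_abs h1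
    exact_mod_cast this
  rw [div_le_iff₀ (abs_pos.2 hVd)]
  have h3 := congrArg abs key
  rw [abs_mul, abs_mul] at h3
  have h4 : |DR (b 0) (b 1) (b 2)| ≤ |(D m m' m'' : ℝ)| * |DR (b 0) (b 1) (b 2)| :=
    le_mul_of_one_le_left (abs_nonneg _) h2
  rw [h3] at h4
  linarith

theorem D_mulVec (P : Matrix (Fin 3) (Fin 3) ℤ) (u v w : V3) :
    D (P.mulVec u) (P.mulVec v) (P.mulVec w) = P.det * D u v w := by
  rw [Matrix.det_fin_three]
  simp only [D, Matrix.mulVec, dotProduct, Fin.sum_univ_three]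
  ring

/-- a unimodular matrix as an equivalence -/
noncomputable def eqv (P : Matrix (Fin 3) (Fin 3) ℤ) (h : P.det = 1) : V3 ≃ₗ[ℤ] V3 :=
  LinearEquiv.ofLinear P.mulVecLin P.adjugate.mulVecLin
    (by
      rw [← Matrix.mulVecLin_mul, Matrix.mul_adjugate, h, one_smul, Matrix.mulVecLin_one])
    (by
      rw [← Matrix.mulVecLin_mul, Matrix.adjugate_mul, h, one_smul, Matrix.mulVecLin_one])

theorem eqv_apply (P : Matrix (Fin 3) (Fin 3) ℤ) (h : P.det = 1) (x : V3) : eqv P h x = P.mulVec x := rfl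

def Gm (A : Matrix (Fin 3) (Fin 3) ℤ) (c : V3) : Matrix (Fin 3) (Fin 3) ℤ :=
  c 0 • (1 : Matrix (Fin 3) (Fin 3) ℤ) + c 1 • A + c 2 • (A * A)

theorem Gm_mulVec (A : Matrix (Fin 3) (Fin 3) ℤ) (c x : V3) : (Gm A c).mulVec x = G A c x := by
  unfold Gm G
  rw [Matrix.add_mulVec, Matrix.add_mulVec, Matrix.smul_mulVec, Matrix.smul_mulVec,
    Matrix.smul_mulVec, Matrix.one_mulVec, Matrix.mulVec_mulVec]

theorem Gm_comm (A : Matrix (Fin 3) (Fin 3) ℤ) (c x : V3) :
    A.mulVec ((Gm A c).mulVec x) = (Gm A c).mulVec (A.mulVec x) := by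
  rw [Matrix.mulVec_mulVec, Matrix.mulVec_mulVec]
  congr 1
  unfold Gm
  rw [mul_add, mul_add, add_mul, add_mul]
  simp only [Matrix.mul_smul, Matrix.smul_mul, mul_one, one_mul, mul_assoc]

/-- the group -/
def Gam (b : Basis (Fin 3) ℝ (Fin 3 → ℝ)) : Subgroup (V3 ≃ₗ[ℤ] V3) where
  carrier := {γ | (∀ u v w, D (γ u) (γ v) (γ w) = D u v w) ∧
    ∃ g : Fin 3 → ℝ, (∀ i, 0 < g i) ∧ ∀ i x, el b i (γ x) = g i * el b i x}
  mul_mem' := by
    rintro γ γ' ⟨h1, g, hg, h2⟩ ⟨h1', g', hg', h2'⟩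
    refine ⟨?_, fun i => g i * g' i, fun i => mul_pos (hg i) (hg' i), ?_⟩
    · intro u v w
      change D (γ (γ' u)) (γ (γ' v)) (γ (γ' w)) = _
      rw [h1, h1']
    · intro i x
      change el b i (γ (γ' x)) = _
      rw [h2, h2']; ring
  one_mem' := ⟨fun _ _ _ => rfl, fun _ => 1, fun _ => one_pos, fun i x => by rw [one_mul]; rfl⟩
  inv_mem' := by
    rintro γ ⟨h1, g, hg, h2⟩
    refine ⟨?_, fun i => (g i)⁻¹, fun i => inv_pos.2 (hg i), ?_⟩
    · intro u v w
      change D (γ.symm u) (γ.symm v) (γ.symm w) = _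
      rw [← h1, γ.apply_symm_apply, γ.apply_symm_apply, γ.apply_symm_apply]
    · intro i x
      change el b i (γ.symm x) = _
      have := h2 i (γ.symm x)
      rw [γ.apply_symm_apply] at this
      rw [this, ← mul_assoc, inv_mul_cancel₀ (hg i).ne', one_mul]

theorem orb_step {A : Matrix (Fin 3) (Fin 3) ℤ} {b : Basis (Fin 3) ℝ (Fin 3 → ℝ)} {μ : Fin 3 → ℝ}
    (heig : ∀ i, (A.map (fun a : ℤ => (a : ℝ))).mulVec (b i) = μ i • b i) {x y z : V3}
    (hx : ∀ i, 0 < el b i x) (hy : ∀ i, 0 < el b i y) {n : ℤ} (hn : n ≠ 0)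
    (nx : D x (A.mulVec x) (A.mulVec (A.mulVec x)) = n)
    (ny : D y (A.mulVec y) (A.mulVec (A.mulVec y)) = n) (hz : y = x + n • z) :
    ∃ γ ∈ Gam b, γ x = y := by
  set c : V3 := ![1 + D z (A.mulVec x) (A.mulVec (A.mulVec x)), D x z (A.mulVec (A.mulVec x)),
    D x (A.mulVec x) z] with hc
  have hy' : y = (Gm A c).mulVec x := by
    rw [Gm_mulVec, hz, ← nx, cramer]
    unfold G
    simp only [hc, Matrix.cons_val_zero, Matrix.cons_val_one, Matrix.cons_val_two, Matrix.head_cons,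
      Matrix.tail_cons]
    rw [add_smul, one_smul]
    abel
  have hdet : (Gm A c).det = 1 := by
    have h1 : D y (A.mulVec y) (A.mulVec (A.mulVec y)) = (Gm A c).det * n := by
      rw [hy', Gm_comm, Gm_comm, D_mulVec, nx]
    rw [ny] at h1
    have : (Gm A c).det * n = 1 * n := by rw [← h1, one_mul]
    exact mul_right_cancel₀ hn this
  refine ⟨eqv (Gm A c) hdet, ⟨?_, fun i => ev (μ i) c, ?_, ?_⟩, ?_⟩
  · intro u v w
    rw [eqv_apply, eqv_apply, eqv_apply, D_mulVec, hdet, one_mul]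
  · intro i
    have h1 := el_G heig i c x
    rw [← Gm_mulVec, ← hy'] at h1
    have h2 := hy i
    rw [h1] at h2
    exact (pos_iff_pos_of_mul_pos h2).2 (hx i)
  · intro i u
    rw [eqv_apply, Gm_mulVec, el_G heig]
  · rw [eqv_apply, ← hy']

theorem el_orb {A : Matrix (Fin 3) (Fin 3) ℤ} (hA : Irreducible (A.charpoly.map (Int.castRingHom ℚ)))
    {b : Basis (Fin 3) ℝ (Fin 3 → ℝ)} {μ : Fin 3 → ℝ}
    (heig : ∀ i, (A.map (fun a : ℤ => (a : ℝ))).mulVec (b i) = μ i • b i) (B : ℝ) :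
    ∃ F : Finset V3, ∀ x, (∀ i, 0 < el b i x) → el b 0 x * el b 1 x * el b 2 x ≤ B →
      ∃ γ ∈ Gam b, γ x ∈ F := by
  classical
  set nn : V3 → ℤ := fun x => D x (A.mulVec x) (A.mulVec (A.mulVec x)) with hnn
  set K := DR (b 0) (b 1) (b 2) * Vd μ with hK
  obtain ⟨N, hN⟩ := exists_nat_ge (|K| * |B|)
  set key : V3 → ℤ × V3 := fun x => (nn x, fun j => x j % nn x) with hkey
  set T : Finset (ℤ × V3) := Finset.Icc (-(N : ℤ)) N ×ˢ Finset.Icc (fun _ => 0) (fun _ => (N : ℤ)) with hT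
  set ρ : ℤ × V3 → V3 := fun k =>
    if h : ∃ x, (∀ i, 0 < el b i x) ∧ key x = k then h.choose else 0 with hρ
  refine ⟨T.image ρ, ?_⟩
  intro x hx hB
  have hx0 : x ≠ 0 := by
    rintro rfl
    have := hx 0
    simp at this
  have hn0 : nn x ≠ 0 := irr_det hA hx0
  have hnN : |nn x| ≤ N := by
    have h1 := el_norm heig x
    rw [← hK] at h1
    have h2 := congrArg abs h1
    rw [abs_mul, abs_of_pos (mul_pos (mul_pos (hx 0) (hx 1)) (hx 2))] at h2
    have h3 : |K| * (el b 0 x * el b 1 x * el b 2 x) ≤ |K| * |B| :=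
      mul_le_mul_of_nonneg_left (hB.trans (le_abs_self B)) (abs_nonneg _)
    have h4 : |(nn x : ℝ)| ≤ N := by
      change |(D x (A.mulVec x) (A.mulVec (A.mulVec x)) : ℝ)| ≤ N
      rw [h2]
      linarith
    exact_mod_cast h4
  have hkT : key x ∈ T := by
    rw [hT, Finset.mem_product, Finset.mem_Icc, Finset.mem_Icc]
    refine ⟨abs_le.1 hnN, fun j => Int.emod_nonneg _ hn0, fun j => ?_⟩
    have := Int.emod_lt_abs (x j) hn0
    change x j % nn x ≤ N
    omega
  have hex : ∃ x', (∀ i, 0 < el b i x') ∧ key x' = key x := ⟨x, hx, rfl⟩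
  have hρx : ρ (key x) = hex.choose := dif_pos hex
  obtain ⟨hy, hky⟩ := hex.choose_spec
  rw [← hρx] at hy hky
  set y := ρ (key x) with hyd
  have hky : (nn y, fun j => y j % nn y) = (nn x, fun j => x j % nn x) := hky
  rw [Prod.mk.injEq] at hky
  obtain ⟨k1, k2⟩ := hky
  have hz : y = x + nn x • (fun j => y j / nn x - x j / nn x) := by
    funext j
    have h1 := congrFun k2 j
    simp only [k1] at h1
    have h2 := Int.mul_ediv_add_emod (y j) (nn x)
    have h3 := Int.mul_ediv_add_emod (x j) (nn x)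
    simp only [Pi.add_apply, Pi.smul_apply, smul_eq_mul]
    linarith
  obtain ⟨γ, hγ, hγx⟩ := orb_step heig hx hy hn0 rfl k1 hz
  exact ⟨γ, hγ, by rw [hγx]; exact Finset.mem_image_of_mem ρ hkT⟩

/-- the system attached to a matrix with an eigenbasis -/
noncomputable def mkSys {A : Matrix (Fin 3) (Fin 3) ℤ}
    (hA : Irreducible (A.charpoly.map (Int.castRingHom ℚ)))
    {b : Basis (Fin 3) ℝ (Fin 3 → ℝ)} {μ : Fin 3 → ℝ}
    (heig : ∀ i, (A.map (fun a : ℤ => (a : ℝ))).mulVec (b i) = μ i • b i) : Sys where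
  ell := el b
  y := fun i => b i
  dual := el_dual b
  expand := el_expand b
  nz := el_nz hA heig
  fin := el_fin b
  ap := el_ap hA heig
  dualbd := el_dualbd hA heig
  Γ := Gam b
  ΓD := fun _ hγ => hγ.1
  Γell := fun _ hγ => hγ.2
  orb := el_orb hA heig

end Pool.Agent.H286R2
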