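import Pool.Agent.H286R2.Basic

/-!
Supporting functionals of a sail and the gift wrapping step.
-/

namespace Pool.Agent.H286R2

/-- coordinates of a functional in the basis dual to `y` -/
noncomputable def co (y : Fin 3 → (Fin 3 → ℝ)) (f : V3 →ₗ[ℤ] ℝ) (i : Fin 3) : ℝ :=
  ∑ j, f (Pi.single j 1) * y i j

theorem co_add (y : Fin 3 → (Fin 3 → ℝ)) (f g : V3 →ₗ[ℤ] ℝ) (i : Fin 3) :
    co y (f + g) i = co y f i + co y g i := by
  unfold co
  simp only [LinearMap.add_apply, add_mul, Finset.sum_add_distrib]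

theorem co_smul (y : Fin 3 → (Fin 3 → ℝ)) (s : ℝ) (f : V3 →ₗ[ℤ] ℝ) (i : Fin 3) :
    co y (s • f) i = s * co y f i := by
  unfold co
  simp only [LinearMap.smul_apply, smul_eq_mul, Finset.mul_sum, mul_assoc]

theorem co_neg (y : Fin 3 → (Fin 3 → ℝ)) (f : V3 →ₗ[ℤ] ℝ) (i : Fin 3) :
    co y (-f) i = - co y f i := by
  have := co_smul y (-1) f i
  simpa using this

theorem co_sub (y : Fin 3 → (Fin 3 → ℝ)) (f g : V3 →ₗ[ℤ] ℝ) (i : Fin 3) :
    co y (f - g) i = co y f i - co y g i := by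
  rw [sub_eq_add_neg, co_add, co_neg, sub_eq_add_neg]

/-- The data of the cone and the group. -/
structure Sys where
  ell : Fin 3 → (V3 →ₗ[ℤ] ℝ)
  y : Fin 3 → (Fin 3 → ℝ)
  dual : ∀ i j, co y (ell i) j = if i = j then 1 else 0
  expand : ∀ (f : V3 →ₗ[ℤ] ℝ) x, f x = ∑ i, co y f i * ell i x
  nz : ∀ i x, x ≠ 0 → ell i x ≠ 0
  fin : ∀ c : ℝ, {x : V3 | ∀ i, 0 < ell i x ∧ ell i x ≤ c}.Finite
  ap : ∀ i, ∀ δ : ℝ, 0 < δ → ∃ x, (∀ j, 0 < ell j x) ∧ ∀ j, j ≠ i → ell j x < δ
  dualbd : ∃ c : ℝ, 0 < c ∧ ∀ l : V3 →ₗ[ℤ] ℤ, l ≠ 0 →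
    c ≤ |co y (toR l) 0 * co y (toR l) 1 * co y (toR l) 2|
  Γ : Subgroup (V3 ≃ₗ[ℤ] V3)
  ΓD : ∀ γ ∈ Γ, ∀ u v w, D (γ u) (γ v) (γ w) = D u v w
  Γell : ∀ γ ∈ Γ, ∃ g : Fin 3 → ℝ, (∀ i, 0 < g i) ∧ ∀ i x, ell i (γ x) = g i * ell i x
  orb : ∀ B : ℝ, ∃ F : Finset V3, ∀ x, (∀ i, 0 < ell i x) →
    ell 0 x * ell 1 x * ell 2 x ≤ B → ∃ γ ∈ Γ, γ x ∈ F

namespace Sys

variable (S : Sys)

/-- lattice points in the open cone -/
def X (x : V3) : Prop := ∀ i, 0 < S.ell i x

/-- supporting functionals -/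
def Supp (f : V3 →ₗ[ℤ] ℝ) : Prop := ∀ x, S.X x → 1 ≤ f x

/-- abbreviation -/
noncomputable abbrev c (f : V3 →ₗ[ℤ] ℝ) (i : Fin 3) : ℝ := co S.y f i

variable {S}

theorem X_ne_zero {x : V3} (h : S.X x) : x ≠ 0 := by
  rintro rfl
  have := h 0
  simp at this

theorem supp_pos {f : V3 →ₗ[ℤ] ℝ} (hf : S.Supp f) (i : Fin 3) : 0 < S.c f i := by
  by_contra hle
  push Not at hle
  set M : ℝ := ∑ j, |S.c f j| with hM
  have hM0 : 0 ≤ M := Finset.sum_nonneg fun j _ => abs_nonneg _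
  obtain ⟨x, hx, hxd⟩ := S.ap i (1 / (M + 1)) (by positivity)
  have h1 := hf x hx
  have h2 := S.expand f x
  have h3 : f x ≤ M * (1 / (M + 1)) := by
    rw [h2, hM, Finset.sum_mul]
    apply Finset.sum_le_sum
    intro j _
    by_cases hj : j = i
    · subst hj
      have : S.c f j * S.ell j x ≤ 0 := mul_nonpos_of_nonpos_of_nonneg hle (hx j).le
      have : 0 ≤ |S.c f j| * (1 / (M + 1)) := by positivity
      linarith
    · calc S.c f j * S.ell j x ≤ |S.c f j| * S.ell j x :=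
            mul_le_mul_of_nonneg_right (le_abs_self _) (hx j).le
        _ ≤ |S.c f j| * (1 / (M + 1)) := mul_le_mul_of_nonneg_left (hxd j hj).le (abs_nonneg _)
  have h4 : M * (1 / (M + 1)) < 1 := by
    rw [mul_one_div, div_lt_one (by linarith)]
    linarith
  linarith

theorem fin_le {f : V3 →ₗ[ℤ] ℝ} (hf : ∀ i, 0 < S.c f i) (b : ℝ) :
    {x : V3 | S.X x ∧ f x ≤ b}.Finite := by
  apply (S.fin (∑ i, |b| / S.c f i)).subset
  rintro x ⟨hx, hb⟩ i
  refine ⟨hx i, ?_⟩
  have h1 : S.c f i * S.ell i x ≤ f x := by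
    rw [S.expand f x]
    exact Finset.single_le_sum (f := fun i => co S.y f i * S.ell i x)
      (fun j _ => (mul_pos (hf j) (hx j)).le) (Finset.mem_univ i)
  have h2 : S.ell i x ≤ |b| / S.c f i := by
    rw [le_div_iff₀ (hf i)]
    calc S.ell i x * S.c f i = S.c f i * S.ell i x := mul_comm _ _
      _ ≤ f x := h1
      _ ≤ b := hb
      _ ≤ |b| := le_abs_self b
  exact h2.trans (Finset.single_le_sum (f := fun i => |b| / S.c f i)
    (fun j _ => div_nonneg (abs_nonneg _) (hf j).le) (Finset.mem_univ i))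

theorem rotate {f g : V3 →ₗ[ℤ] ℝ} (hf : S.Supp f) (hg : ∃ i, S.c g i < 0) :
    ∃ s : ℝ, 0 ≤ s ∧ S.Supp (f + s • g) ∧ ∃ x, S.X x ∧ g x < 0 ∧ (f + s • g) x = 1 := by
  classical
  have fpos := supp_pos hf
  obtain ⟨i0, hi0⟩ := hg
  obtain ⟨i, hi, himin⟩ := Finset.exists_min_image (Finset.univ.filter fun i => S.c g i < 0)
    (fun i => S.c f i / (- S.c g i)) ⟨i0, by simpa using hi0⟩
  have hi' : S.c g i < 0 := by simpa using hi
  set s1 := S.c f i / (- S.c g i) with hs1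
  have hs1pos : 0 < s1 := div_pos (fpos i) (by linarith)
  have hc0 : S.c (f + s1 • g) i = 0 := by
    change co S.y (f + s1 • g) i = 0
    rw [co_add, co_smul]
    have : s1 * (- S.c g i) = S.c f i := div_mul_cancel₀ _ (by linarith)
    linarith
  have hratio : ∀ j, S.c g j < 0 → s1 * (- S.c g j) ≤ S.c f j := by
    intro j hj
    have := himin j (by simpa using hj)
    rwa [le_div_iff₀ (by linarith)] at this
  have hcn : ∀ j, 0 ≤ S.c (f + s1 • g) j := by
    intro j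
    change 0 ≤ co S.y (f + s1 • g) j
    rw [co_add, co_smul]
    by_cases hj : S.c g j < 0
    · have := hratio j hj
      linarith
    · push Not at hj
      have := fpos j
      have : 0 ≤ s1 * S.c g j := mul_nonneg hs1pos.le hj
      linarith
  set M := ∑ j, S.c (f + s1 • g) j with hM
  have hM0 : 0 ≤ M := Finset.sum_nonneg fun j _ => hcn j
  obtain ⟨x2, hx2, hx2d⟩ := S.ap i (1 / (M + 1)) (by positivity)
  have h3 : (f + s1 • g) x2 ≤ M * (1 / (M + 1)) := by
    rw [S.expand (f + s1 • g) x2, hM, Finset.sum_mul]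
    apply Finset.sum_le_sum
    intro j _
    by_cases hj : j = i
    · subst hj
      rw [show co S.y (f + s1 • g) j = 0 from hc0, show S.c (f + s1 • g) j = 0 from hc0]
      simp
    · exact mul_le_mul_of_nonneg_left (hx2d j hj).le (hcn j)
  have h4 : M * (1 / (M + 1)) < 1 := by
    rw [mul_one_div, div_lt_one (by linarith)]
    linarith
  have h5 : f x2 + s1 * g x2 < 1 := by
    have : (f + s1 • g) x2 = f x2 + s1 * g x2 := rfl
    linarith
  have h6 := hf x2 hx2
  have hg2 : g x2 < 0 := by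
    by_contra hge
    push Not at hge
    have := mul_nonneg hs1pos.le hge
    linarith
  set s2 := (f x2 - 1) / (- g x2) with hs2
  have hs2n : 0 ≤ s2 := div_nonneg (by linarith) (by linarith)
  have hs2lt : s2 < s1 := by
    rw [hs2, div_lt_iff₀ (by linarith)]
    linarith
  have hs2eq : s2 * (- g x2) = f x2 - 1 := div_mul_cancel₀ _ (by linarith)
  have hpos2 : ∀ j, 0 < S.c (f + s2 • g) j := by
    intro j
    change 0 < co S.y (f + s2 • g) j
    rw [co_add, co_smul]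
    by_cases hj : S.c g j < 0
    · have := hratio j hj
      have : s2 * (- S.c g j) < s1 * (- S.c g j) := mul_lt_mul_of_pos_right hs2lt (by linarith)
      linarith
    · push Not at hj
      have := fpos j
      have : 0 ≤ s2 * S.c g j := mul_nonneg hs2n hj
      linarith
  have Tfin := fin_le hpos2 1
  obtain ⟨x3, hx3, hx3min⟩ := Finset.exists_min_image (Tfin.toFinset.filter fun x => g x < 0)
    (fun x => (f x - 1) / (- g x)) ⟨x2, by
      rw [Finset.mem_filter, Set.Finite.mem_toFinset]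
      refine ⟨⟨hx2, ?_⟩, hg2⟩
      change f x2 + s2 * g x2 ≤ 1
      linarith⟩
  rw [Finset.mem_filter, Set.Finite.mem_toFinset] at hx3
  obtain ⟨⟨hx3X, hx3le⟩, hg3⟩ := hx3
  set s := (f x3 - 1) / (- g x3) with hs
  have hf3 := hf x3 hx3X
  have hsn : 0 ≤ s := div_nonneg (by linarith) (by linarith)
  have hseq : s * (- g x3) = f x3 - 1 := div_mul_cancel₀ _ (by linarith)
  have hss2 : s ≤ s2 := by
    rw [hs, div_le_iff₀ (by linarith)]
    have : f x3 + s2 * g x3 ≤ 1 := hx3le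
    linarith
  refine ⟨s, hsn, ?_, x3, hx3X, hg3, ?_⟩
  · intro x hx
    change 1 ≤ f x + s * g x
    by_cases hgx : 0 ≤ g x
    · have := hf x hx
      have := mul_nonneg hsn hgx
      linarith
    · push Not at hgx
      by_cases hT : f x + s2 * g x ≤ 1
      · have := hx3min x (by
          rw [Finset.mem_filter, Set.Finite.mem_toFinset]
          exact ⟨⟨hx, hT⟩, hgx⟩)
        rw [le_div_iff₀ (by linarith)] at this
        linarith
      · push Not at hT
        have : s2 * g x ≤ s * g x := mul_le_mul_of_nonpos_right hss2 hgx.le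
        linarith
  · change f x3 + s * g x3 = 1
    linarith

end Sys

end Pool.Agent.H286R2
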