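import Mathlib

/-!
Noether formula for complete unimodular fans in the plane, with the count of the
sector containing a generic direction.
-/

namespace Pool.Agent.H286R2

/-- determinant of two integer vectors -/
def dt (a b : ℤ × ℤ) : ℤ := a.1 * b.2 - a.2 * b.1

/-- determinant of an integer vector and a real vector -/
noncomputable def dtR (a : ℤ × ℤ) (y : ℝ × ℝ) : ℝ := a.1 * y.2 - a.2 * y.1

structure Fan {ι : Type*} (R : Finset ι) (u : ι → ℤ × ℤ) (s : ι → ι) : Prop where
  ne : R.Nonempty
  inj : Set.InjOn u R
  mem : ∀ a ∈ R, s a ∈ R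
  one : ∀ a ∈ R, dt (u a) (u (s a)) = 1
  emp : ∀ a ∈ R, ∀ c ∈ R, ¬ (0 < dt (u a) (u c) ∧ 0 < dt (u c) (u (s a)))

open Classical in
noncomputable def mrk {ι : Type*} (u : ι → ℤ × ℤ) (s : ι → ι) (y : ℝ × ℝ) (a : ι) : ℤ :=
  if 0 < dtR (u a) y ∧ dtR (u (s a)) y < 0 then 1 else 0

theorem dt_self (a : ℤ × ℤ) : dt a a = 0 := by unfold dt; ring

theorem dt_swap (a b : ℤ × ℤ) : dt a b = - dt b a := by unfold dt; ring

theorem ext_of_dt {a b c : ℤ × ℤ} (h1 : dt a c = 1) (h2 : dt b c = 1) (h0 : dt a b = 0) : a = b := by
  unfold dt at *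
  obtain ⟨a1, a2⟩ := a
  obtain ⟨b1, b2⟩ := b
  obtain ⟨c1, c2⟩ := c
  simp only at *
  have e1 : a1 = b1 := by
    linear_combination (b1 : ℤ) * h1 - a1 * h2 - c1 * h0
  have e2 : a2 = b2 := by
    linear_combination (b2 : ℤ) * h1 - a2 * h2 - c2 * h0
  rw [e1, e2]

set_option linter.unusedSectionVars false

namespace Fan

variable {ι : Type*} [DecidableEq ι] {R : Finset ι} {u : ι → ℤ × ℤ} {s : ι → ι}

theorem sinj (h : Fan R u s) {a b : ι} (ha : a ∈ R) (hb : b ∈ R) (hs : s a = s b) : a = b := by
  have h1 := h.one a ha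
  have h2 := h.one b hb
  have e1 := h.emp a ha b hb
  have e2 := h.emp b hb a ha
  rw [← hs] at h2 e2
  have e3 : dt (u a) (u b) = 0 := by
    have := dt_swap (u a) (u b)
    by_contra hne
    rcases lt_or_gt_of_ne hne with hlt | hgt
    · exact e2 ⟨by omega, by omega⟩
    · exact e1 ⟨by omega, by omega⟩
  exact h.inj ha hb (ext_of_dt h1 h2 e3)

theorem pred (h : Fan R u s) {m : ι} (hm : m ∈ R) : ∃ p ∈ R, s p = m := by
  have : Set.SurjOn s R R := by
    apply Finset.surjOn_of_injOn_of_card_le s (fun a ha => h.mem a ha)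
    · intro a ha b hb hab
      exact h.sinj ha hb hab
    · exact le_rfl
  obtain ⟨p, hp, hpm⟩ := this hm
  exact ⟨p, hp, hpm⟩

theorem prim (h : Fan R u s) {c : ι} (hc : c ∈ R) {k : ℤ} {w : ℤ × ℤ} (hk : u c = (k * w.1, k * w.2)) :
    k = 1 ∨ k = -1 := by
  have h1 := h.one c hc
  rw [hk] at h1
  unfold dt at h1
  simp only at h1
  have : k * (w.1 * (u (s c)).2 - w.2 * (u (s c)).1) = 1 := by linear_combination h1
  exact Int.eq_one_or_neg_one_of_mul_eq_one this

/-- contraction of a ray `m` with `u p + u q = u m` -/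
theorem contract (h : Fan R u s) {p m q : ι} (hp : p ∈ R) (hm : m ∈ R) (hpm : s p = m) (hmq : s m = q)
    (hsum : dt (u p) (u q) = 1) : Fan (R.erase m) u (Function.update s p q) := by
  have hq : q ∈ R := hmq ▸ h.mem m hm
  have h1 : dt (u p) (u m) = 1 := hpm ▸ h.one p hp
  have h2 : dt (u m) (u q) = 1 := hmq ▸ h.one m hm
  have hpm' : p ≠ m := by
    rintro rfl
    rw [dt_self] at h1; omega
  have hqm' : q ≠ m := by
    rintro rfl
    rw [dt_self] at h2; omega
  have hpq' : p ≠ q := by
    rintro rfl
    rw [dt_self] at hsum; omega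
  refine ⟨⟨p, Finset.mem_erase.2 ⟨hpm', hp⟩⟩, ?_, ?_, ?_, ?_⟩
  · intro a ha b hb hab
    exact h.inj (Finset.mem_of_mem_erase ha) (Finset.mem_of_mem_erase hb) hab
  · intro a ha
    have haR := Finset.mem_of_mem_erase ha
    by_cases hap : a = p
    · subst hap
      rw [Function.update_self]
      exact Finset.mem_erase.2 ⟨hqm', hq⟩
    · rw [Function.update_of_ne hap]
      refine Finset.mem_erase.2 ⟨?_, h.mem a haR⟩
      intro hsa
      exact hap (h.sinj haR hp (hsa.trans hpm.symm))
  · intro a ha
    have haR := Finset.mem_of_mem_erase ha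
    by_cases hap : a = p
    · subst hap
      rw [Function.update_self]
      exact hsum
    · rw [Function.update_of_ne hap]
      exact h.one a haR
  · intro a ha c hc
    have haR := Finset.mem_of_mem_erase ha
    have hcR := Finset.mem_of_mem_erase hc
    have hcm := Finset.ne_of_mem_erase hc
    by_cases hap : a = p
    · subst hap
      rw [Function.update_self]
      rintro ⟨hc1, hc2⟩
      have e1 := h.emp a haR c hcR
      rw [hpm] at e1
      have e2 := h.emp m hm c hcR
      rw [hmq] at e2
      have e3 : dt (u m) (u c) = 0 := by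
        have := dt_swap (u m) (u c)
        by_contra hne
        rcases lt_or_gt_of_ne hne with hlt | hgt
        · exact e1 ⟨hc1, by omega⟩
        · exact e2 ⟨hgt, hc2⟩
      -- u c = k u m
      have e4 : u c = (dt (u a) (u c) * (u m).1, dt (u a) (u c) * (u m).2) := by
        unfold dt at *
        ext
        · simp only
          linear_combination (-(u c).1) * h1 - (u a).1 * e3
        · simp only
          linear_combination (-(u c).2) * h1 - (u a).2 * e3
      rcases h.prim hcR e4 with hk | hk
      · rw [hk] at e4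
        apply hcm
        apply h.inj hcR hm
        rw [e4]
        ext <;> simp
      · omega
    · rw [Function.update_of_ne hap]
      exact h.emp a haR c hcR

theorem contract_sum (h : Fan R u s) {p m q : ι} (hp : p ∈ R) (hm : m ∈ R) (hpm : s p = m)
    (hmq : s m = q) (hsum : dt (u p) (u q) = 1) :
    ∑ a ∈ R, dt (u a) (u (s (s a))) =
      ∑ a ∈ R.erase m, dt (u a) (u (Function.update s p q (Function.update s p q a))) + 3 := by
  have hq : q ∈ R := hmq ▸ h.mem m hm
  have h1 : dt (u p) (u m) = 1 := hpm ▸ h.one p hp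
  have h2 : dt (u m) (u q) = 1 := hmq ▸ h.one m hm
  have hpm' : p ≠ m := by
    rintro rfl
    rw [dt_self] at h1; omega
  have hqm' : q ≠ m := by
    rintro rfl
    rw [dt_self] at h2; omega
  have hpq' : p ≠ q := by
    rintro rfl
    rw [dt_self] at hsum; omega
  obtain ⟨k, hk, hkp⟩ := h.pred hp
  have hkp' : k ≠ p := by
    rintro rfl
    exact hpm' (hkp.symm.trans hpm)
  have hkm' : k ≠ m := by
    rintro rfl
    exact hpq' (hkp.symm.trans hmq)
  -- u m = u p + u q
  have hm1 : (u m).1 = (u p).1 + (u q).1 := by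
    unfold dt at *
    linear_combination (u p).1 * h2 - (u m).1 * hsum + (u q).1 * h1
  have hm2 : (u m).2 = (u p).2 + (u q).2 := by
    unfold dt at *
    linear_combination (u p).2 * h2 - (u m).2 * hsum + (u q).2 * h1
  rw [← Finset.add_sum_erase R _ hm]
  have key : ∀ a ∈ R.erase m, dt (u a) (u (s (s a))) =
      dt (u a) (u (Function.update s p q (Function.update s p q a))) +
        ((if a = k then 1 else 0) + (if a = p then 2 - dt (u m) (u (s q)) else 0)) := by
    intro a ha
    have haR := Finset.mem_of_mem_erase ha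
    have ham := Finset.ne_of_mem_erase ha
    by_cases hap : a = p
    · subst hap
      rw [Function.update_self, Function.update_of_ne hpq'.symm, if_neg hkp'.symm, if_pos rfl, hpm, hmq, hsum]
      have := h.one q hq
      unfold dt at *
      rw [hm1, hm2]
      linear_combination this
    · rw [Function.update_of_ne hap, if_neg hap]
      by_cases hak : a = k
      · subst hak
        rw [hkp, Function.update_self, if_pos rfl, hpm]
        have := h.one a haR
        rw [hkp] at this
        unfold dt at *
        rw [hm1, hm2]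
        linear_combination this
      · rw [if_neg hak]
        have : s a ≠ p := fun hh => hak (h.sinj haR hk (hh.trans hkp.symm))
        rw [Function.update_of_ne this]
        ring
  rw [Finset.sum_congr rfl key, Finset.sum_add_distrib, Finset.sum_add_distrib, Finset.sum_ite_eq',
    Finset.sum_ite_eq', if_pos (Finset.mem_erase.2 ⟨hkm', hk⟩), if_pos (Finset.mem_erase.2 ⟨hpm', hp⟩), hmq]
  ring

theorem contract_mrk (h : Fan R u s) {p m q : ι} (hp : p ∈ R) (hm : m ∈ R) (hpm : s p = m)
    (hmq : s m = q) (hsum : dt (u p) (u q) = 1) (y : ℝ × ℝ) (hy : ∀ a ∈ R, dtR (u a) y ≠ 0) :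
    ∑ a ∈ R, mrk u s y a = ∑ a ∈ R.erase m, mrk u (Function.update s p q) y a := by
  have hq : q ∈ R := hmq ▸ h.mem m hm
  have h1 : dt (u p) (u m) = 1 := hpm ▸ h.one p hp
  have h2 : dt (u m) (u q) = 1 := hmq ▸ h.one m hm
  have hpm' : p ≠ m := by
    rintro rfl
    rw [dt_self] at h1; omega
  have hm1 : (u m).1 = (u p).1 + (u q).1 := by
    unfold dt at *
    linear_combination (u p).1 * h2 - (u m).1 * hsum + (u q).1 * h1
  have hm2 : (u m).2 = (u p).2 + (u q).2 := by
    unfold dt at *
    linear_combination (u p).2 * h2 - (u m).2 * hsum + (u q).2 * h1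
  have hM : dtR (u m) y = dtR (u p) y + dtR (u q) y := by
    unfold dtR
    rw [hm1, hm2]
    push_cast
    ring
  rw [← Finset.add_sum_erase R _ hm]
  have key : ∀ a ∈ R.erase m, mrk u (Function.update s p q) y a =
      mrk u s y a + (if a = p then mrk u s y m else 0) := by
    intro a ha
    have haR := Finset.mem_of_mem_erase ha
    by_cases hap : a = p
    · subst hap
      unfold mrk
      rw [Function.update_self, if_pos rfl, hpm, hmq, hM]
      have y1 := hy a haR
      have y2 := hy m hm
      have y3 := hy q hq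
      rw [hM] at y2
      set P := dtR (u a) y
      set Q := dtR (u q) y
      rcases lt_or_gt_of_ne y1 with hP | hP <;> rcases lt_or_gt_of_ne y3 with hQ | hQ <;>
        rcases lt_or_gt_of_ne y2 with hS | hS <;>
        simp [hP, hQ, hS, not_lt.2 hP.le, not_lt.2 hQ.le, not_lt.2 hS.le] <;> linarith
    · unfold mrk
      rw [Function.update_of_ne hap, if_neg hap, add_zero]
  rw [Finset.sum_congr rfl key, Finset.sum_add_distrib, Finset.sum_ite_eq',
    if_pos (Finset.mem_erase.2 ⟨hpm', hp⟩)]
  ring

/-- the two conclusions, for a fan -/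
def Good (R : Finset ι) (u : ι → ℤ × ℤ) (s : ι → ι) (y : ℝ × ℝ) : Prop :=
  ∑ a ∈ R, dt (u a) (u (s (s a))) = 3 * (R.card : ℤ) - 12 ∧ ∑ a ∈ R, mrk u s y a = 1

theorem good_of_contract (h : Fan R u s) {p m q : ι} (hp : p ∈ R) (hm : m ∈ R) (hpm : s p = m)
    (hmq : s m = q) (hsum : dt (u p) (u q) = 1) (y : ℝ × ℝ) (hy : ∀ a ∈ R, dtR (u a) y ≠ 0)
    (hg : Good (R.erase m) u (Function.update s p q) y) : Good R u s y := by
  obtain ⟨g1, g2⟩ := hg
  have hcard : (R.erase m).card + 1 = R.card := Finset.card_erase_add_one hm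
  refine ⟨?_, ?_⟩
  · rw [h.contract_sum hp hm hpm hmq hsum, g1, ← hcard]
    push_cast
    ring
  · rw [h.contract_mrk hp hm hpm hmq hsum y hy, g2]

/-- two consecutive coordinates -/
theorem exists_step (h : Fan R u s) (y : ℝ × ℝ) (hy : ∀ a ∈ R, dtR (u a) y ≠ 0) :
    Good R u s y ∨ ∃ p ∈ R, ∃ m ∈ R, s p = m ∧ dt (u p) (u (s m)) = 1 := by
  obtain ⟨a, ha, hmax⟩ := Finset.exists_max_image R (fun c => (u c).1 ^ 2 + (u c).2 ^ 2) h.ne
  obtain ⟨p, hp, hpa⟩ := h.pred ha
  set q := s a with hqdef
  have hq : q ∈ R := h.mem a ha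
  have h1 : dt (u p) (u a) = 1 := hpa ▸ h.one p hp
  have h2 : dt (u a) (u q) = 1 := h.one a ha
  set β := dt (u p) (u q) with hβ
  have e1 : (u p).1 + (u q).1 = β * (u a).1 := by
    rw [hβ]; unfold dt at *
    linear_combination (-(u q).1) * h1 - (u p).1 * h2
  have e2 : (u p).2 + (u q).2 = β * (u a).2 := by
    rw [hβ]; unfold dt at *
    linear_combination (-(u q).2) * h1 - (u p).2 * h2
  have np := hmax p hp
  have nq := hmax q hq
  have hpa' : p ≠ a := by
    rintro rfl
    rw [dt_self] at h1; omega
  have hqa' : q ≠ a := by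
    intro hh
    rw [hh, dt_self] at h2; omega
  have hpos : 0 < (u a).1 ^ 2 + (u a).2 ^ 2 := by
    have : u a ≠ (0, 0) := by
      intro h0
      rw [h0] at h2
      unfold dt at h2
      simp at h2
    by_contra hle
    have hz1 : (u a).1 = 0 := by nlinarith [sq_nonneg (u a).1, sq_nonneg (u a).2]
    have hz2 : (u a).2 = 0 := by nlinarith [sq_nonneg (u a).1, sq_nonneg (u a).2]
    exact this (Prod.ext hz1 hz2)
  have hβle : β ≤ 1 ∧ -1 ≤ β := by
    have hpar : ((u p).1 - (u q).1) ^ 2 + ((u p).2 - (u q).2) ^ 2 + β ^ 2 * ((u a).1 ^ 2 + (u a).2 ^ 2)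
        ≤ 4 * ((u a).1 ^ 2 + (u a).2 ^ 2) := by
      have : β ^ 2 * ((u a).1 ^ 2 + (u a).2 ^ 2) = ((u p).1 + (u q).1) ^ 2 + ((u p).2 + (u q).2) ^ 2 := by
        rw [e1, e2]; ring
      rw [this]
      nlinarith
    have hβ4 : β ^ 2 < 4 := by
      by_contra hge
      push Not at hge
      have hz1 : (u p).1 - (u q).1 = 0 := by
        nlinarith [sq_nonneg ((u p).1 - (u q).1), sq_nonneg ((u p).2 - (u q).2),
          mul_le_mul_of_nonneg_right hge hpos.le]
      have hz2 : (u p).2 - (u q).2 = 0 := by
        nlinarith [sq_nonneg ((u p).1 - (u q).1), sq_nonneg ((u p).2 - (u q).2),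
          mul_le_mul_of_nonneg_right hge hpos.le]
      have : β = 0 := by
        rw [hβ]; unfold dt
        have z1 : (u p).1 = (u q).1 := by omega
        have z2 : (u p).2 = (u q).2 := by omega
        rw [z1, z2]; ring
      rw [this] at hge
      omega
    constructor <;> nlinarith
  by_cases hβ1 : β = 1
  · exact Or.inr ⟨p, hp, a, ha, hpa, hβ1⟩
  -- coordinates relative to (u p, u a)
  have hβ01 : β = 0 ∨ β = -1 := by omega
  have hqX : dt (u q) (u a) = -1 := by rw [dt_swap, h2]
  have hpq' : p ≠ q := by
    intro hh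
    have : dt (u q) (u a) = 1 := hh ▸ h1
    omega
  have hcoord1 : ∀ c, (u c).1 = dt (u c) (u a) * (u p).1 + dt (u p) (u c) * (u a).1 := by
    intro c
    unfold dt at *
    linear_combination (-(u c).1) * h1
  have hcoord2 : ∀ c, (u c).2 = dt (u c) (u a) * (u p).2 + dt (u p) (u c) * (u a).2 := by
    intro c
    unfold dt at *
    linear_combination (-(u c).2) * h1
  have hdt : ∀ c d, dt (u c) (u d) = dt (u c) (u a) * dt (u p) (u d) - dt (u p) (u c) * dt (u d) (u a) := by
    intro c d
    unfold dt at *
    linear_combination (-((u c).1 * (u d).2 - (u c).2 * (u d).1)) * h1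
  let X : ι → ℤ := fun c => dt (u c) (u a)
  let L : ι → ℤ := fun c => dt (u c) (u p)
  have hLY : ∀ c, dt (u p) (u c) = - L c := fun c => dt_swap _ _
  have hXd : ∀ c, dt (u c) (u a) = X c := fun c => rfl
  have hdt' : ∀ c d, dt (u c) (u d) = - X c * L d + L c * X d := by
    intro c d
    rw [hdt, hLY, hLY, hXd, hXd]
    ring
  have hcoord1' : ∀ c, (u c).1 = X c * (u p).1 - L c * (u a).1 := by
    intro c
    rw [hcoord1, hLY, hXd]
    ring
  have hcoord2' : ∀ c, (u c).2 = X c * (u p).2 - L c * (u a).2 := by
    intro c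
    rw [hcoord2, hLY, hXd]
    ring
  have hLp : L p = 0 := dt_self _
  have hXp : X p = 1 := h1
  have hLa : L a = -1 := by
    change dt (u a) (u p) = -1
    rw [dt_swap, h1]
  have hXa : X a = 0 := dt_self _
  have hXq : X q = -1 := hqX
  have hLq : L q = -β := by
    change dt (u q) (u p) = -β
    rw [dt_swap]
  have hext : ∀ c ∈ R, ∀ d ∈ R, X c = X d → L c = L d → c = d := by
    intro c hc d hd hx hl
    apply h.inj hc hd
    ext
    · rw [hcoord1' c, hcoord1' d, hx, hl]
    · rw [hcoord2' c, hcoord2' d, hx, hl]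
  have hprim : ∀ c ∈ R, ∀ k w1 w2 : ℤ, X c = k * w1 → L c = k * w2 → k = 1 ∨ k = -1 := by
    intro c hc k w1 w2 hx hl
    have e := h.one c hc
    rw [hdt', hx, hl] at e
    have : k * (-w1 * L (s c) + w2 * X (s c)) = 1 := by linear_combination e
    exact Int.eq_one_or_neg_one_of_mul_eq_one this
  -- elements outside
  have hout : ∀ c ∈ R, c ≠ p → c ≠ a → c ≠ q → 0 < L c := by
    intro c hc hcp hca hcq
    have em1 := h.emp p hp c hc
    rw [hpa, hLY, hXd] at em1
    have em2 := h.emp a ha c hc
    rw [← hqdef, dt_swap (u a) (u c), hXd, hdt' c q, hLq, hXq] at em2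
    by_contra hle
    push Not at hle
    rcases lt_or_eq_of_le hle with hlt | heq
    · -- L c < 0
      have hX0 : X c = 0 := by
        by_contra hX
        rcases lt_or_gt_of_ne hX with hX | hX
        · apply em2
          refine ⟨by omega, ?_⟩
          rcases hβ01 with hb | hb <;> rw [hb] <;> nlinarith
        · exact em1 ⟨by omega, hX⟩
      have := hprim c hc (-L c) 0 (-1) (by rw [hX0]; ring) (by ring)
      have hL1 : L c = -1 := by omega
      exact hca (hext c hc a ha (by rw [hX0, hXa]) (by rw [hL1, hLa]))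
    · -- L c = 0
      have := hprim c hc (X c) 1 0 (by ring) (by rw [heq]; ring)
      rcases this with hx | hx
      · exact hcp (hext c hc p hp (by rw [hx, hXp]) (by rw [heq, hLp]))
      · rcases hβ01 with hb | hb
        · exact hcq (hext c hc q hq (by rw [hx, hXq]) (by rw [heq, hLq, hb]; ring))
        · apply em2
          rw [hx, heq, hb]
          norm_num
  -- real coordinates of y
  have hyA := hy a ha
  have hyP := hy p hp
  have hyQ := hy q hq
  have hycoord : ∀ c, dtR (u c) y = X c * dtR (u p) y - L c * dtR (u a) y := by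
    intro c
    unfold dtR
    rw [hcoord1' c, hcoord2' c]
    push_cast
    ring
  let W := ((R.erase p).erase a).erase q
  have hWmem : ∀ c, c ∈ W ↔ c ∈ R ∧ c ≠ p ∧ c ≠ a ∧ c ≠ q := by
    intro c
    simp only [W, Finset.mem_erase]
    tauto
  rcases W.eq_empty_or_nonempty with hW | hW
  · -- R = {p, a, q}
    have hall : ∀ c ∈ R, c = p ∨ c = a ∨ c = q := by
      intro c hc
      by_contra hcon
      push Not at hcon
      have : c ∈ W := (hWmem c).2 ⟨hc, hcon.1, hcon.2.1, hcon.2.2⟩
      rw [hW] at this
      simp at this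
    have hsq1 := h.one q hq
    have hsq : s q = p := by
      rcases hall (s q) (h.mem q hq) with hh | hh | hh
      · exact hh
      · rw [hh] at hsq1; omega
      · rw [hh, dt_self] at hsq1; omega
    rw [hsq] at hsq1
    have hb : β = -1 := by
      have : L q = 1 := hsq1
      omega
    have hR : R = {p, a, q} := by
      ext c
      simp only [Finset.mem_insert, Finset.mem_singleton]
      constructor
      · exact hall c
      · rintro (rfl | rfl | rfl) <;> assumption
    left
    have hs1 : ∀ f : ι → ℤ, ∑ c ∈ R, f c = f p + (f a + f q) := by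
      intro f
      rw [hR, Finset.sum_insert, Finset.sum_insert, Finset.sum_singleton]
      · simpa using hqa'.symm
      · simp only [Finset.mem_insert, Finset.mem_singleton, not_or]
        exact ⟨hpa', hpq'⟩
    refine ⟨?_, ?_⟩
    · have hc3 : (R.card : ℤ) = 3 := by
        rw [hR, Finset.card_insert_of_notMem, Finset.card_insert_of_notMem, Finset.card_singleton]
        · norm_num
        · simpa using hqa'.symm
        · simp only [Finset.mem_insert, Finset.mem_singleton, not_or]
          exact ⟨hpa', hpq'⟩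
      rw [hs1, hc3, hpa, ← hqdef, hsq, hpa, ← hβ, hb]
      have : dt (u a) (u p) = -1 := hLa
      rw [this, hqX]
      norm_num
    · rw [hs1]
      unfold mrk
      rw [hpa, ← hqdef, hsq]
      have hQ : dtR (u q) y = - dtR (u p) y - dtR (u a) y := by
        rw [hycoord q, hXq, hLq, hb]
        push_cast
        ring
      rw [hQ] at hyQ ⊢
      set P := dtR (u p) y
      set A := dtR (u a) y
      rcases lt_or_gt_of_ne hyP with hP | hP <;> rcases lt_or_gt_of_ne hyA with hA | hA <;>
        rcases lt_or_gt_of_ne hyQ with hS | hS <;>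
        simp only [hP, hA, hS, not_lt.2 hP.le, not_lt.2 hA.le, not_lt.2 hS.le, if_true, if_false,
          and_true, and_false, false_and, true_and] <;> first | rfl | (exfalso; linarith)
  · obtain ⟨m, hmW, hmmax⟩ := Finset.exists_max_image W (fun c => toLex (L c, X c)) hW
    obtain ⟨hm, hmp, hma, hmq⟩ := (hWmem m).1 hmW
    have hmax1 : ∀ c ∈ W, L c ≤ L m := by
      intro c hc
      have := hmmax c hc
      rw [Prod.Lex.le_iff] at this
      rcases this with h' | h'
      · exact h'.le
      · exact h'.1.le
    have hmax2 : ∀ c ∈ W, L c = L m → X c ≤ X m := by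
      intro c hc hcl
      have := hmmax c hc
      rw [Prod.Lex.le_iff] at this
      rcases this with h' | h'
      · simp only [ofLex_toLex] at h'
        omega
      · exact h'.2
    have hLm : 0 < L m := hout m hm hmp hma hmq
    obtain ⟨k, hk, hkm⟩ := h.pred hm
    set n := s m with hndef
    have hn : n ∈ R := h.mem m hm
    have hmn : dt (u m) (u n) = 1 := h.one m hm
    have hkm1 : dt (u k) (u m) = 1 := hkm ▸ h.one k hk
    have hna : n ≠ a := fun hh => hmp (h.sinj hm hp (hh.trans hpa.symm))
    have hnq : n ≠ q := fun hh => hma (h.sinj hm ha hh)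
    have hkp : k ≠ p := by
      rintro rfl
      exact hma (hkm.symm.trans hpa)
    have hka : k ≠ a := by
      rintro rfl
      exact hmq hkm.symm
    have hLn : L n < L m := by
      by_cases hnp : n = p
      · rw [hnp, hLp]; exact hLm
      · have hnW : n ∈ W := (hWmem n).2 ⟨hn, hnp, hna, hnq⟩
        have l1 := hmax1 n hnW
        rcases lt_or_eq_of_le l1 with l2 | l2
        · exact l2
        · have l3 := hmax2 n hnW l2
          rw [hdt', l2] at hmn
          nlinarith
    have hLn0 : 0 ≤ L n := by
      by_cases hnp : n = p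
      · rw [hnp, hLp]
      · exact (hout n hn hnp hna hnq).le
    have hLk : L k ≤ L m ∧ 0 ≤ L k := by
      by_cases hkq : k = q
      · rw [hkq, hLq]
        constructor <;> rcases hβ01 with hb | hb <;> omega
      · have hkW : k ∈ W := (hWmem k).2 ⟨hk, hkp, hka, hkq⟩
        exact ⟨hmax1 k hkW, (hout k hk hkp hka hkq).le⟩
    have hsumL : L k + L n = dt (u k) (u n) * L m := by
      change dt (u k) (u p) + dt (u n) (u p) = dt (u k) (u n) * dt (u m) (u p)
      have f1 : (u k).1 + (u n).1 = dt (u k) (u n) * (u m).1 := by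
        unfold dt at *
        linear_combination (-(u n).1) * hkm1 - (u k).1 * hmn
      have f2 : (u k).2 + (u n).2 = dt (u k) (u n) * (u m).2 := by
        unfold dt at *
        linear_combination (-(u n).2) * hkm1 - (u k).2 * hmn
      unfold dt at *
      linear_combination (u p).2 * f1 - (u p).1 * f2
    have hbm : dt (u k) (u n) = 0 ∨ dt (u k) (u n) = 1 := by
      have hlt : dt (u k) (u n) * L m < 2 * L m := by rw [← hsumL]; linarith [hLk.1]
      have hge : 0 ≤ dt (u k) (u n) * L m := by rw [← hsumL]; linarith [hLk.2]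
      have : dt (u k) (u n) < 2 := lt_of_mul_lt_mul_right hlt hLm.le
      have : 0 ≤ dt (u k) (u n) := nonneg_of_mul_nonneg_left hge hLm
      omega
    rcases hbm with hbm | hbm
    · -- base case: four rays
      left
      rw [hbm, zero_mul] at hsumL
      have hLk0 : L k = 0 := by linarith [hLk.2]
      have hLn0' : L n = 0 := by linarith [hLk.2]
      have hkq : k = q := by
        by_contra hkq
        have := hout k hk hkp hka hkq
        omega
      have hnp : n = p := by
        by_contra hnp
        have := hout n hn hnp hna hnq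
        omega
      have hb : β = 0 := by
        rw [hkq, hLq] at hLk0
        omega
      have hLm1 : L m = 1 := by
        change dt (u m) (u p) = 1
        rw [← hnp]; exact hmn
      have hsq : s q = m := by rw [← hkq]; exact hkm
      have hWm : ∀ c ∈ W, c = m := by
        intro c hc
        by_contra hcm
        obtain ⟨hcR, hcp, hca, hcq⟩ := (hWmem c).1 hc
        have c1 := hout c hcR hcp hca hcq
        have c2 := hmax1 c hc
        have c3 : L c = L m := by omega
        have c4 := hmax2 c hc c3
        have c5 : X c ≠ X m := fun hh => hcm (hext c hcR m hm hh c3)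
        have em := h.emp q hq c hcR
        rw [hsq, hdt' q c, hdt' c m, hXq, hLq, hb, c3, hLm1] at em
        apply em
        constructor
        · norm_num
        · have : X c < X m := lt_of_le_of_ne c4 c5
          linarith
      have hR : R = {p, a, q, m} := by
        ext c
        simp only [Finset.mem_insert, Finset.mem_singleton]
        constructor
        · intro hc
          by_contra hcon
          push Not at hcon
          exact hcon.2.2.2 (hWm c ((hWmem c).2 ⟨hc, hcon.1, hcon.2.1, hcon.2.2.1⟩))
        · rintro (rfl | rfl | rfl | rfl) <;> assumption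
      have hs1 : ∀ f : ι → ℤ, ∑ c ∈ R, f c = f p + (f a + (f q + f m)) := by
        intro f
        rw [hR, Finset.sum_insert, Finset.sum_insert, Finset.sum_insert, Finset.sum_singleton]
        · simpa using fun hh : q = m => hmq hh.symm
        · simp only [Finset.mem_insert, Finset.mem_singleton, not_or]
          exact ⟨hqa'.symm, fun hh => hma hh.symm⟩
        · simp only [Finset.mem_insert, Finset.mem_singleton, not_or]
          exact ⟨hpa', hpq', fun hh => hmp hh.symm⟩
      have hsm : s m = p := hnp
      refine ⟨?_, ?_⟩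
      · have hc4 : (R.card : ℤ) = 4 := by
          rw [hR, Finset.card_insert_of_notMem, Finset.card_insert_of_notMem,
            Finset.card_insert_of_notMem, Finset.card_singleton]
          · norm_num
          · simpa using fun hh : q = m => hmq hh.symm
          · simp only [Finset.mem_insert, Finset.mem_singleton, not_or]
            exact ⟨hqa'.symm, fun hh => hma hh.symm⟩
          · simp only [Finset.mem_insert, Finset.mem_singleton, not_or]
            exact ⟨hpa', hpq', fun hh => hmp hh.symm⟩
        rw [hs1, hc4, hpa, ← hqdef, hsq, hsm, hpa, ← hβ, hb, hdt' a m, hdt' q p, hdt' m a, hXa, hLa, hXq,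
          hLq, hb, hLp, hXp, hLm1]
        ring
      · rw [hs1]
        unfold mrk
        rw [hpa, ← hqdef, hsq, hsm]
        have hyM := hy m hm
        have hQ : dtR (u q) y = - dtR (u p) y := by
          rw [hycoord q, hXq, hLq, hb]
          push_cast
          ring
        rw [hQ]
        rw [hQ] at hyQ
        set P := dtR (u p) y
        set A := dtR (u a) y
        set M := dtR (u m) y
        rcases lt_or_gt_of_ne hyP with hP | hP <;> rcases lt_or_gt_of_ne hyA with hA | hA <;>
          rcases lt_or_gt_of_ne hyM with hM | hM <;>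
          rcases lt_or_gt_of_ne hyQ with hS | hS <;>
          simp only [hP, hA, hM, hS, not_lt.2 hP.le, not_lt.2 hA.le, not_lt.2 hM.le, not_lt.2 hS.le,
            if_true, if_false, and_true, and_false, false_and, true_and] <;>
            first | rfl | (exfalso; linarith)
    · exact Or.inr ⟨k, hk, m, hm, hkm, hbm⟩

theorem good_all : ∀ (n : ℕ) (R : Finset ι) (u : ι → ℤ × ℤ) (s : ι → ι), Fan R u s → R.card = n →
    ∀ y : ℝ × ℝ, (∀ a ∈ R, dtR (u a) y ≠ 0) → Good R u s y := by
  intro n
  induction n with
  | zero =>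
    intro R u s h hc
    exact absurd (Finset.card_eq_zero.1 hc) h.ne.ne_empty
  | succ n ih =>
    intro R u s h hc y hy
    rcases h.exists_step y hy with hg | ⟨p, hp, m, hm, hpm, hsum⟩
    · exact hg
    · apply h.good_of_contract hp hm hpm rfl hsum y hy
      apply ih
      · exact h.contract hp hm hpm rfl hsum
      · rw [Finset.card_erase_of_mem hm, hc]
        rfl
      · intro a ha
        exact hy a (Finset.mem_of_mem_erase ha)

/-- Noether's formula and the sector count for a complete unimodular fan. -/
theorem noether (h : Fan R u s) (y : ℝ × ℝ) (hy : ∀ a ∈ R, dtR (u a) y ≠ 0) :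
    ∑ a ∈ R, dt (u a) (u (s (s a))) = 3 * (R.card : ℤ) - 12 ∧ ∑ a ∈ R, mrk u s y a = 1 :=
  good_all R.card R u s h rfl y hy

end Fan

end Pool.Agent.H286R2
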