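import Pool.Agent.H286R2.Adj
import Pool.Agent.H286R2.Noether

/-!
Darts (oriented edges) of the Delaunay triangulation of the sail: local identities.
-/

namespace Pool.Agent.H286R2

namespace Sys

variable {S : Sys}

variable (S) in
def IsDart (κ : ℝ) (v a : V3) : Prop := ∃ l τ b, S.IsCell κ l τ v a b

open Classical in
variable (S) in
/-- the third vertex of the cell on the left of a dart -/
noncomputable def lt (κ : ℝ) (v a : V3) : V3 :=
  if h : ∃ b, ∃ l τ, S.IsCell κ l τ v a b then h.choose else 0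

theorem lt_eq {κ : ℝ} {l : V3 →ₗ[ℤ] ℤ} {τ : V3 →ₗ[ℤ] ℝ} {v a b : V3} (h : S.IsCell κ l τ v a b) :
    S.lt κ v a = b := by
  have hex : ∃ b, ∃ l τ, S.IsCell κ l τ v a b := ⟨b, l, τ, h⟩
  unfold lt
  rw [dif_pos hex]
  obtain ⟨l', τ', h'⟩ := hex.choose_spec
  exact (uniq h h').1

theorem lt_spec {κ : ℝ} {v a : V3} (h : S.IsDart κ v a) : ∃ l τ, S.IsCell κ l τ v a (S.lt κ v a) := by
  obtain ⟨l, τ, b, hc⟩ := h
  exact ⟨l, τ, by rw [lt_eq hc]; exact hc⟩

theorem dart_symm {κ : ℝ} (hκ : S.Gen κ) (H : S.Int1) {v a : V3} (h : S.IsDart κ v a) : S.IsDart κ a v := by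
  obtain ⟨l, τ, b, hc⟩ := h
  exact adj hκ H hc

theorem dart_rot {κ : ℝ} {v a : V3} (h : S.IsDart κ v a) : S.IsDart κ a (S.lt κ v a) := by
  obtain ⟨l, τ, hc⟩ := lt_spec h
  exact ⟨l, τ, v, hc.rot⟩

theorem lt_rot {κ : ℝ} {v a : V3} (h : S.IsDart κ v a) : S.lt κ a (S.lt κ v a) = v := by
  obtain ⟨l, τ, hc⟩ := lt_spec h
  exact lt_eq hc.rot

theorem lt_rot' {κ : ℝ} {v a : V3} (h : S.IsDart κ v a) : S.lt κ (S.lt κ v a) v = a := by
  obtain ⟨l, τ, hc⟩ := lt_spec h
  exact lt_eq hc.rot.rot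

theorem lt_det {κ : ℝ} {v a : V3} (h : S.IsDart κ v a) : D v a (S.lt κ v a) = 1 := by
  obtain ⟨l, τ, hc⟩ := lt_spec h
  exact hc.det

theorem co_expand {v a b : V3} (hD : D v a b = 1) (f : V3 →ₗ[ℤ] ℝ) (i : Fin 3) :
    S.c f i = S.c (toR (Dl a b)) i * f v + S.c (toR (Dl b v)) i * f a + S.c (toR (Dl v a)) i * f b := by
  have e : f = f v • toR (Dl a b) + f a • toR (Dl b v) + f b • toR (Dl v a) := by
    apply LinearMap.ext
    intro x
    have := cramerR f v a b x
    rw [hD] at this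
    change f x = f v * (D a b x : ℝ) + f a * (D b v x : ℝ) + f b * (D v a x : ℝ)
    have e1 : D a b x = D x a b := by unfold D; ring
    have e2 : D b v x = D v x b := by unfold D; ring
    rw [e1, e2]
    simp only [Int.cast_one, one_mul] at this
    rw [this]
    ring
  have e2 := congrArg (fun f => co S.y f i) e
  simp only [co_add, co_smul] at e2
  change co S.y f i = _
  rw [e2]
  ring

theorem nbr_fin (κ : ℝ) (v : V3) : {a | S.IsDart κ v a}.Finite := by
  obtain ⟨c, hc, hbd⟩ := S.dualbd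
  by_cases hv : S.X v
  swap
  · apply Set.Finite.subset Set.finite_empty
    rintro a ⟨l, τ, b, h⟩
    exact absurd h.Xu hv
  set N := S.ell 0 v * S.ell 1 v * S.ell 2 v with hN
  have hN0 : 0 < N := mul_pos (mul_pos (hv 0) (hv 1)) (hv 2)
  apply (S.fin ((S.ell 0 v + S.ell 1 v + S.ell 2 v) / (c * N))).subset
  rintro a ⟨l, τ, b, h⟩ i
  refine ⟨h.Xv i, ?_⟩
  have hl : l ≠ 0 := ne_of_one h.lu
  have hp := supp_pos h.supp
  have hb := hbd l hl
  rw [abs_of_pos (mul_pos (mul_pos (hp 0) (hp 1)) (hp 2))] at hb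
  have key : ∀ x, S.X x → l x = 1 → ∀ j, S.c (toR l) j * S.ell j x ≤ 1 := by
    intro x hx hlx j
    have h1 := S.expand (toR l) x
    rw [toR_apply, hlx, Int.cast_one] at h1
    rw [h1]
    exact Finset.single_le_sum (f := fun i => co S.y (toR l) i * S.ell i x)
      (fun j _ => (mul_pos (hp j) (hx j)).le) (Finset.mem_univ j)
  have kv := key v hv h.lu
  have ka := key a h.Xv h.lv i
  -- c N ≤ p_i ell_i v
  have hcN : c * N ≤ S.c (toR l) i * S.ell i v := by
    have e : c * N ≤ (S.c (toR l) 0 * S.ell 0 v) * (S.c (toR l) 1 * S.ell 1 v) * (S.c (toR l) 2 * S.ell 2 v) := by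
      calc c * N ≤ (S.c (toR l) 0 * S.c (toR l) 1 * S.c (toR l) 2) * N :=
            mul_le_mul_of_nonneg_right hb hN0.le
        _ = _ := by rw [hN]; ring
    have q0 := mul_pos (hp 0) (hv 0)
    have q1 := mul_pos (hp 1) (hv 1)
    have q2 := mul_pos (hp 2) (hv 2)
    have k0 := kv 0
    have k1 := kv 1
    have k2 := kv 2
    refine e.trans ?_
    fin_cases i
    · change _ ≤ S.c (toR l) 0 * S.ell 0 v
      set A := S.c (toR l) 0 * S.ell 0 v
      set B := S.c (toR l) 1 * S.ell 1 v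
      set C := S.c (toR l) 2 * S.ell 2 v
      have : B * C ≤ 1 := mul_le_one₀ k1 q2.le k2
      nlinarith
    · change _ ≤ S.c (toR l) 1 * S.ell 1 v
      set A := S.c (toR l) 0 * S.ell 0 v
      set B := S.c (toR l) 1 * S.ell 1 v
      set C := S.c (toR l) 2 * S.ell 2 v
      have : A * C ≤ 1 := mul_le_one₀ k0 q2.le k2
      nlinarith
    · change _ ≤ S.c (toR l) 2 * S.ell 2 v
      set A := S.c (toR l) 0 * S.ell 0 v
      set B := S.c (toR l) 1 * S.ell 1 v
      set C := S.c (toR l) 2 * S.ell 2 v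
      have : A * B ≤ 1 := mul_le_one₀ k0 q1.le k1
      nlinarith
  have hle : S.ell i v ≤ S.ell 0 v + S.ell 1 v + S.ell 2 v := by
    have := hv 0
    have := hv 1
    have := hv 2
    fin_cases i
    · change S.ell 0 v ≤ _; linarith
    · change S.ell 1 v ≤ _; linarith
    · change S.ell 2 v ≤ _; linarith
  have hcN0 : 0 < c * N := mul_pos hc hN0
  rw [le_div_iff₀ hcN0]
  calc S.ell i a * (c * N) ≤ S.ell i a * (S.c (toR l) i * S.ell i v) :=
        mul_le_mul_of_nonneg_left hcN (h.Xv i).le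
    _ = (S.c (toR l) i * S.ell i a) * S.ell i v := by ring
    _ ≤ 1 * S.ell i v := mul_le_mul_of_nonneg_right ka (hv i).le
    _ ≤ _ := by rw [one_mul]; exact hle

/-- vertices of darts have bounded norm -/
theorem norm_bd : ∃ B : ℝ, ∀ κ v a, S.IsDart κ v a → S.ell 0 v * S.ell 1 v * S.ell 2 v ≤ B := by
  obtain ⟨c, hc, hbd⟩ := S.dualbd
  refine ⟨1 / c, ?_⟩
  rintro κ v a ⟨l, τ, b, h⟩
  have hv := h.Xu
  set N := S.ell 0 v * S.ell 1 v * S.ell 2 v with hN
  have hN0 : 0 < N := mul_pos (mul_pos (hv 0) (hv 1)) (hv 2)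
  have hl : l ≠ 0 := ne_of_one h.lu
  have hp := supp_pos h.supp
  have hb := hbd l hl
  rw [abs_of_pos (mul_pos (mul_pos (hp 0) (hp 1)) (hp 2))] at hb
  have key : ∀ j, S.c (toR l) j * S.ell j v ≤ 1 := by
    intro j
    have h1 := S.expand (toR l) v
    rw [toR_apply, h.lu, Int.cast_one] at h1
    rw [h1]
    exact Finset.single_le_sum (f := fun i => co S.y (toR l) i * S.ell i v)
      (fun j _ => (mul_pos (hp j) (hv j)).le) (Finset.mem_univ j)
  rw [le_div_iff₀ hc]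
  have q0 := mul_pos (hp 0) (hv 0)
  have q1 := mul_pos (hp 1) (hv 1)
  have q2 := mul_pos (hp 2) (hv 2)
  calc N * c = c * N := mul_comm _ _
    _ ≤ (S.c (toR l) 0 * S.c (toR l) 1 * S.c (toR l) 2) * N := mul_le_mul_of_nonneg_right hb hN0.le
    _ = (S.c (toR l) 0 * S.ell 0 v) * (S.c (toR l) 1 * S.ell 1 v) * (S.c (toR l) 2 * S.ell 2 v) := by
        rw [hN]; ring
    _ ≤ 1 := mul_le_one₀ (mul_le_one₀ (key 0) q1.le (key 1)) q2.le (key 2)

/-! local quantities -/

variable (S) in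
noncomputable def bt (κ : ℝ) (v a : V3) : ℤ := D v (S.lt κ a v) (S.lt κ v a)

variable (S) in
/-- `y_2`-coordinate of the functional `D v a ·` -/
noncomputable def sg (v a : V3) : ℝ := S.c (toR (Dl v a)) 2

theorem sg_ne {v a b : V3} (h : D v a b ≠ 0) : S.sg v a ≠ 0 := by
  apply co_ne
  intro h0
  apply h
  have := congrArg (fun f : V3 →ₗ[ℤ] ℤ => f b) h0
  simpa using this

theorem sg_swap (v a : V3) : S.sg a v = - S.sg v a := by
  unfold sg
  have : toR (Dl a v) = - toR (Dl v a) := by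
    apply LinearMap.ext
    intro x
    change (D a v x : ℝ) = - (D v a x : ℝ)
    rw [D_swap]
    push_cast
    ring
  change co S.y (toR (Dl a v)) 2 = _
  rw [this, co_neg]

open Classical in
variable (S) in
noncomputable def inw (v a : V3) : ℤ := if 0 < S.sg v a then 1 else 0

open Classical in
variable (S) in
noncomputable def mark (κ : ℝ) (v a : V3) : ℤ := if 0 < S.sg v a ∧ 0 < S.sg (S.lt κ v a) v then 1 else 0

theorem inw_add {κ : ℝ} {v a : V3} (h : S.IsDart κ v a) : S.inw v a + S.inw a v = 1 := by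
  obtain ⟨l, τ, b, hc⟩ := h
  have hne : S.sg v a ≠ 0 := sg_ne (b := b) (by rw [hc.det]; omega)
  unfold inw
  rw [sg_swap v a]
  rcases lt_or_gt_of_ne hne with h | h
  · rw [if_neg (by linarith), if_pos (by linarith)]
    rfl
  · rw [if_pos h, if_neg (by linarith)]
    rfl

/-- signs in a triangle -/
theorem tri_sum {κ : ℝ} {v a : V3} (h : S.IsDart κ v a) :
    (S.inw v a + S.inw a (S.lt κ v a) + S.inw (S.lt κ v a) v) -
      (S.mark κ v a + S.mark κ a (S.lt κ v a) + S.mark κ (S.lt κ v a) v) = 1 := by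
  have hr1 := lt_rot h
  have hr2 := lt_rot' h
  obtain ⟨l, τ, hc⟩ := lt_spec h
  unfold mark
  rw [hr1, hr2]
  set b := S.lt κ v a with hb
  have e := co_expand (S := S) hc.det (S.ell 0) 2
  have hd : S.c (S.ell 0) 2 = 0 := by
    change co S.y (S.ell 0) 2 = 0
    rw [S.dual]; simp
  rw [hd] at e
  have n1 : S.sg v a ≠ 0 := sg_ne (b := b) (by rw [hc.det]; omega)
  have n2 : S.sg a b ≠ 0 := sg_ne (b := v) (by rw [← D_rot, hc.det]; omega)
  have n3 : S.sg b v ≠ 0 := sg_ne (b := a) (by rw [← D_rot', hc.det]; omega)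
  have p1 := hc.Xu 0
  have p2 := hc.Xv 0
  have p3 := hc.Xw 0
  unfold inw
  change 0 = S.sg a b * _ + S.sg b v * _ + S.sg v a * _ at e
  set r := S.sg v a
  set p := S.sg a b
  set q := S.sg b v
  rcases lt_or_gt_of_ne n1 with hR | hR <;> rcases lt_or_gt_of_ne n2 with hP | hP <;>
    rcases lt_or_gt_of_ne n3 with hQ | hQ <;>
    simp only [hR, hP, hQ, not_lt.2 hR.le, not_lt.2 hP.le, not_lt.2 hQ.le, if_true, if_false,
      and_true, and_false, and_self]
  · exfalso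
    have := mul_neg_of_neg_of_pos hR p3
    have := mul_neg_of_neg_of_pos hP p1
    have := mul_neg_of_neg_of_pos hQ p2
    linarith
  all_goals try norm_num
  exfalso
  have := mul_pos hR p3
  have := mul_pos hP p1
  have := mul_pos hQ p2
  linarith

/-- the bend inequality -/
theorem bend {κ : ℝ} {l l' : V3 →ₗ[ℤ] ℤ} {τ τ' : V3 →ₗ[ℤ] ℝ} {v a b c : V3}
    (h : S.IsCell κ l τ v a b) (h' : S.IsCell κ l' τ' a v c) :
    2 ≤ S.bt κ v a + S.bt κ a v ∧ (S.bt κ v a + S.bt κ a v = 2 → l' = l) := by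
  have hb := lt_eq h
  have hc := lt_eq h'
  unfold bt
  rw [hb, hc]
  have hcr := cramer v a b c
  rw [h.det, one_smul] at hcr
  have hd : D v a c = -1 := by rw [D_swap, h'.det]
  rw [hd] at hcr
  have e1 : D c a b = D a b c := D_rot c a b
  have hl : l c = D a b c + D v c b - 1 := by
    have := congrArg l hcr
    simp only [map_add, map_smul, smul_eq_mul, h.lu, h.lv, h.lw, mul_one] at this
    rw [this, e1]; ring
  have g : 1 ≤ l c := by
    have := h.supp c h'.Xw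
    rw [toR_apply] at this
    exact_mod_cast this
  refine ⟨by omega, ?_⟩
  intro h2
  apply eq_of_three h'.det
  · rw [h'.lu, h.lv]
  · rw [h'.lv, h.lu]
  · rw [h'.lw]; omega

/-- coordinates modulo `v` -/
def pr (v a0 b0 x : V3) : ℤ × ℤ := (D v x b0, D v a0 x)

theorem dt_pr {v a0 b0 : V3} (h : D v a0 b0 = 1) (x z : V3) : dt (pr v a0 b0 x) (pr v a0 b0 z) = D v x z := by
  have : dt (pr v a0 b0 x) (pr v a0 b0 z) = D v x z * D v a0 b0 := by
    unfold dt pr D
    ring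
  rw [this, h, mul_one]

theorem dtR_pr {v a0 b0 : V3} (h : D v a0 b0 = 1) (x : V3) :
    dtR (pr v a0 b0 x) (S.sg b0 v, S.sg v a0) = S.sg v x := by
  have e : toR (Dl v x) = (D v x b0 : ℝ) • toR (Dl v a0) - (D v a0 x : ℝ) • toR (Dl b0 v) := by
    apply LinearMap.ext
    intro z
    change (D v x z : ℝ) = (D v x b0 : ℝ) * (D v a0 z : ℝ) - (D v a0 x : ℝ) * (D b0 v z : ℝ)
    have : D v x z * D v a0 b0 = D v x b0 * D v a0 z - D v a0 x * D b0 v z := by
      unfold D; ring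
    rw [h, mul_one] at this
    exact_mod_cast this
  unfold dtR pr sg
  change _ = co S.y (toR (Dl v x)) 2
  rw [e, co_sub, co_smul, co_smul]

/-- a set of neighbours closed under rotation is a fan -/
theorem fan_of {κ : ℝ} {v a0 b0 : V3} (h0 : D v a0 b0 = 1) {R : Finset V3} (hne : R.Nonempty)
    (hR : ∀ a ∈ R, S.IsDart κ v a) (hcl : ∀ a ∈ R, S.lt κ v a ∈ R) :
    Fan R (pr v a0 b0) (S.lt κ v) := by
  refine ⟨hne, ?_, hcl, ?_, ?_⟩
  · intro a ha a' ha' haa
    have ha := hR a ha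
    have ha' := hR a' ha'
    unfold pr at haa
    rw [Prod.mk.injEq] at haa
    obtain ⟨l, τ, b, hc⟩ := ha
    obtain ⟨l', τ', b', hc'⟩ := ha'
    have c1 := cramer v a0 b0 a
    have c2 := cramer v a0 b0 a'
    rw [h0, one_smul] at c1 c2
    rw [← haa.1, ← haa.2] at c2
    set A := D v a b0 • a0 + D v a0 a • b0 with hA
    rw [add_assoc, ← hA] at c1 c2
    obtain ⟨n, hn⟩ : ∃ n, n = D a' a0 b0 - D a a0 b0 := ⟨_, rfl⟩
    have e1 : a' = a + n • v := by
      calc a' = D a' a0 b0 • v + A := c2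
        _ = (D a a0 b0 • v + A) + n • v := by rw [hn, sub_smul]; abel
        _ = a + n • v := by rw [← c1]
    clear hn
    have g1 : 1 ≤ l a' := by
      have := hc.supp a' hc'.Xv
      rw [toR_apply] at this
      exact_mod_cast this
    have g2 : 1 ≤ l' a := by
      have := hc'.supp a hc.Xv
      rw [toR_apply] at this
      exact_mod_cast this
    have g3 : l a' = 1 + n := by
      rw [e1, map_add, map_smul, hc.lu, hc.lv]; simp
    have g4 : (1 : ℤ) = l' a + n := by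
      have := congrArg l' e1
      rw [map_add, map_smul, hc'.lu, hc'.lv] at this
      simpa using this
    have hn : n = 0 := by omega
    rw [e1, hn, zero_smul, add_zero]
  · intro a ha
    rw [dt_pr h0]
    exact lt_det (hR a ha)
  · intro a ha c hc
    rw [dt_pr h0, dt_pr h0]
    obtain ⟨l, τ, hcell⟩ := lt_spec (hR a ha)
    obtain ⟨l', τ', d, hcell'⟩ := hR c hc
    exact sector hcell hcell'

theorem local_sums {κ : ℝ} {v : V3} {R : Finset V3} (hne : R.Nonempty)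
    (hR : ∀ a ∈ R, S.IsDart κ v a) (hcl : ∀ a ∈ R, S.lt κ v a ∈ R) :
    ∑ a ∈ R, D v a (S.lt κ v (S.lt κ v a)) = 3 * (R.card : ℤ) - 12 ∧ ∑ a ∈ R, S.mark κ v a = 1 := by
  classical
  obtain ⟨a0, ha0⟩ := hne
  set b0 := S.lt κ v a0 with hb0
  have h0 : D v a0 b0 = 1 := lt_det (hR a0 ha0)
  have hfan := fan_of (S := S) (κ := κ) h0 ⟨a0, ha0⟩ hR hcl
  have hy : ∀ a ∈ R, dtR (pr v a0 b0 a) (S.sg b0 v, S.sg v a0) ≠ 0 := by
    intro a ha
    rw [dtR_pr h0]
    exact sg_ne (b := S.lt κ v a) (by rw [lt_det (hR a ha)]; omega)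
  obtain ⟨h1, h2⟩ := hfan.noether (S.sg b0 v, S.sg v a0) hy
  refine ⟨?_, ?_⟩
  · rw [← h1]
    apply Finset.sum_congr rfl
    intro a _
    rw [dt_pr h0]
  · rw [← h2]
    apply Finset.sum_congr rfl
    intro a ha
    unfold mark mrk
    rw [dtR_pr h0, dtR_pr h0, sg_swap v (S.lt κ v a)]
    congr 1
    rw [eq_iff_iff]
    constructor
    · rintro ⟨h3, h4⟩
      exact ⟨h3, by linarith⟩
    · rintro ⟨h3, h4⟩
      exact ⟨h3, by linarith⟩

/-- not all bends vanish -/
theorem exists_bend {κ : ℝ} (hκ : S.Gen κ) (H : S.Int1) : ¬ ∀ v a, S.IsDart κ v a →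
    S.bt κ v a + S.bt κ a v = 2 := by
  classical
  intro hall
  obtain ⟨l, τ0, u0, v0, w0, hc0⟩ := exists_cell hκ H
  have hTfin : {v | ∃ τ a b, S.IsCell κ l τ v a b}.Finite := by
    apply (fin_le (S := S) (supp_pos hc0.supp) 1).subset
    rintro x ⟨τ, a, b, h⟩
    refine ⟨h.Xu, ?_⟩
    rw [toR_apply, h.lu]; simp
  obtain ⟨v, hv, hvmax⟩ := Finset.exists_max_image hTfin.toFinset (fun x => S.ell 2 x)
    ⟨u0, by rw [Set.Finite.mem_toFinset]; exact ⟨τ0, v0, w0, hc0⟩⟩
  rw [Set.Finite.mem_toFinset] at hv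
  obtain ⟨τ1, a1, b1, hc1⟩ := hv
  have hRfin : {a | ∃ τ b, S.IsCell κ l τ v a b}.Finite := by
    apply (nbr_fin (S := S) κ v).subset
    rintro a ⟨τ, b, h⟩
    exact ⟨l, τ, b, h⟩
  set R := hRfin.toFinset with hRdef
  have hRm : ∀ a, a ∈ R ↔ ∃ τ b, S.IsCell κ l τ v a b := by
    intro a
    rw [hRdef, Set.Finite.mem_toFinset]
    rfl
  have hne : R.Nonempty := ⟨a1, (hRm a1).2 ⟨τ1, b1, hc1⟩⟩
  have hRd : ∀ a ∈ R, S.IsDart κ v a := by
    intro a ha
    obtain ⟨τ, b, h⟩ := (hRm a).1 ha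
    exact ⟨l, τ, b, h⟩
  have hlt : ∀ a ∈ R, S.ell 2 a < S.ell 2 v := by
    intro a ha
    obtain ⟨τ, b, h⟩ := (hRm a).1 ha
    have h1 : S.ell 2 a ≤ S.ell 2 v := hvmax a (by
      rw [Set.Finite.mem_toFinset]
      exact ⟨τ, b, v, h.rot⟩)
    have hav : a - v ≠ 0 := by
      intro h0
      have := sub_eq_zero.1 h0
      have h2 := h.det
      rw [this, D_self1] at h2
      omega
    have h2 := S.nz 2 _ hav
    rw [map_sub] at h2
    rcases lt_or_eq_of_le h1 with h3 | h3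
    · exact h3
    · rw [h3, sub_self] at h2
      exact absurd rfl h2
  have hcl : ∀ a ∈ R, S.lt κ v a ∈ R := by
    intro a ha
    obtain ⟨τ, b, h⟩ := (hRm a).1 ha
    rw [lt_eq h]
    obtain ⟨l', τ', c, h'⟩ := adj hκ H h.rot.rot
    have hb := bend h.rot.rot h'
    have h2 := hall b v ⟨l, τ, a, h.rot.rot⟩
    have hll := hb.2 h2
    rw [hll] at h'
    exact (hRm b).2 ⟨τ', c, h'⟩
  obtain ⟨-, hmark⟩ := local_sums hne hRd hcl
  obtain ⟨a, ha, hma⟩ : ∃ a ∈ R, S.mark κ v a ≠ 0 := by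
    by_contra hno
    push Not at hno
    rw [Finset.sum_eq_zero hno] at hmark
    omega
  obtain ⟨τ, b, h⟩ := (hRm a).1 ha
  unfold mark at hma
  rw [lt_eq h] at hma
  have hm : 0 < S.sg v a ∧ 0 < S.sg b v := by
    by_contra hno
    rw [if_neg hno] at hma
    exact hma rfl
  have hbR : b ∈ R := by
    have := hcl a ha
    rwa [lt_eq h] at this
  have ha2 := hlt a ha
  have hb2 := hlt b hbR
  set f : V3 →ₗ[ℤ] ℝ := S.ell 2 - S.ell 2 v • toR l with hf
  have fx : ∀ x, f x = S.ell 2 x - S.ell 2 v * (l x : ℝ) := fun x => rfl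
  have e := co_expand (S := S) h.det f 2
  have fv : f v = 0 := by rw [fx, h.lu]; simp
  have fa : f a < 0 := by rw [fx, h.lv]; simp; exact ha2
  have fb : f b < 0 := by rw [fx, h.lw]; simp; exact hb2
  have lhs : 0 < S.c f 2 := by
    change 0 < co S.y (S.ell 2 - S.ell 2 v • toR l) 2
    rw [co_sub, co_smul, S.dual]
    have h1 := S.expand (toR l) v
    rw [toR_apply, h.lu, Fin.sum_univ_three] at h1
    have p := supp_pos h.supp
    have q0 := mul_pos (p 0) (h.Xu 0)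
    have q1 := mul_pos (p 1) (h.Xu 1)
    simp only [if_true]
    push_cast at h1
    change 0 < 1 - S.ell 2 v * S.c (toR l) 2
    change 1 = S.c (toR l) 0 * _ + S.c (toR l) 1 * _ + S.c (toR l) 2 * _ at h1
    linarith
  rw [fv, mul_zero, zero_add] at e
  have r1 : S.c (toR (Dl b v)) 2 * f a < 0 := mul_neg_of_pos_of_neg hm.2 fa
  have r2 : S.c (toR (Dl v a)) 2 * f b < 0 := mul_neg_of_pos_of_neg hm.1 fb
  linarith

end Sys

end Pool.Agent.H286R2
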