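import Pool.Agent.H286R2.Cell

/-!
Delaunay cells inside the faces of the sail.
-/

namespace Pool.Agent.H286R2

namespace Sys

variable {S : Sys}

variable (S) in
/-- the bilinear form attached to a face functional -/
noncomputable def q (κ : ℝ) (l : V3 →ₗ[ℤ] ℤ) (x z : V3) : ℝ :=
  (S.c (toR l) 0) ^ 2 * (S.ell 0 x * S.ell 0 z) + κ * ((S.c (toR l) 1) ^ 2 * (S.ell 1 x * S.ell 1 z))

variable (S) in
/-- genericity of the parameter `κ` -/
def Gen (κ : ℝ) : Prop := 0 < κ ∧ ∀ l : V3 →ₗ[ℤ] ℤ, l ≠ 0 → ∀ e f : V3, e ≠ 0 → f ≠ 0 → S.q κ l e f ≠ 0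

theorem co_ne {l : V3 →ₗ[ℤ] ℤ} (hl : l ≠ 0) (i : Fin 3) : S.c (toR l) i ≠ 0 := by
  obtain ⟨c, hc, h⟩ := S.dualbd
  have hh := h l hl
  intro h0
  have hz : co S.y (toR l) 0 * co S.y (toR l) 1 * co S.y (toR l) 2 = 0 := by
    fin_cases i
    · change co S.y (toR l) 0 = 0 at h0
      rw [h0]; ring
    · change co S.y (toR l) 1 = 0 at h0
      rw [h0]; ring
    · change co S.y (toR l) 2 = 0 at h0
      rw [h0]; ring
  rw [hz, abs_zero] at hh
  linarith

theorem q_add_left (κ : ℝ) (l : V3 →ₗ[ℤ] ℤ) (x x' z : V3) : S.q κ l (x + x') z = S.q κ l x z + S.q κ l x' z := by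
  unfold q
  rw [map_add, map_add]
  ring

theorem q_comm (κ : ℝ) (l : V3 →ₗ[ℤ] ℤ) (x z : V3) : S.q κ l x z = S.q κ l z x := by
  unfold q
  ring

theorem q_smul_left (κ : ℝ) (l : V3 →ₗ[ℤ] ℤ) (n : ℤ) (x z : V3) : S.q κ l (n • x) z = n * S.q κ l x z := by
  unfold q
  rw [map_smul, map_smul, zsmul_eq_mul, zsmul_eq_mul]
  ring

theorem q_sub_left (κ : ℝ) (l : V3 →ₗ[ℤ] ℤ) (x x' z : V3) : S.q κ l (x - x') z = S.q κ l x z - S.q κ l x' z := by
  unfold q
  rw [map_sub, map_sub]
  ring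

theorem q_pos {κ : ℝ} (hκ : 0 < κ) {l : V3 →ₗ[ℤ] ℤ} (hl : l ≠ 0) {z : V3} (hz : z ≠ 0) :
    0 < S.q κ l z z := by
  unfold q
  have h0 := co_ne (S := S) hl 0
  have h1 := S.nz 0 z hz
  have : 0 < (S.c (toR l) 0) ^ 2 * (S.ell 0 z * S.ell 0 z) :=
    mul_pos (by positivity) (mul_self_pos.2 h1)
  have : 0 ≤ κ * ((S.c (toR l) 1) ^ 2 * (S.ell 1 z * S.ell 1 z)) :=
    mul_nonneg hκ.le (mul_nonneg (sq_nonneg _) (mul_self_nonneg _))
  linarith

theorem ne_of_one {l : V3 →ₗ[ℤ] ℤ} {x : V3} (h : l x = 1) : l ≠ 0 := by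
  rintro rfl
  simp at h

/-- the convexity identity -/
theorem q_conv (κ : ℝ) (l : V3 →ₗ[ℤ] ℤ) {x u v w : V3} {n α β γ : ℤ}
    (h : n • x = α • u + β • v + γ • w) (hs : α + β + γ = n) :
    (n : ℝ) * (α * S.q κ l u u + β * S.q κ l v v + γ * S.q κ l w w - n * S.q κ l x x) =
      α * β * S.q κ l (u - v) (u - v) + β * γ * S.q κ l (v - w) (v - w) +
        γ * α * S.q κ l (w - u) (w - u) := by
  have hs' : (α : ℝ) + β + γ = n := by exact_mod_cast hs
  have e : ∀ i, (n : ℝ) * S.ell i x = α * S.ell i u + β * S.ell i v + γ * S.ell i w := by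
    intro i
    have := congrArg (S.ell i) h
    simp only [map_add, map_smul] at this
    simpa only [zsmul_eq_mul] using this
  have e0 := e 0
  have e1 := e 1
  unfold q
  simp only [map_sub]
  have k0 : (n : ℝ) * (n * (S.ell 0 x * S.ell 0 x)) =
    (α * S.ell 0 u + β * S.ell 0 v + γ * S.ell 0 w) ^ 2 := by rw [← e0]; ring
  have k1 : (n : ℝ) * (n * (S.ell 1 x * S.ell 1 x)) =
    (α * S.ell 1 u + β * S.ell 1 v + γ * S.ell 1 w) ^ 2 := by rw [← e1]; ring
  have : (n : ℝ) * (α * ((S.c (toR l) 0) ^ 2 * (S.ell 0 u * S.ell 0 u) + κ * ((S.c (toR l) 1) ^ 2 * (S.ell 1 u * S.ell 1 u))) +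
      β * ((S.c (toR l) 0) ^ 2 * (S.ell 0 v * S.ell 0 v) + κ * ((S.c (toR l) 1) ^ 2 * (S.ell 1 v * S.ell 1 v))) +
      γ * ((S.c (toR l) 0) ^ 2 * (S.ell 0 w * S.ell 0 w) + κ * ((S.c (toR l) 1) ^ 2 * (S.ell 1 w * S.ell 1 w))) -
      n * ((S.c (toR l) 0) ^ 2 * (S.ell 0 x * S.ell 0 x) + κ * ((S.c (toR l) 1) ^ 2 * (S.ell 1 x * S.ell 1 x)))) =
    (S.c (toR l) 0) ^ 2 * (n * (α * (S.ell 0 u * S.ell 0 u) + β * (S.ell 0 v * S.ell 0 v) + γ * (S.ell 0 w * S.ell 0 w)) -
      n * (n * (S.ell 0 x * S.ell 0 x))) +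
    κ * (S.c (toR l) 1) ^ 2 * (n * (α * (S.ell 1 u * S.ell 1 u) + β * (S.ell 1 v * S.ell 1 v) + γ * (S.ell 1 w * S.ell 1 w)) -
      n * (n * (S.ell 1 x * S.ell 1 x))) := by ring
  rw [this, k0, k1, ← hs']
  ring

variable (S) in
/-- a Delaunay cell: a triangle on the face with functional `l` -/
structure IsCell (κ : ℝ) (l : V3 →ₗ[ℤ] ℤ) (τ : V3 →ₗ[ℤ] ℝ) (u v w : V3) : Prop where
  supp : S.Supp (toR l)
  Xu : S.X u
  Xv : S.X v
  Xw : S.X w
  lu : l u = 1
  lv : l v = 1
  lw : l w = 1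
  det : D u v w = 1
  le : ∀ x, S.X x → l x = 1 → τ x ≤ S.q κ l x x
  con : ∀ x, S.X x → l x = 1 → τ x = S.q κ l x x → x = u ∨ x = v ∨ x = w
  tu : τ u = S.q κ l u u
  tv : τ v = S.q κ l v v
  tw : τ w = S.q κ l w w

theorem IsCell.rot {κ : ℝ} {l : V3 →ₗ[ℤ] ℤ} {τ : V3 →ₗ[ℤ] ℝ} {u v w : V3}
    (h : S.IsCell κ l τ u v w) : S.IsCell κ l τ v w u where
  supp := h.supp
  Xu := h.Xv
  Xv := h.Xw
  Xw := h.Xu
  lu := h.lv
  lv := h.lw
  lw := h.lu
  det := by rw [← D_rot]; exact h.det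
  le := h.le
  con := fun x h1 h2 h3 => by
    rcases h.con x h1 h2 h3 with h4 | h4 | h4
    · exact Or.inr (Or.inr h4)
    · exact Or.inl h4
    · exact Or.inr (Or.inl h4)
  tu := h.tv
  tv := h.tw
  tw := h.tu

theorem X_comb {x u v w : V3} {n α β γ : ℤ} (hu : S.X u) (hv : S.X v) (hw : S.X w) (hn : 0 < n)
    (hα : 0 ≤ α) (hβ : 0 ≤ β) (hγ : 0 ≤ γ) (h : n • x = α • u + β • v + γ • w) (hs : 0 < α + β + γ) :
    S.X x := by
  intro i
  have e : (n : ℝ) * S.ell i x = α * S.ell i u + β * S.ell i v + γ * S.ell i w := by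
    have := congrArg (S.ell i) h
    simp only [map_add, map_smul] at this
    simpa only [zsmul_eq_mul] using this
  have hn' : (0 : ℝ) < n := by exact_mod_cast hn
  have hα' : (0 : ℝ) ≤ α := by exact_mod_cast hα
  have hβ' : (0 : ℝ) ≤ β := by exact_mod_cast hβ
  have hγ' : (0 : ℝ) ≤ γ := by exact_mod_cast hγ
  have h1 := hu i
  have h2 := hv i
  have h3 := hw i
  have hpos : 0 < α * S.ell i u + β * S.ell i v + γ * S.ell i w := by
    have a1 := mul_nonneg hα' h1.le
    have a2 := mul_nonneg hβ' h2.le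
    have a3 := mul_nonneg hγ' h3.le
    have : 0 < α ∨ 0 < β ∨ 0 < γ := by omega
    rcases this with h4 | h4 | h4
    · have : (0 : ℝ) < α := by exact_mod_cast h4
      have := mul_pos this h1
      linarith
    · have : (0 : ℝ) < β := by exact_mod_cast h4
      have := mul_pos this h2
      linarith
    · have : (0 : ℝ) < γ := by exact_mod_cast h4
      have := mul_pos this h3
      linarith
  rw [← e] at hpos
  exact (mul_pos_iff_of_pos_left hn').1 hpos

/-- unimodularity of contact triples -/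
theorem contact_det {κ : ℝ} (hκ : 0 < κ) {l : V3 →ₗ[ℤ] ℤ} {τ : V3 →ₗ[ℤ] ℝ}
    (hle : ∀ x, S.X x → l x = 1 → τ x ≤ S.q κ l x x) {u v w : V3} (hu : S.X u) (hv : S.X v) (hw : S.X w)
    (lu : l u = 1) (lv : l v = 1) (lw : l w = 1) (tu : τ u = S.q κ l u u) (tv : τ v = S.q κ l v v)
    (tw : τ w = S.q κ l w w) (hD : 0 < D u v w) : D u v w = 1 := by
  have hl : l ≠ 0 := ne_of_one lu
  refine empty_triangle l (k := u) lu lu lv lw one_pos hD ?_
  intro x n α β γ hn hα hβ hγ hx hlx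
  have hsum : α + β + γ = n := by
    have := congrArg l hx
    simp only [map_add, map_smul, smul_eq_mul, lu, lv, lw, hlx, mul_one] at this
    exact this.symm
  have hXx : S.X x := X_comb hu hv hw hn hα hβ hγ hx (by omega)
  have h1 := hle x hXx hlx
  have h2 : (n : ℝ) * τ x = α * τ u + β * τ v + γ * τ w := by
    have := congrArg τ hx
    simp only [map_add, map_smul] at this
    simpa only [zsmul_eq_mul] using this
  have h3 := q_conv (S := S) κ l hx hsum
  have hn' : (0 : ℝ) < n := by exact_mod_cast hn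
  have hα' : (0 : ℝ) ≤ α := by exact_mod_cast hα
  have hβ' : (0 : ℝ) ≤ β := by exact_mod_cast hβ
  have hγ' : (0 : ℝ) ≤ γ := by exact_mod_cast hγ
  rw [tu, tv, tw] at h2
  have h4 : (n : ℝ) * (α * S.q κ l u u + β * S.q κ l v v + γ * S.q κ l w w - n * S.q κ l x x) ≤ 0 := by
    rw [← h2]
    have : (n : ℝ) * τ x - n * S.q κ l x x ≤ 0 := by
      have := mul_le_mul_of_nonneg_left h1 hn'.le
      linarith
    exact mul_nonpos_of_nonneg_of_nonpos hn'.le this
  rw [h3] at h4
  have huv : u ≠ v := by rintro rfl; rw [D_self1] at hD; omega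
  have hvw : v ≠ w := by rintro rfl; rw [D_self2] at hD; omega
  have hwu : w ≠ u := by rintro rfl; rw [D_self3] at hD; omega
  have p1 := q_pos (S := S) hκ hl (sub_ne_zero.2 huv)
  have p2 := q_pos (S := S) hκ hl (sub_ne_zero.2 hvw)
  have p3 := q_pos (S := S) hκ hl (sub_ne_zero.2 hwu)
  have n1 : 0 ≤ (α : ℝ) * β * S.q κ l (u - v) (u - v) := mul_nonneg (mul_nonneg hα' hβ') p1.le
  have n2 : 0 ≤ (β : ℝ) * γ * S.q κ l (v - w) (v - w) := mul_nonneg (mul_nonneg hβ' hγ') p2.le
  have n3 : 0 ≤ (γ : ℝ) * α * S.q κ l (w - u) (w - u) := mul_nonneg (mul_nonneg hγ' hα') p3.le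
  have z1 : (α : ℝ) * β = 0 := by
    have : (α : ℝ) * β * S.q κ l (u - v) (u - v) = 0 := by linarith
    rcases mul_eq_zero.1 this with h | h
    · exact h
    · linarith
  have z2 : (β : ℝ) * γ = 0 := by
    have : (β : ℝ) * γ * S.q κ l (v - w) (v - w) = 0 := by linarith
    rcases mul_eq_zero.1 this with h | h
    · exact h
    · linarith
  have z3 : (γ : ℝ) * α = 0 := by
    have : (γ : ℝ) * α * S.q κ l (w - u) (w - u) = 0 := by linarith
    rcases mul_eq_zero.1 this with h | h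
    · exact h
    · linarith
  have y1 : α * β = 0 := by exact_mod_cast z1
  have y2 : β * γ = 0 := by exact_mod_cast z2
  have y3 : γ * α = 0 := by exact_mod_cast z3
  have hcancel : ∀ t : V3, n • x = n • t → x = t := by
    intro t ht
    have : n • (x - t) = 0 := by rw [smul_sub, ht, sub_self]
    rcases smul_eq_zero.1 this with h | h
    · omega
    · exact sub_eq_zero.1 h
  rcases eq_or_ne α 0 with ha | ha
  · rcases eq_or_ne β 0 with hb | hb
    · have : γ = n := by omega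
      right; right
      apply hcancel
      rw [hx, ha, hb, this, zero_smul, zero_smul, zero_add, zero_add]
    · have hc : γ = 0 := by
        rcases mul_eq_zero.1 y2 with h | h
        · exact absurd h hb
        · exact h
      have : β = n := by omega
      right; left
      apply hcancel
      rw [hx, ha, hc, this, zero_smul, zero_smul, zero_add, add_zero]
  · have hb : β = 0 := by
      rcases mul_eq_zero.1 y1 with h | h
      · exact absurd h ha
      · exact h
    have hc : γ = 0 := by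
      rcases mul_eq_zero.1 y3 with h | h
      · exact h
      · exact absurd h ha
    have : α = n := by omega
    left
    apply hcancel
    rw [hx, hb, hc, this, zero_smul, zero_smul, add_zero, add_zero]

/-- no fourth contact point of parallelogram type -/
theorem no_tie {κ : ℝ} (hκ : S.Gen κ) {l : V3 →ₗ[ℤ] ℤ} {τ : V3 →ₗ[ℤ] ℝ} {u v w x : V3} (hl : l ≠ 0)
    (huw : u ≠ w) (hvw : v ≠ w) (tu : τ u = S.q κ l u u) (tv : τ v = S.q κ l v v)
    (tw : τ w = S.q κ l w w) (tx : τ x = S.q κ l x x) (hx : x = u + v - w) : False := by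
  apply hκ.2 l hl (u - w) (v - w) (sub_ne_zero.2 huw) (sub_ne_zero.2 hvw)
  have h1 : τ x = τ u + τ v - τ w := by rw [hx, map_sub, map_add]
  rw [tu, tv, tw, tx, hx] at h1
  unfold q at h1 ⊢
  simp only [map_sub, map_add] at h1 ⊢
  linear_combination (1 / 2 : ℝ) * h1

theorem mk_cell {κ : ℝ} (hκ : S.Gen κ) {l : V3 →ₗ[ℤ] ℤ} {τ : V3 →ₗ[ℤ] ℝ} (hs : S.Supp (toR l))
    (hle : ∀ x, S.X x → l x = 1 → τ x ≤ S.q κ l x x) {u v w : V3} (hu : S.X u) (hv : S.X v) (hw : S.X w)
    (lu : l u = 1) (lv : l v = 1) (lw : l w = 1) (tu : τ u = S.q κ l u u) (tv : τ v = S.q κ l v v)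
    (tw : τ w = S.q κ l w w) (hD : 0 < D u v w) : S.IsCell κ l τ u v w := by
  have hl : l ≠ 0 := ne_of_one lu
  have hdet := contact_det hκ.1 hle hu hv hw lu lv lw tu tv tw hD
  refine ⟨hs, hu, hv, hw, lu, lv, lw, hdet, hle, ?_, tu, tv, tw⟩
  intro x hx lx tx
  have hc := cramer u v w x
  rw [hdet, one_smul] at hc
  have hone : ∀ a b c : V3, S.X a → S.X b → S.X c → l a = 1 → l b = 1 → l c = 1 → τ a = S.q κ l a a →
      τ b = S.q κ l b b → τ c = S.q κ l c c → D a b c = 0 ∨ D a b c = 1 ∨ D a b c = -1 := by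
    intro a b c ha hb hc la lb lc ta tb tc
    rcases lt_trichotomy (D a b c) 0 with h | h | h
    · right; right
      have := contact_det hκ.1 hle hb ha hc lb la lc tb ta tc (by rw [D_swap]; omega)
      rw [D_swap]; omega
    · left; exact h
    · right; left
      exact contact_det hκ.1 hle ha hb hc la lb lc ta tb tc h
  have h1 := hone x v w hx hv hw lx lv lw tx tv tw
  have h2 := hone u x w hu hx hw lu lx lw tu tx tw
  have h3 := hone u v x hu hv hx lu lv lx tu tv tx
  have hsum : D x v w + D u x w + D u v x = 1 := by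
    have := congrArg l hc
    simp only [map_add, map_smul, smul_eq_mul, lu, lv, lw, lx, mul_one] at this
    exact this.symm
  have huv : u ≠ v := by rintro rfl; rw [D_self1] at hD; omega
  have hvw : v ≠ w := by rintro rfl; rw [D_self2] at hD; omega
  have hwu : w ≠ u := by rintro rfl; rw [D_self3] at hD; omega
  set a := D x v w
  set b := D u x w
  set c := D u v x
  have hcases : (a = 1 ∧ b = 0 ∧ c = 0) ∨ (a = 0 ∧ b = 1 ∧ c = 0) ∨ (a = 0 ∧ b = 0 ∧ c = 1) ∨
      (a = 1 ∧ b = 1 ∧ c = -1) ∨ (a = 1 ∧ b = -1 ∧ c = 1) ∨ (a = -1 ∧ b = 1 ∧ c = 1) := by omega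
  rcases hcases with ⟨ha, hb, hc'⟩ | ⟨ha, hb, hc'⟩ | ⟨ha, hb, hc'⟩ | ⟨ha, hb, hc'⟩ | ⟨ha, hb, hc'⟩ | ⟨ha, hb, hc'⟩ <;>
    rw [ha, hb, hc'] at hc
  · left; rw [hc]; simp
  · right; left; rw [hc]; simp
  · right; right; rw [hc]; simp
  · exact (no_tie hκ hl hwu.symm hvw tu tv tw tx (by rw [hc]; simp; abel)).elim
  · exact (no_tie hκ hl huv hvw.symm tu tw tv tx (by rw [hc]; simp; abel)).elim
  · exact (no_tie hκ hl huv.symm hwu tv tw tu tx (by rw [hc]; simp; abel)).elim

/-- integral functionals agreeing on a unimodular triple -/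
theorem eq_of_three {l l' : V3 →ₗ[ℤ] ℤ} {u v w : V3} (hD : D u v w = 1) (h1 : l u = l' u)
    (h2 : l v = l' v) (h3 : l w = l' w) : l = l' := by
  apply LinearMap.ext
  intro x
  have e1 := cramerZ l u v w x
  have e2 := cramerZ l' u v w x
  rw [hD, one_mul] at e1 e2
  rw [e1, e2, h1, h2, h3]

theorem uniq {κ : ℝ} {l l' : V3 →ₗ[ℤ] ℤ} {τ τ' : V3 →ₗ[ℤ] ℝ} {v a b b' : V3}
    (h : S.IsCell κ l τ v a b) (h' : S.IsCell κ l' τ' v a b') : b' = b ∧ l' = l := by
  have hc := cramer v a b b'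
  rw [h.det, one_smul, h'.det, one_smul] at hc
  set p := D b' a b
  set r := D v b' b
  have e1 : l b' = p + r + 1 := by
    have := congrArg l hc
    simpa only [map_add, map_smul, smul_eq_mul, h.lu, h.lv, h.lw, mul_one] using this
  have e2 : 1 = p + r + l' b := by
    have := congrArg l' hc
    simpa only [map_add, map_smul, smul_eq_mul, h'.lu, h'.lv, h'.lw, mul_one] using this
  have g1 : 1 ≤ l b' := by
    have := h.supp b' h'.Xw
    rw [toR_apply] at this
    exact_mod_cast this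
  have g2 : 1 ≤ l' b := by
    have := h'.supp b h.Xw
    rw [toR_apply] at this
    exact_mod_cast this
  have hpr : p + r = 0 := by omega
  have e3 : l b' = 1 := by omega
  have e4 : l' b = 1 := by omega
  have hll : l' = l := eq_of_three h.det (by rw [h.lu, h'.lu]) (by rw [h.lv, h'.lv]) (by rw [e4, h.lw])
  refine ⟨?_, hll⟩
  subst hll
  have t1 : τ b' = p * τ v + r * τ a + τ b := by
    have := congrArg τ hc
    simp only [map_add, map_smul] at this
    simpa only [zsmul_eq_mul] using this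
  have t2 : τ' b' = p * τ' v + r * τ' a + τ' b := by
    have := congrArg τ' hc
    simp only [map_add, map_smul] at this
    simpa only [zsmul_eq_mul] using this
  rw [h.tu, h.tv, h.tw] at t1
  rw [h'.tu, h'.tv, h'.tw] at t2
  have g3 := h.le b' h'.Xw e3
  have g4 := h'.le b h.Xw e4
  have t3 : τ b' = S.q κ l' b' b' := by linarith
  rcases h.con b' h'.Xw e3 t3 with h5 | h5 | h5
  · have := h'.det
    rw [h5, D_self3] at this
    omega
  · have := h'.det
    rw [h5, D_self2] at this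
    omega
  · exact h5

theorem sector {κ : ℝ} {l l' : V3 →ₗ[ℤ] ℤ} {τ τ' : V3 →ₗ[ℤ] ℝ} {v a b c d : V3}
    (h : S.IsCell κ l τ v a b) (h' : S.IsCell κ l' τ' v c d) : ¬ (0 < D v a c ∧ 0 < D v c b) := by
  rintro ⟨hβ, hα⟩
  have hc := cramer v a b c
  rw [h.det, one_smul] at hc
  set ζ := D c a b
  set α := D v c b
  set β := D v a c
  have e1 : l c = ζ + α + β := by
    have := congrArg l hc
    simpa only [map_add, map_smul, smul_eq_mul, h.lu, h.lv, h.lw, mul_one] using this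
  have e2 : 1 = ζ + α * l' a + β * l' b := by
    have := congrArg l' hc
    simpa only [map_add, map_smul, smul_eq_mul, h'.lu, h'.lv, mul_one] using this
  have g0 : 1 ≤ l c := by
    have := h.supp c h'.Xv
    rw [toR_apply] at this
    exact_mod_cast this
  have g1 : 1 ≤ l' a := by
    have := h'.supp a h.Xv
    rw [toR_apply] at this
    exact_mod_cast this
  have g2 : 1 ≤ l' b := by
    have := h'.supp b h.Xw
    rw [toR_apply] at this
    exact_mod_cast this
  have m1 : α * 1 ≤ α * l' a := mul_le_mul_of_nonneg_left g1 hα.le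
  have m2 : β * 1 ≤ β * l' b := mul_le_mul_of_nonneg_left g2 hβ.le
  have k1 : α * l' a = α * 1 := by omega
  have k2 : β * l' b = β * 1 := by omega
  have la : l' a = 1 := mul_left_cancel₀ hα.ne' k1
  have lb : l' b = 1 := mul_left_cancel₀ hβ.ne' k2
  have lc : l c = 1 := by omega
  have hll : l' = l := eq_of_three h.det (by rw [h.lu, h'.lu]) (by rw [la, h.lv]) (by rw [lb, h.lw])
  subst hll
  have t1 : τ c = ζ * τ v + α * τ a + β * τ b := by
    have := congrArg τ hc
    simp only [map_add, map_smul] at this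
    simpa only [zsmul_eq_mul] using this
  have t2 : τ' c = ζ * τ' v + α * τ' a + β * τ' b := by
    have := congrArg τ' hc
    simp only [map_add, map_smul] at this
    simpa only [zsmul_eq_mul] using this
  rw [h.tu, h.tv, h.tw] at t1
  rw [h'.tu, h'.tv] at t2
  have g3 := h.le c h'.Xv lc
  have g4 := h'.le a h.Xv la
  have g5 := h'.le b h.Xw lb
  have hα' : (0 : ℝ) < α := by exact_mod_cast hα
  have hβ' : (0 : ℝ) < β := by exact_mod_cast hβ
  have m3 := mul_le_mul_of_nonneg_left g4 hα'.le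
  have m4 := mul_le_mul_of_nonneg_left g5 hβ'.le
  have t3 : τ c = S.q κ l' c c := by linarith
  rcases h.con c h'.Xv lc t3 with h5 | h5 | h5
  · have := h'.det
    rw [h5, D_self1] at this
    omega
  · have : β = 0 := by
      change D v a c = 0
      rw [h5, D_self2]
    omega
  · have : α = 0 := by
      change D v c b = 0
      rw [h5, D_self2]
    omega

end Sys

end Pool.Agent.H286R2
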