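import Pool.Agent.H286R2.Quad

/-!
Four points in convex position force integrality.
-/

namespace Pool.Agent.H286R2

namespace Sys

variable {S : Sys}

/-- `x` is not in the cone of `u, v, w` -/
def NC (x u v w : V3) : Prop :=
  ∀ n α β γ : ℤ, 0 < n → 0 ≤ α → 0 ≤ β → 0 ≤ γ → n • x = α • u + β • v + γ • w → False

theorem tri_ne {l : V3 →ₗ[ℤ] ℤ} {k : V3} {d : ℤ} (hk : l k = 1) (hd : d ≠ 0) {u v w z : V3}
    (hu : l u = d) (hv : l v = d) (hw : l w = d) (h1 : NC u v w z) (h2 : NC v u w z)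
    (h3 : NC w u v z) : D u v w ≠ 0 := by
  intro h0
  set e := v - u with he
  set f := w - u with hf
  have le : l e = 0 := by rw [he, map_sub, hu, hv, sub_self]
  have lf : l f = 0 := by rw [hf, map_sub, hu, hw, sub_self]
  have h4 : D u e f = 0 := by
    rw [← h0, he, hf]
    simp only [D, Pi.sub_apply]; ring
  have h5 : D k e f = 0 := by
    have := D_height hk le lf u
    rw [h4, hu] at this
    rcases mul_eq_zero.1 this.symm with h | h
    · exact absurd h hd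
    · exact h
  have h6 : ∀ x, D e f x = 0 := by
    intro x
    have := D_height hk le lf x
    rw [h5, mul_zero] at this
    rw [← this]
    unfold D; ring
  have hv' : v = u + e := by rw [he]; abel
  have hw' : w = u + f := by rw [hf]; abel
  have he0 : e ≠ 0 := by
    intro h
    rw [h, add_zero] at hv'
    exact h2 1 1 0 0 one_pos zero_le_one le_rfl le_rfl (by rw [hv']; simp)
  obtain ⟨i, hi⟩ : ∃ i, e i ≠ 0 := by
    by_contra hno
    push Not at hno
    exact he0 (funext hno)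
  have hp := parallel h6 i
  -- e i • f = f i • e
  obtain ⟨a, b, ha, hab⟩ : ∃ a b : ℤ, 0 < a ∧ a • f = b • e := by
    rcases lt_or_gt_of_ne hi with h | h
    · exact ⟨-e i, -f i, by omega, by rw [neg_smul, neg_smul, hp]⟩
    · exact ⟨e i, f i, h, hp⟩
  rcases lt_or_ge b 0 with hb | hb
  · -- u between
    apply h1 (a - b) (-b) a 0 (by omega) (by omega) ha.le le_rfl
    rw [hv', hw', smul_add, smul_add, hab]
    simp only [sub_smul, neg_smul, zero_smul]
    abel
  · rcases le_or_gt b a with hba | hba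
    · apply h3 a (a - b) b 0 ha (by omega) hb le_rfl
      rw [hv', hw', smul_add, smul_add, hab]
      simp only [sub_smul, zero_smul]
      abel
    · apply h2 b (b - a) a 0 (by omega) (by omega) ha.le le_rfl
      rw [hv', hw', smul_add, smul_add, hab]
      simp only [sub_smul, zero_smul]
      abel

theorem exists_Qd {l : V3 →ₗ[ℤ] ℤ} {k : V3} {d : ℤ} (hk : l k = 1) (hd : 0 < d) {p1 p2 p3 p4 : V3}
    (X1 : S.X p1) (X2 : S.X p2) (X3 : S.X p3) (X4 : S.X p4) (l1 : l p1 = d) (l2 : l p2 = d)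
    (l3 : l p3 = d) (l4 : l p4 = d) (n1 : NC p1 p2 p3 p4) (n2 : NC p2 p1 p3 p4)
    (n3 : NC p3 p1 p2 p4) (n4 : NC p4 p1 p2 p3) : ∃ A B C E, Qd S l d A B C E := by
  have perm : ∀ {x u v w : V3}, NC x u v w → NC x v u w := by
    intro x u v w h n α β γ hn hα hβ hγ he
    exact h n β α γ hn hβ hα hγ (by rw [he]; abel)
  have perm' : ∀ {x u v w : V3}, NC x u v w → NC x u w v := by
    intro x u v w h n α β γ hn hα hβ hγ he
    exact h n α γ β hn hα hγ hβ (by rw [he]; abel)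
  have m4 : D p1 p2 p3 ≠ 0 := tri_ne hk hd.ne' l1 l2 l3 n1 n2 n3
  have m3 : D p1 p2 p4 ≠ 0 := tri_ne hk hd.ne' l1 l2 l4 (perm' n1) (perm' n2) n4
  have m2 : D p1 p3 p4 ≠ 0 := tri_ne hk hd.ne' l1 l3 l4 (perm' (perm n1)) (perm' n3) (perm' n4)
  have m1 : D p2 p3 p4 ≠ 0 := tri_ne hk hd.ne' l2 l3 l4 (perm' (perm n2)) (perm' (perm n3)) (perm' (perm n4))
  have hcr := cramer p1 p2 p3 p4
  have e1 : D p4 p2 p3 = D p2 p3 p4 := D_rot _ _ _
  have e2 : D p1 p4 p3 = - D p1 p3 p4 := D_swap' _ _ _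
  rw [e1, e2] at hcr
  have hs := l_lin hcr l
  rw [l1, l2, l3, l4] at hs
  have hs' : D p1 p2 p3 = D p2 p3 p4 - D p1 p3 p4 + D p1 p2 p4 := by
    have : d * D p1 p2 p3 = d * (D p2 p3 p4 - D p1 p3 p4 + D p1 p2 p4) := by linarith
    exact mul_left_cancel₀ hd.ne' this
  have q1 : D p1 p3 p2 = - D p1 p2 p3 := D_swap' _ _ _
  have q2 : D p1 p4 p2 = - D p1 p2 p4 := D_swap' _ _ _
  have q3 : D p1 p4 p3 = - D p1 p3 p4 := D_swap' _ _ _
  have q4 : D p2 p4 p3 = - D p2 p3 p4 := D_swap' _ _ _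
  have q5 : D p3 p2 p4 = - D p2 p3 p4 := by unfold D; ring
  have q6 : D p4 p2 p3 = D p2 p3 p4 := by unfold D; ring
  have q7 : D p3 p4 p2 = D p2 p3 p4 := by unfold D; ring
  have q8 : D p4 p3 p2 = - D p2 p3 p4 := by unfold D; ring
  have q9 : D p4 p3 p1 = - D p1 p3 p4 := by unfold D; ring
  have q10 : D p4 p2 p1 = - D p1 p2 p4 := by unfold D; ring
  have q11 : D p3 p2 p1 = - D p1 p2 p3 := by unfold D; ring
  generalize hA : D p2 p3 p4 = a at *
  generalize hB : D p1 p3 p4 = b at *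
  generalize hC : D p1 p2 p4 = c at *
  generalize hE : D p1 p2 p3 = e at *
  -- e p4 = a p1 - b p2 + c p3,  e = a - b + c
  rcases lt_or_gt_of_ne m1 with s1 | s1 <;> rcases lt_or_gt_of_ne m2 with s2 | s2 <;>
    rcases lt_or_gt_of_ne m3 with s3 | s3 <;> rcases lt_or_gt_of_ne m4 with s4 | s4
  · -- a<0, b<0, c<0, e<0
    exact ⟨p4, p3, p2, p1, X4, X3, X2, X1, l4, l3, l2, l1, by omega, by omega, by omega, by omega⟩
  · -- a<0 b<0 c<0 e>0 : e p4 + (-a) p1 + (-c) p3 = (-b) p2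
    exfalso
    apply n2 (-b) (-a) (-c) e (by omega) (by omega) (by omega) (by omega)
    rw [hcr]; simp only [neg_smul]; abel
  · -- a<0 b<0 c>0 e<0 : (-a) p1 = (-e) p4 + (-b) p2 + c p3
    exfalso
    apply n1 (-a) (-b) c (-e) (by omega) (by omega) (by omega) (by omega)
    have : a • p1 = e • p4 + b • p2 - c • p3 := by rw [hcr]; simp only [neg_smul]; abel
    rw [neg_smul, this]; simp only [neg_smul]; abel
  · -- a<0 b<0 c>0 e>0
    exact ⟨p1, p2, p4, p3, X1, X2, X4, X3, l1, l2, l4, l3, by omega, by omega, by omega, by omega⟩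
  · -- a<0 b>0 c<0 e<0 : (-e) p4 = (-a) p1 + b p2 + (-c) p3
    exfalso
    apply n4 (-e) (-a) b (-c) (by omega) (by omega) (by omega) (by omega)
    rw [neg_smul, hcr]; simp only [neg_smul]; abel
  · -- a<0 b>0 c<0 e>0 : impossible
    exfalso; omega
  · -- a<0 b>0 c>0 e<0
    exact ⟨p1, p3, p2, p4, X1, X3, X2, X4, l1, l3, l2, l4, by omega, by omega, by omega, by omega⟩
  · -- a<0 b>0 c>0 e>0 : c p3 = e p4 + (-a) p1 + b p2
    exfalso
    apply n3 c (-a) b e (by omega) (by omega) (by omega) (by omega)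
    rw [hcr]; simp only [neg_smul]; abel
  · -- a>0 b<0 c<0 e<0 : (-c) p3 = a p1 + (-b) p2 + (-e) p4
    exfalso
    apply n3 (-c) a (-b) (-e) (by omega) (by omega) (by omega) (by omega)
    rw [neg_smul e, hcr]; simp only [neg_smul]; abel
  · -- a>0 b<0 c<0 e>0
    exact ⟨p1, p4, p2, p3, X1, X4, X2, X3, l1, l4, l2, l3, by omega, by omega, by omega, by omega⟩
  · -- a>0 b<0 c>0 e<0 : impossible
    exfalso; omega
  · -- a>0 b<0 c>0 e>0 : e p4 = a p1 + (-b) p2 + c p3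
    exfalso
    exact n4 e a (-b) c (by omega) (by omega) (by omega) (by omega) hcr
  · -- a>0 b>0 c<0 e<0
    exact ⟨p1, p3, p4, p2, X1, X3, X4, X2, l1, l3, l4, l2, by omega, by omega, by omega, by omega⟩
  · -- a>0 b>0 c<0 e>0 : a p1 = e p4 + b p2 + (-c) p3
    exfalso
    apply n1 a b (-c) e (by omega) (by omega) (by omega) (by omega)
    rw [hcr]; simp only [neg_smul]; abel
  · -- a>0 b>0 c>0 e<0 : b p2 = a p1 + c p3 + (-e) p4
    exfalso
    apply n2 b a c (-e) (by omega) (by omega) (by omega) (by omega)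
    rw [neg_smul, hcr]; simp only [neg_smul]; abel
  · exact ⟨p1, p2, p3, p4, X1, X2, X3, X4, l1, l2, l3, l4, by omega, by omega, by omega, by omega⟩

theorem int_of_four {f : V3 →ₗ[ℤ] ℝ} (hf : S.Supp f) {u v w : V3} (hD : D u v w ≠ 0) (fu : f u = 1)
    (fv : f v = 1) (fw : f w = 1) {p1 p2 p3 p4 : V3} (X1 : S.X p1) (X2 : S.X p2) (X3 : S.X p3)
    (X4 : S.X p4) (f1 : f p1 = 1) (f2 : f p2 = 1) (f3 : f p3 = 1) (f4 : f p4 = 1)
    (n1 : NC p1 p2 p3 p4) (n2 : NC p2 p1 p3 p4) (n3 : NC p3 p1 p2 p4) (n4 : NC p4 p1 p2 p3) :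
    ∃ l : V3 →ₗ[ℤ] ℤ, f = toR l := by
  obtain ⟨l, k, d, hd, hk, hl⟩ := prim hD fu fv fw
  have hht : ∀ x, f x = 1 → l x = d := by
    intro x hx
    have := hl x
    rw [hx, mul_one] at this
    exact_mod_cast this.symm
  by_cases h1 : d = 1
  · refine ⟨l, LinearMap.ext fun x => ?_⟩
    have := hl x
    rw [h1] at this
    rw [toR_apply, ← this]
    simp
  · exfalso
    obtain ⟨A, B, C, E, hq⟩ := exists_Qd hk hd X1 X2 X3 X4 (hht _ f1) (hht _ f2) (hht _ f3)
      (hht _ f4) n1 n2 n3 n4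
    refine no_quad hk (by omega) ?_ hq
    intro x hx
    have h2 := hf x hx
    have h3 := hl x
    have hd' : (0 : ℝ) < d := by exact_mod_cast hd
    have : (d : ℝ) ≤ l x := by
      rw [← h3]
      nlinarith
    exact_mod_cast this

end Sys

end Pool.Agent.H286R2
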