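import Pool.Agent.H286R2.Cell

/-!
Irreducibility of the characteristic polynomial: cyclic vectors.
-/

namespace Pool.Agent.H286R2

open Polynomial in
theorem irr_comb {M : Matrix (Fin 3) (Fin 3) ℤ} (hM : Irreducible (M.charpoly.map (Int.castRingHom ℚ)))
    {x : V3} (hx : x ≠ 0) {c0 c1 c2 : ℤ}
    (h : c0 • x + c1 • M.mulVec x + c2 • M.mulVec (M.mulVec x) = 0) : c0 = 0 ∧ c1 = 0 ∧ c2 = 0 := by
  classical
  by_contra hne
  set MQ : Matrix (Fin 3) (Fin 3) ℚ := M.map (Int.castRingHom ℚ) with hMQ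
  have hch : MQ.charpoly = M.charpoly.map (Int.castRingHom ℚ) := by
    rw [hMQ, Matrix.charpoly_map]
  set g : ℚ[X] := C (c0 : ℚ) + C (c1 : ℚ) * X + C (c2 : ℚ) * X ^ 2 with hg
  have hg0 : g ≠ 0 := by
    intro h0
    apply hne
    have k0 : g.coeff 0 = 0 := by rw [h0]; simp
    have k1 : g.coeff 1 = 0 := by rw [h0]; simp
    have k2 : g.coeff 2 = 0 := by rw [h0]; simp
    rw [hg] at k0 k1 k2
    simp only [coeff_add, coeff_C_mul, coeff_C, coeff_X, coeff_X_pow] at k0 k1 k2
    norm_num at k0 k1 k2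
    exact ⟨k0, k1, k2⟩
  have hgd : g.natDegree ≤ 2 := by
    rw [hg]
    compute_degree
  have hnd : ¬ (M.charpoly.map (Int.castRingHom ℚ)) ∣ g := by
    intro hd
    have := Polynomial.natDegree_le_of_dvd hd hg0
    rw [← hch, Matrix.charpoly_natDegree_eq_dim] at this
    simp at this
    omega
  obtain ⟨a, b, hab⟩ := (Irreducible.coprime_iff_not_dvd hM).2 hnd
  set xq : Fin 3 → ℚ := fun i => (x i : ℚ) with hxq
  have hmv : ∀ z : V3, MQ.mulVec (fun i => (z i : ℚ)) = fun i => ((M.mulVec z) i : ℚ) := by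
    intro z
    funext i
    simp [MQ, Matrix.mulVec, dotProduct]
  have hgx : (aeval MQ g).mulVec xq = 0 := by
    have e1 : aeval MQ g = (c0 : ℚ) • (1 : Matrix (Fin 3) (Fin 3) ℚ) + (c1 : ℚ) • MQ + (c2 : ℚ) • (MQ * MQ) := by
      rw [hg]
      simp only [map_add, map_mul, aeval_C, aeval_X, map_pow]
      rw [pow_two]
      simp only [Algebra.algebraMap_eq_smul_one, smul_mul_assoc, one_mul]
    rw [e1, Matrix.add_mulVec, Matrix.add_mulVec, Matrix.smul_mulVec, Matrix.smul_mulVec,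
      Matrix.smul_mulVec, Matrix.one_mulVec, ← Matrix.mulVec_mulVec, hxq, hmv, hmv]
    funext i
    have := congrFun h i
    simp only [Pi.add_apply, Pi.smul_apply, smul_eq_mul, Pi.zero_apply] at this ⊢
    exact_mod_cast this
  have h1 : (aeval MQ (a * M.charpoly.map (Int.castRingHom ℚ) + b * g)).mulVec xq = xq := by
    rw [hab]
    simp
  rw [map_add, map_mul, map_mul, ← hch, Matrix.aeval_self_charpoly, mul_zero, zero_add,
    ← Matrix.mulVec_mulVec, hgx, Matrix.mulVec_zero] at h1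
  apply hx
  funext i
  have := congrFun h1 i
  simp only [hxq, Pi.zero_apply] at this ⊢
  exact_mod_cast this.symm

theorem irr_det {M : Matrix (Fin 3) (Fin 3) ℤ} (hM : Irreducible (M.charpoly.map (Int.castRingHom ℚ)))
    {x : V3} (hx : x ≠ 0) : D x (M.mulVec x) (M.mulVec (M.mulVec x)) ≠ 0 := by
  intro h0
  have hdet : (Matrix.of fun i j => (![x, M.mulVec x, M.mulVec (M.mulVec x)] : Fin 3 → V3) j i).det = 0 := by
    rw [Matrix.det_fin_three, ← h0]
    simp [D]
    ring
  obtain ⟨c, hc, h⟩ := Matrix.exists_mulVec_eq_zero_iff.2 hdet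
  apply hc
  have h2 : c 0 • x + c 1 • M.mulVec x + c 2 • M.mulVec (M.mulVec x) = 0 := by
    funext i
    have := congrFun h i
    simp only [Matrix.mulVec, dotProduct, Fin.sum_univ_three, Matrix.of_apply, Pi.zero_apply] at this ⊢
    simp only [Pi.add_apply, Pi.smul_apply, smul_eq_mul]
    simp at this
    rw [Matrix.mulVec_mulVec]
    linarith
  obtain ⟨k0, k1, k2⟩ := irr_comb hM hx h2
  funext i
  fin_cases i
  · exact k0
  · exact k1
  · exact k2

end Pool.Agent.H286R2
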