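import Pool.Agent.H286R2.Build
import Pool.Agent.H286R2.Four

/-!
The final connection with the convex hull formulation.
-/

namespace Pool.Agent.H286R2

open Module

theorem cst_inj {x y : V3} (h : cst x = cst y) : x = y := by
  funext j
  have := congrFun h j
  simp only [cst] at this
  exact_mod_cast this

/-- the functional as a dot product -/
noncomputable def vec (f : V3 →ₗ[ℤ] ℝ) : Fin 3 → ℝ := fun j => f (Pi.single j 1)

theorem vec_dot (f : V3 →ₗ[ℤ] ℝ) (x : V3) : dotProduct (vec f) (cst x) = f x := by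
  rw [f_basis f x]
  rfl

/-- the lattice points of the closed cone -/
def S0 (v : Fin 3 → (Fin 3 → ℝ)) : Set (Fin 3 → ℝ) :=
  {x : Fin 3 → ℝ | (∃ t : Fin 3 → ℝ, (∀ i, 0 ≤ t i) ∧ x = ∑ i, t i • v i) ∧
    ∃ z : Fin 3 → ℤ, z ≠ 0 ∧ x = fun j => (z j : ℝ)}

def Face (v : Fin 3 → (Fin 3 → ℝ)) (w : Fin 3 → ℝ) (c : ℝ) : Set (Fin 3 → ℝ) :=
  {x ∈ convexHull ℝ (S0 v) | dotProduct w x = c}

theorem dot_combo (w x y : Fin 3 → ℝ) (a b : ℝ) :
    dotProduct w (a • x + b • y) = a * dotProduct w x + b * dotProduct w y := by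
  rw [dotProduct_add, dotProduct_smul, dotProduct_smul, smul_eq_mul, smul_eq_mul]

theorem convex_Face (v : Fin 3 → (Fin 3 → ℝ)) (w : Fin 3 → ℝ) (c : ℝ) : Convex ℝ (Face v w c) := by
  intro x hx y hy a b ha hb hab
  refine ⟨convex_convexHull ℝ (S0 v) hx.1 hy.1 ha hb hab, ?_⟩
  rw [dot_combo, hx.2, hy.2, ← add_mul, hab, one_mul]

theorem extreme_Face {v : Fin 3 → (Fin 3 → ℝ)} {w : Fin 3 → ℝ} {c : ℝ}
    (h : ∀ x ∈ convexHull ℝ (S0 v), c ≤ dotProduct w x) :
    IsExtreme ℝ (convexHull ℝ (S0 v)) (Face v w c) := by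
  refine ⟨fun x hx => hx.1, ?_⟩
  rintro x hx y hy z hz ⟨a, b, ha, hb, hab, rfl⟩
  refine ⟨hx, ?_⟩
  have h1 := h x hx
  have h2 := h y hy
  have h3 := hz.2
  rw [dot_combo] at h3
  have h4 : a * (dotProduct w x - c) + b * (dotProduct w y - c) = 0 := by
    have : a * (dotProduct w x - c) + b * (dotProduct w y - c) =
      (a * dotProduct w x + b * dotProduct w y) - (a + b) * c := by ring
    rw [this, h3, hab, one_mul, sub_self]
  have h5 : 0 ≤ b * (dotProduct w y - c) := mul_nonneg hb.le (by linarith)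
  have h6 : a * (dotProduct w x - c) ≤ 0 := by linarith
  have h7 : dotProduct w x - c ≤ 0 := by
    by_contra hlt
    push Not at hlt
    have := mul_pos ha hlt
    linarith
  linarith

section

variable {A : Matrix (Fin 3) (Fin 3) ℤ} (hA : Irreducible (A.charpoly.map (Int.castRingHom ℚ)))
  {b : Basis (Fin 3) ℝ (Fin 3 → ℝ)} {μ : Fin 3 → ℝ}
  (heig : ∀ i, (A.map (fun a : ℤ => (a : ℝ))).mulVec (b i) = μ i • b i)

include hA heig in
theorem S0_eq : S0 (fun i => b i) = cst '' {z : V3 | ∀ i, 0 < el b i z} := by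
  ext x
  constructor
  · rintro ⟨⟨t, ht, hx⟩, z, hz, hxz⟩
    refine ⟨z, ?_, hxz.symm⟩
    intro i
    have h1 : el b i z = t i := by
      rw [el_apply]
      have : cst z = ∑ i, t i • b i := by rw [← hx, hxz]; rfl
      rw [this, Basis.repr_sum_self]
    have h2 := el_nz hA heig i z hz
    rw [h1] at h2 ⊢
    exact lt_of_le_of_ne (ht i) (Ne.symm h2)
  · rintro ⟨z, hz, rfl⟩
    refine ⟨⟨fun i => el b i z, fun i => (hz i).le, ?_⟩, z, ?_, rfl⟩
    · exact (b.sum_repr (cst z)).symm
    · rintro rfl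
      have := hz 0
      simp at this

theorem finrank_face {v : Fin 3 → (Fin 3 → ℝ)} {f : V3 →ₗ[ℤ] ℝ} {x y z : V3} (hD : D x y z ≠ 0)
    (fx : f x = 1) (hx : cst x ∈ Face v (vec f) 1) (hy : cst y ∈ Face v (vec f) 1)
    (hz : cst z ∈ Face v (vec f) 1) :
    Module.finrank ℝ (vectorSpan ℝ (Face v (vec f) 1)) = 2 := by
  -- the linear form
  let φ : (Fin 3 → ℝ) →ₗ[ℝ] ℝ := {
    toFun := fun t => dotProduct (vec f) t
    map_add' := fun s t => dotProduct_add _ _ _
    map_smul' := fun c t => by rw [dotProduct_smul]; rfl }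
  have φx : ∀ t, φ t = dotProduct (vec f) t := fun _ => rfl
  have hφ : Function.Surjective φ := by
    intro c
    refine ⟨c • cst x, ?_⟩
    rw [map_smul, φx, vec_dot, fx, smul_eq_mul, mul_one]
  have hker : Module.finrank ℝ (LinearMap.ker φ) = 2 := by
    have h1 := LinearMap.finrank_range_add_finrank_ker φ
    rw [LinearMap.range_eq_top.2 hφ, finrank_top, Module.finrank_self] at h1
    simp at h1
    omega
  have hup : vectorSpan ℝ (Face v (vec f) 1) ≤ LinearMap.ker φ := by
    rw [vectorSpan_def, Submodule.span_le]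
    rintro _ ⟨p, hp, q, hq, rfl⟩
    change φ (p - q) = 0
    rw [map_sub, φx, φx, hp.2, hq.2, sub_self]
  have hle : Module.finrank ℝ (vectorSpan ℝ (Face v (vec f) 1)) ≤ 2 := by
    rw [← hker]
    exact Submodule.finrank_mono hup
  have m1 : cst y - cst x ∈ vectorSpan ℝ (Face v (vec f) 1) := vsub_mem_vectorSpan ℝ hy hx
  have m2 : cst z - cst x ∈ vectorSpan ℝ (Face v (vec f) 1) := vsub_mem_vectorSpan ℝ hz hx
  have hli : LinearIndependent ℝ ![cst y - cst x, cst z - cst x] := by
    rw [LinearIndependent.pair_iff]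
    intro s t hst
    have e : ∀ j, s * ((y j : ℝ) - x j) + t * ((z j : ℝ) - x j) = 0 := by
      intro j
      have := congrFun hst j
      simpa [cst] using this
    have e0 := e 0
    have e1 := e 1
    have e2 := e 2
    have hD' : (D x y z : ℝ) ≠ 0 := by exact_mod_cast hD
    have ks : (D x y z : ℝ) * s = 0 := by
      unfold D
      push_cast
      linear_combination (-(x 1 : ℝ) * z 2 + x 2 * z 1) * e0 + ((x 0 : ℝ) * z 2 - x 2 * z 0) * e1 +
        (-(x 0 : ℝ) * z 1 + x 1 * z 0) * e2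
    have kt : (D x y z : ℝ) * t = 0 := by
      unfold D
      push_cast
      linear_combination ((x 1 : ℝ) * y 2 - x 2 * y 1) * e0 + (-(x 0 : ℝ) * y 2 + x 2 * y 0) * e1 +
        ((x 0 : ℝ) * y 1 - x 1 * y 0) * e2
    exact ⟨(mul_eq_zero.1 ks).resolve_left hD', (mul_eq_zero.1 kt).resolve_left hD'⟩
  have hge : 2 ≤ Module.finrank ℝ (vectorSpan ℝ (Face v (vec f) 1)) := by
    have h1 : LinearIndependent ℝ (fun i : Fin 2 => (⟨![cst y - cst x, cst z - cst x] i, by
        fin_cases i
        · exact m1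
        · exact m2⟩ : vectorSpan ℝ (Face v (vec f) 1))) := by
      apply LinearIndependent.of_comp (vectorSpan ℝ (Face v (vec f) 1)).subtype
      exact hli
    have h2 := h1.fintype_card_le_finrank
    simpa using h2
  omega

/-- extreme points are not in the cone of the others -/
theorem nc_of_extreme {v : Fin 3 → (Fin 3 → ℝ)} {f : V3 →ₗ[ℤ] ℝ} {x p q r : V3}
    (hx : cst x ∈ Set.extremePoints ℝ (Face v (vec f) 1)) (hp : cst p ∈ Face v (vec f) 1)
    (hq : cst q ∈ Face v (vec f) 1) (hr : cst r ∈ Face v (vec f) 1) (hxp : x ≠ p) (hxq : x ≠ q)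
    (hxr : x ≠ r) : Sys.NC x p q r := by
  intro n α β γ hn hα hβ hγ he
  have h1 := ((convex_Face v (vec f) 1).mem_extremePoints_iff_mem_sdiff_convexHull_sdiff).1 hx
  apply h1.2
  have fx : f x = 1 := by rw [← vec_dot]; exact h1.1.2
  have fp : f p = 1 := by rw [← vec_dot]; exact hp.2
  have fq : f q = 1 := by rw [← vec_dot]; exact hq.2
  have fr : f r = 1 := by rw [← vec_dot]; exact hr.2
  have hsum : (n : ℝ) = α + β + γ := by
    have := congrArg f he
    rw [map_add, map_add, map_smul, map_smul, map_smul, map_smul, fx, fp, fq, fr] at this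
    simpa using this
  have hn' : (0 : ℝ) < n := by exact_mod_cast hn
  have hα' : (0 : ℝ) ≤ α := by exact_mod_cast hα
  have hβ' : (0 : ℝ) ≤ β := by exact_mod_cast hβ
  have hγ' : (0 : ℝ) ≤ γ := by exact_mod_cast hγ
  have ec : cst x = (α / n : ℝ) • cst p + (β / n : ℝ) • cst q + (γ / n : ℝ) • cst r := by
    have h2 := congrArg cst he
    rw [cst_add, cst_add, cst_smul, cst_smul, cst_smul, cst_smul] at h2
    have h3 : cst x = (n : ℝ)⁻¹ • ((n : ℝ) • cst x) := by
      rw [smul_smul, inv_mul_cancel₀ hn'.ne', one_smul]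
    rw [h3, h2, smul_add, smul_add, smul_smul, smul_smul, smul_smul]
    simp only [div_eq_inv_mul]
  have mem : ∀ {z : V3}, cst z ∈ Face v (vec f) 1 → x ≠ z →
      cst z ∈ convexHull ℝ (Face v (vec f) 1 \ {cst x}) := by
    intro z hz hxz
    apply subset_convexHull
    exact ⟨hz, fun h => hxz (cst_inj h).symm⟩
  have hcv := convex_convexHull ℝ (Face v (vec f) 1 \ {cst x})
  have hs := hcv.sum_mem (t := Finset.univ) (w := ![(α / n : ℝ), β / n, γ / n])
    (z := ![cst p, cst q, cst r]) (by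
      intro i _
      fin_cases i
      · exact div_nonneg hα' hn'.le
      · exact div_nonneg hβ' hn'.le
      · exact div_nonneg hγ' hn'.le) (by
      rw [Fin.sum_univ_three]
      change (α / n : ℝ) + β / n + γ / n = 1
      rw [← add_div, ← add_div, ← hsum, div_self hn'.ne']) (by
      intro i _
      fin_cases i
      · exact mem hp hxp
      · exact mem hq hxq
      · exact mem hr hxr)
  rw [Fin.sum_univ_three] at hs
  have hs' : (α / n : ℝ) • cst p + (β / n : ℝ) • cst q + (γ / n : ℝ) • cst r ∈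
    convexHull ℝ (Face v (vec f) 1 \ {cst x}) := hs
  rw [← ec] at hs'
  exact hs'

/-- four elements of a set with `ncard = 4` -/
theorem four_of_ncard {α : Type*} {s : Set α} (h : s.ncard = 4) :
    ∃ a : Fin 4 → α, Function.Injective a ∧ ∀ i, a i ∈ s := by
  have hfin : s.Finite := Set.finite_of_ncard_ne_zero (by omega)
  have hcard : hfin.toFinset.card = 4 := by
    rw [← h, Set.ncard_eq_toFinset_card s hfin]
  let e := hfin.toFinset.equivFinOfCardEq hcard
  refine ⟨fun i => (e.symm i : α), ?_, ?_⟩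
  · intro i j hij
    exact e.symm.injective (Subtype.ext hij)
  · intro i
    have := (e.symm i).2
    rwa [Set.Finite.mem_toFinset] at this

include hA heig in
theorem no_all_quad (hq : ∀ (w : Fin 3 → ℝ) (c : ℝ), w ≠ 0 →
      (∀ x ∈ convexHull ℝ (S0 (fun i => b i)), c ≤ dotProduct w x) →
      Module.finrank ℝ (vectorSpan ℝ (Face (fun i => b i) w c)) = 2 →
      (Set.extremePoints ℝ (Face (fun i => b i) w c)).ncard = 4) : False := by
  set S : Sys := mkSys hA heig with hS
  apply S.not_int1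
  intro f hf hcon
  obtain ⟨u, v, w, Xu, Xv, Xw, fu, fv, fw, hD⟩ := hcon
  have hS0 := S0_eq hA heig
  have hw0 : vec f ≠ 0 := by
    intro h0
    have := vec_dot f u
    rw [h0, fu, zero_dotProduct] at this
    exact zero_ne_one this
  have hsub : ∀ x ∈ convexHull ℝ (S0 (fun i => b i)), (1 : ℝ) ≤ dotProduct (vec f) x := by
    intro x hx
    have hcvx : Convex ℝ {x : Fin 3 → ℝ | (1 : ℝ) ≤ dotProduct (vec f) x} := by
      intro x hx y hy a b ha hb hab
      change (1 : ℝ) ≤ dotProduct (vec f) (a • x + b • y)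
      rw [dot_combo]
      have hx : (1 : ℝ) ≤ dotProduct (vec f) x := hx
      have hy : (1 : ℝ) ≤ dotProduct (vec f) y := hy
      nlinarith
    refine convexHull_min ?_ hcvx hx
    rw [hS0]
    rintro _ ⟨z, hz, rfl⟩
    change (1 : ℝ) ≤ dotProduct (vec f) (cst z)
    rw [vec_dot]
    exact hf z hz
  have hface : ∀ z, S.X z → f z = 1 → cst z ∈ Face (fun i => b i) (vec f) 1 := by
    intro z hz hfz
    refine ⟨subset_convexHull ℝ _ ?_, ?_⟩
    · rw [hS0]
      exact ⟨z, hz, rfl⟩
    · rw [vec_dot, hfz]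
  have hrank := finrank_face hD fu (hface u Xu fu) (hface v Xv fv) (hface w Xw fw)
  have hcard := hq (vec f) 1 hw0 hsub hrank
  obtain ⟨a, hainj, ha⟩ := four_of_ncard hcard
  -- lift the extreme points to lattice points
  have hlift : ∀ i, ∃ z, S.X z ∧ f z = 1 ∧ cst z = a i := by
    intro i
    have h1 := (extreme_Face hsub).extremePoints_subset_extremePoints (ha i)
    have h2 := extremePoints_convexHull_subset h1
    rw [hS0] at h2
    obtain ⟨z, hz, hza⟩ := h2
    refine ⟨z, hz, ?_, hza⟩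
    rw [← vec_dot, hza]
    exact (extremePoints_subset (ha i)).2
  choose p hpX hpf hpa using hlift
  have hpext : ∀ i, cst (p i) ∈ Set.extremePoints ℝ (Face (fun i => b i) (vec f) 1) := by
    intro i
    rw [hpa]
    exact ha i
  have hpF : ∀ i, cst (p i) ∈ Face (fun i => b i) (vec f) 1 := fun i => hface _ (hpX i) (hpf i)
  have hpne : ∀ i j, i ≠ j → p i ≠ p j := by
    intro i j hij h
    apply hij
    apply hainj
    rw [← hpa, ← hpa, h]
  have hNC : ∀ i j k l, i ≠ j → i ≠ k → i ≠ l → Sys.NC (p i) (p j) (p k) (p l) := by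
    intro i j k l hij hik hil
    exact nc_of_extreme (hpext i) (hpF j) (hpF k) (hpF l) (hpne i j hij) (hpne i k hik) (hpne i l hil)
  exact Sys.int_of_four hf hD fu fv fw (hpX 0) (hpX 1) (hpX 2) (hpX 3) (hpf 0) (hpf 1) (hpf 2) (hpf 3)
    (hNC 0 1 2 3 (by decide) (by decide) (by decide)) (hNC 1 0 2 3 (by decide) (by decide) (by decide))
    (hNC 2 0 1 3 (by decide) (by decide) (by decide)) (hNC 3 0 1 2 (by decide) (by decide) (by decide))

end

end Pool.Agent.H286R2
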