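import Pool.Agent.H286R2.Kap

/-!
Quadrangular faces are at integer distance one.
-/

namespace Pool.Agent.H286R2

namespace Sys

variable {S : Sys}

/-- primitive integral multiple of a functional with a spanning integral contact triple -/
theorem prim {f : V3 →ₗ[ℤ] ℝ} {u v w : V3} (hD : D u v w ≠ 0) (fu : f u = 1) (fv : f v = 1)
    (fw : f w = 1) :
    ∃ (l : V3 →ₗ[ℤ] ℤ) (k : V3) (d : ℤ), 0 < d ∧ l k = 1 ∧ ∀ x, (d : ℝ) * f x = l x := by
  let g : V3 →ₗ[ℤ] ℤ := {
    toFun := fun x => D x v w + D u x w + D u v x
    map_add' := fun x y => by simp only [D, Pi.add_apply]; ring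
    map_smul' := fun c x => by simp only [D, Pi.smul_apply, smul_eq_mul, RingHom.id_apply]; ring }
  have gx : ∀ x, g x = D x v w + D u x w + D u v x := fun x => rfl
  have hfg : ∀ x, (D u v w : ℝ) * f x = g x := by
    intro x
    rw [cramerR, fu, fv, fw, gx]
    push_cast
    ring
  have gu : g u = D u v w := by
    have := hfg u
    rw [fu, mul_one] at this
    exact_mod_cast this.symm
  obtain ⟨c, hc⟩ := (inferInstance : (LinearMap.range g).IsPrincipal)
  have hrange : ∀ x, ∃ m, g x = c * m := by
    intro x
    have : g x ∈ LinearMap.range g := ⟨x, rfl⟩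
    rw [hc, Submodule.mem_span_singleton] at this
    obtain ⟨m, hm⟩ := this
    exact ⟨m, by rw [← hm, smul_eq_mul, mul_comm]⟩
  obtain ⟨k, hk⟩ : ∃ k, g k = c := by
    have : c ∈ LinearMap.range g := by
      rw [hc]; exact Submodule.mem_span_singleton_self c
    exact this
  have hc0 : c ≠ 0 := by
    rintro rfl
    obtain ⟨m, hm⟩ := hrange u
    rw [gu, zero_mul] at hm
    exact hD hm
  choose m hm using hrange
  let l : V3 →ₗ[ℤ] ℤ := {
    toFun := m
    map_add' := fun x y => by
      have := map_add g x y
      rw [hm, hm, hm, ← mul_add] at this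
      exact mul_left_cancel₀ hc0 this
    map_smul' := fun a x => by
      have := map_smul g a x
      rw [hm, hm, smul_eq_mul] at this
      have e : c * m (a • x) = c * (a * m x) := by rw [this]; ring
      exact mul_left_cancel₀ hc0 e }
  have lx : ∀ x, g x = c * l x := hm
  have hlk : l k = 1 := by
    have := lx k
    rw [hk] at this
    have e : c * l k = c * 1 := by rw [← this, mul_one]
    exact mul_left_cancel₀ hc0 e
  have hdc : D u v w = c * l u := by rw [← gu, lx]
  have hlu : l u ≠ 0 := by
    intro h0
    rw [h0, mul_zero] at hdc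
    exact hD hdc
  have hcR : (c : ℝ) ≠ 0 := by exact_mod_cast hc0
  have key : ∀ x, (l u : ℝ) * f x = l x := by
    intro x
    have h1 := hfg x
    rw [hdc, lx] at h1
    push_cast at h1
    have : (c : ℝ) * (l u * f x) = c * l x := by rw [← h1]; ring
    exact mul_left_cancel₀ hcR this
  rcases lt_or_gt_of_ne hlu with h | h
  · refine ⟨-l, -k, -(l u), by omega, by simp [hlk], ?_⟩
    intro x
    have := key x
    simp only [LinearMap.neg_apply]
    push_cast
    linarith
  · exact ⟨l, k, l u, h, hlk, key⟩

/-- strictly convex lattice quadrilateral in the contact set -/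
structure Qd (S : Sys) (l : V3 →ₗ[ℤ] ℤ) (d : ℤ) (A B C E : V3) : Prop where
  XA : S.X A
  XB : S.X B
  XC : S.X C
  XE : S.X E
  lA : l A = d
  lB : l B = d
  lC : l C = d
  lE : l E = d
  abc : 0 < D A B C
  abe : 0 < D A B E
  ace : 0 < D A C E
  bce : 0 < D B C E

theorem Qd.rot {l : V3 →ₗ[ℤ] ℤ} {d : ℤ} {A B C E : V3} (h : Qd S l d A B C E) : Qd S l d B C E A where
  XA := h.XB
  XB := h.XC
  XC := h.XE
  XE := h.XA
  lA := h.lB
  lB := h.lC
  lC := h.lE
  lE := h.lA
  abc := h.bce
  abe := by rw [← D_rot]; exact h.abc
  ace := by rw [← D_rot]; exact h.abe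
  bce := by rw [← D_rot]; exact h.ace

def area (A B C E : V3) : ℤ := D A B C + D A C E

theorem Qd.area_rot {l : V3 →ₗ[ℤ] ℤ} {d : ℤ} (hd : 0 < d) {A B C E : V3} (h : Qd S l d A B C E) :
    area B C E A = area A B C E := by
  have e := cramerZ l A B C E
  rw [h.lA, h.lB, h.lC, h.lE] at e
  have e1 : D E B C = D B C E := by unfold D; ring
  have e2 : D A E C = - D A C E := by unfold D; ring
  have e3 : D B E A = D A B E := by unfold D; ring
  rw [e1, e2] at e
  have : d * (D A B C) = d * (D B C E - D A C E + D A B E) := by linarith
  have := mul_left_cancel₀ hd.ne' this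
  unfold area
  rw [e3]
  linarith

structure MQ (S : Sys) (l : V3 →ₗ[ℤ] ℤ) (d : ℤ) (A B C E : V3) : Prop where
  qd : Qd S l d A B C E
  min : ∀ A' B' C' E', Qd S l d A' B' C' E' → area A B C E ≤ area A' B' C' E'

theorem MQ.rot {l : V3 →ₗ[ℤ] ℤ} {d : ℤ} (hd : 0 < d) {A B C E : V3} (h : MQ S l d A B C E) :
    MQ S l d B C E A where
  qd := h.qd.rot
  min := fun A' B' C' E' h' => by
    rw [h.qd.area_rot hd]
    exact h.min _ _ _ _ h'

theorem exists_MQ {l : V3 →ₗ[ℤ] ℤ} {d : ℤ} {A B C E : V3} (h : Qd S l d A B C E) :
    ∃ A' B' C' E', MQ S l d A' B' C' E' := by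
  classical
  have hpos : ∀ {A B C E : V3}, Qd S l d A B C E → 0 < area A B C E := by
    intro A B C E h
    unfold area
    linarith [h.abc, h.ace]
  let p : ℕ → Prop := fun n => ∃ A B C E, Qd S l d A B C E ∧ area A B C E = n
  have hp : ∃ n, p n := ⟨(area A B C E).toNat, A, B, C, E, h, by
    rw [Int.toNat_of_nonneg (hpos h).le]⟩
  obtain ⟨A', B', C', E', h', ha'⟩ := Nat.find_spec hp
  refine ⟨A', B', C', E', h', ?_⟩
  intro A2 B2 C2 E2 h2
  by_contra hlt
  push Not at hlt
  have : (area A2 B2 C2 E2).toNat < Nat.find hp := by
    have h3 := hpos h2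
    omega
  exact Nat.find_min hp this ⟨A2, B2, C2, E2, h2, by rw [Int.toNat_of_nonneg (hpos h2).le]⟩

theorem D_lin1 {n α β γ : ℤ} {x u v w : V3} (h : n • x = α • u + β • v + γ • w) (p q : V3) :
    n * D x p q = α * D u p q + β * D v p q + γ * D w p q := by
  have e1 : n * D x p q = D (n • x) p q := by
    simp only [D, Pi.smul_apply, smul_eq_mul]; ring
  rw [e1, h]
  simp only [D, Pi.add_apply, Pi.smul_apply, smul_eq_mul]
  ring

theorem D_lin2 {n α β γ : ℤ} {x u v w : V3} (h : n • x = α • u + β • v + γ • w) (p q : V3) :
    n * D p x q = α * D p u q + β * D p v q + γ * D p w q := by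
  have e1 : n * D p x q = D p (n • x) q := by
    simp only [D, Pi.smul_apply, smul_eq_mul]; ring
  rw [e1, h]
  simp only [D, Pi.add_apply, Pi.smul_apply, smul_eq_mul]
  ring

theorem l_lin {n α β γ : ℤ} {x u v w : V3} (h : n • x = α • u + β • v + γ • w) (l : V3 →ₗ[ℤ] ℤ) :
    n * l x = α * l u + β * l v + γ * l w := by
  have := congrArg l h
  simpa only [map_add, map_smul, smul_eq_mul] using this

theorem smul_cancel {n : ℤ} (hn : n ≠ 0) {x y : V3} (h : n • x = n • y) : x = y := by
  have : n • (x - y) = 0 := by rw [smul_sub, h, sub_self]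
  rcases smul_eq_zero.1 this with h | h
  · exact absurd h hn
  · exact sub_eq_zero.1 h

/-- the corner property of minimal quadrilaterals -/
theorem MQ.corner {l : V3 →ₗ[ℤ] ℤ} {d : ℤ} (hd : 0 < d) {A B C E : V3} (h : MQ S l d A B C E)
    {x : V3} {n α β γ : ℤ} (hn : 0 < n) (hα : 0 ≤ α) (hβ : 0 < β) (hγ : 0 ≤ γ)
    (hx : n • x = α • A + β • B + γ • C) (hlx : l x = d) : x = B := by
  have q := h.qd
  have hsum : n = α + β + γ := by
    have := l_lin hx l
    rw [hlx, q.lA, q.lB, q.lC] at this
    have : d * n = d * (α + β + γ) := by linarith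
    exact mul_left_cancel₀ hd.ne' this
  have Xx : S.X x := X_comb q.XA q.XB q.XC hn hα hβ.le hγ hx (by omega)
  have d1 : n * D A x C = β * D A B C := by
    rw [D_lin2 hx, D_self1, D_self2]; ring
  have d2 : n * D A x E = β * D A B E + γ * D A C E := by
    rw [D_lin2 hx, D_self1]; ring
  have d3 : n * D x C E = α * D A C E + β * D B C E := by
    rw [D_lin1 hx, D_self1]; ring
  have habc := q.abc
  have habe := q.abe
  have hace := q.ace
  have hbce := q.bce
  have p1 : 0 < D A x C := by
    have : 0 < n * D A x C := by rw [d1]; positivity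
    exact (mul_pos_iff_of_pos_left hn).1 this
  have p2 : 0 < D A x E := by
    have : 0 < n * D A x E := by rw [d2]; positivity
    exact (mul_pos_iff_of_pos_left hn).1 this
  have p3 : 0 < D x C E := by
    have : 0 < n * D x C E := by rw [d3]; positivity
    exact (mul_pos_iff_of_pos_left hn).1 this
  have hq : Qd S l d A x C E := ⟨q.XA, Xx, q.XC, q.XE, q.lA, hlx, q.lC, q.lE, p1, p2, hace, p3⟩
  have hm := h.min _ _ _ _ hq
  unfold area at hm
  have h1 : D A B C ≤ D A x C := by linarith
  have h2 : n * D A B C ≤ β * D A B C := by
    rw [← d1]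
    exact mul_le_mul_of_nonneg_left h1 hn.le
  have h3 : n ≤ β := le_of_mul_le_mul_right h2 habc
  have hα0 : α = 0 := by omega
  have hγ0 : γ = 0 := by omega
  have hβn : β = n := by omega
  rw [hα0, hγ0, hβn, zero_smul, zero_smul, zero_add, add_zero] at hx
  exact smul_cancel hn.ne' hx

/-- representation of vectors in the kernel of a primitive functional -/
theorem ker_repr {l : V3 →ₗ[ℤ] ℤ} {k e f : V3} (hk : l k = 1) (he : l e = 0) (hf : l f = 0)
    (hD : D k e f = 1) (x : V3) : x = l x • k + D k x f • e + D k e x • f := by
  have h := cramer k e f x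
  rw [hD, one_smul] at h
  have h2 := cramerZ l k e f x
  rw [hD, hk, he, hf] at h2
  have : D x e f = l x := by linarith
  rw [this] at h
  exact h

/-- heights in terms of the kernel -/
theorem D_height {l : V3 →ₗ[ℤ] ℤ} {k e f : V3} (hk : l k = 1) (he : l e = 0) (hf : l f = 0) (x : V3) :
    D x e f = l x * D k e f := by
  have h0 : D (x - l x • k) e f = 0 := by
    apply D_ker l hk _ he hf
    rw [map_sub, map_smul, hk, smul_eq_mul, mul_one, sub_self]
  have : D (x - l x • k) e f = D x e f - l x * D k e f := by
    simp only [D, Pi.sub_apply, Pi.smul_apply, smul_eq_mul]; ring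
  linarith

/-- no lattice parallelogram of unit area at height `≥ 2` -/
theorem no_par {l : V3 →ₗ[ℤ] ℤ} {k : V3} {d : ℤ} (hk : l k = 1) (hd : 2 ≤ d)
    (hX : ∀ x, S.X x → d ≤ l x) {A e f : V3} (hA : S.X A) (hB : S.X (A + e)) (hE : S.X (A + f))
    (hC : S.X (A + e + f)) (lA : l A = d) (he : l e = 0) (hf : l f = 0) (hD : D A e f = d) : False := by
  have hD1 : D k e f = 1 := by
    have := D_height hk he hf A
    rw [hD, lA] at this
    have : d * D k e f = d * 1 := by rw [← this, mul_one]
    exact mul_left_cancel₀ (by omega) this
  have hrep := ker_repr hk he hf hD1 A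
  rw [lA] at hrep
  set a0 := D k A f
  set b0 := D k e A
  -- residues in `(-d, 0]`
  obtain ⟨s, a, hsa, ha1, ha2⟩ : ∃ s a : ℤ, a0 = d * s + a ∧ -d < a ∧ a ≤ 0 := by
    refine ⟨-((-a0) / d), -((-a0) % d), ?_, ?_, ?_⟩
    · have := Int.mul_ediv_add_emod (-a0) d
      linarith
    · have := Int.emod_lt_of_pos (-a0) (show 0 < d by omega)
      omega
    · have := Int.emod_nonneg (-a0) (show d ≠ 0 by omega)
      omega
  obtain ⟨t, b, htb, hb1, hb2⟩ : ∃ s a : ℤ, b0 = d * s + a ∧ -d < a ∧ a ≤ 0 := by
    refine ⟨-((-b0) / d), -((-b0) % d), ?_, ?_, ?_⟩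
    · have := Int.mul_ediv_add_emod (-b0) d
      linarith
    · have := Int.emod_lt_of_pos (-b0) (show 0 < d by omega)
      omega
    · have := Int.emod_nonneg (-b0) (show d ≠ 0 by omega)
      omega
  set k' := k + s • e + t • f with hk'
  have hA' : A = d • k' + a • e + b • f := by
    rw [hrep, hk', hsa, htb]
    simp only [smul_add, add_smul, mul_smul]
    abel
  have hlk' : l k' = 1 := by rw [hk']; simp only [map_add, map_smul, hk, he, hf, smul_eq_mul]; ring
  obtain ⟨a', σ, hσ, hσ0, hσ1⟩ : ∃ a' σ : ℤ, d * a' = (d - 1) * a + σ ∧ 0 ≤ σ ∧ σ ≤ d - 1 := by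
    by_cases h : a = 0
    · exact ⟨0, 0, by rw [h]; ring, le_rfl, by omega⟩
    · exact ⟨a + 1, a + d, by ring, by omega, by omega⟩
  obtain ⟨b', τ, hτ, hτ0, hτ1⟩ : ∃ a' σ : ℤ, d * a' = (d - 1) * b + σ ∧ 0 ≤ σ ∧ σ ≤ d - 1 := by
    by_cases h : b = 0
    · exact ⟨0, 0, by rw [h]; ring, le_rfl, by omega⟩
    · exact ⟨b + 1, b + d, by ring, by omega, by omega⟩
  set q := (d - 1) • k' + a' • e + b' • f with hq
  have hdq : d • q = (d - 1) • A + σ • e + τ • f := by
    have e1 : d • q = (d - 1) • (d • k') + (d * a') • e + (d * b') • f := by
      rw [hq]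
      simp only [smul_add, mul_smul]
      rw [smul_comm d (d - 1) k']
    rw [e1, hσ, hτ, hA']
    simp only [smul_add, add_smul, mul_smul]
    abel
  have hlq : l q = d - 1 := by rw [hq]; simp only [map_add, map_smul, hlk', he, hf, smul_eq_mul]; ring
  have hXq : S.X q := by
    rcases le_total τ σ with h | h
    · apply X_comb hA hB hC (n := d) (α := d - 1 - σ) (β := σ - τ) (γ := τ) (by omega) (by omega)
        (by omega) hτ0 _ (by omega)
      rw [hdq]
      simp only [smul_add, sub_smul]
      abel
    · apply X_comb hA hE hC (n := d) (α := d - 1 - τ) (β := τ - σ) (γ := σ) (by omega) (by omega)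
        (by omega) hσ0 _ (by omega)
      rw [hdq]
      simp only [smul_add, sub_smul]
      abel
  have := hX q hXq
  omega

/-- no lattice diamond at height `≥ 2` -/
theorem no_dia {l : V3 →ₗ[ℤ] ℤ} {k : V3} {d : ℤ} (hk : l k = 1) (hd : 2 ≤ d)
    (hX : ∀ x, S.X x → d ≤ l x) {O e f : V3} (hO : S.X O) (hA : S.X (O + e)) (hB : S.X (O + f))
    (hC : S.X (O - e)) (hE : S.X (O - f)) (lO : l O = d) (he : l e = 0) (hf : l f = 0)
    (hD : D O e f = d) : False := by
  have hD1 : D k e f = 1 := by
    have := D_height hk he hf O
    rw [hD, lO] at this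
    have : d * D k e f = d * 1 := by rw [← this, mul_one]
    exact mul_left_cancel₀ (by omega) this
  have hrep := ker_repr hk he hf hD1 O
  rw [lO] at hrep
  set a0 := D k O f
  set b0 := D k e O
  have hres : ∀ a0 : ℤ, ∃ s a : ℤ, a0 = d * s + a ∧ -d < 2 * a ∧ 2 * a ≤ d := by
    intro a0
    have h1 := Int.mul_ediv_add_emod a0 d
    have h2 := Int.emod_lt_of_pos a0 (show 0 < d by omega)
    have h3 := Int.emod_nonneg a0 (show d ≠ 0 by omega)
    by_cases h : 2 * (a0 % d) ≤ d
    · exact ⟨a0 / d, a0 % d, by linarith, by omega, h⟩
    · exact ⟨a0 / d + 1, a0 % d - d, by linarith, by omega, by omega⟩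
  obtain ⟨s, a, hsa, ha1, ha2⟩ := hres a0
  obtain ⟨t, b, htb, hb1, hb2⟩ := hres b0
  set k' := k + s • e + t • f with hk'
  have hO' : O = d • k' + a • e + b • f := by
    rw [hrep, hk', hsa, htb]
    simp only [smul_add, add_smul, mul_smul]
    abel
  have hlk' : l k' = 1 := by rw [hk']; simp only [map_add, map_smul, hk, he, hf, smul_eq_mul]; ring
  by_cases hab : |a| + |b| ≤ d - 1
  · set q := (d - 1) • k' + a • e + b • f with hq
    have hdq : d • q = (d - 1) • O + a • e + b • f := by
      have e1 : d • q = (d - 1) • (d • k') + (d * a) • e + (d * b) • f := by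
        rw [hq]
        simp only [smul_add, mul_smul]
        rw [smul_comm d (d - 1) k']
      rw [e1, hO']
      simp only [smul_add, sub_smul, one_smul, mul_smul]
      abel
    have hlq : l q = d - 1 := by rw [hq]; simp only [map_add, map_smul, hlk', he, hf, smul_eq_mul]; ring
    have hXq : S.X q := by
      -- choose signs
      rcases le_total 0 a with ha | ha <;> rcases le_total 0 b with hb | hb
      · rw [abs_of_nonneg ha, abs_of_nonneg hb] at hab
        apply X_comb hO hA hB (n := d) (α := d - 1 - a - b) (β := a) (γ := b) (by omega) (by omega)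
          ha hb _ (by omega)
        rw [hdq]
        simp only [smul_add, sub_smul]
        abel
      · rw [abs_of_nonneg ha, abs_of_nonpos hb] at hab
        apply X_comb hO hA hE (n := d) (α := d - 1 - a + b) (β := a) (γ := -b) (by omega) (by omega)
          ha (by omega) _ (by omega)
        rw [hdq]
        simp only [smul_add, sub_smul, add_smul, neg_smul, smul_sub]
        abel
      · rw [abs_of_nonpos ha, abs_of_nonneg hb] at hab
        apply X_comb hO hC hB (n := d) (α := d - 1 + a - b) (β := -a) (γ := b) (by omega) (by omega)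
          (by omega) hb _ (by omega)
        rw [hdq]
        simp only [smul_add, sub_smul, add_smul, neg_smul, smul_sub]
        abel
      · rw [abs_of_nonpos ha, abs_of_nonpos hb] at hab
        apply X_comb hO hC hE (n := d) (α := d - 1 + a + b) (β := -a) (γ := -b) (by omega) (by omega)
          (by omega) (by omega) _ (by omega)
        rw [hdq]
        simp only [sub_smul, add_smul, neg_smul, smul_sub]
        abel
    have := hX q hXq
    omega
  · push Not at hab
    have ha3 : |a| * 2 ≤ d := by
      rcases abs_cases a with h | h <;> omega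
    have hb3 : |b| * 2 ≤ d := by
      rcases abs_cases b with h | h <;> omega
    have ha4 : 2 * a = d := by
      rcases abs_cases a with h | h <;> omega
    have hb4 : 2 * b = d := by
      rcases abs_cases b with h | h <;> omega
    have hab2 : b = a := by omega
    subst hab2
    -- now `b = a`, `d = 2 b`
    set z := (2 : ℤ) • k' + e + f with hz
    have hOz : O = b • z := by
      rw [hO', hz, ← hb4]
      simp only [smul_add, mul_smul]
      rw [smul_comm b (2 : ℤ) k']
    have hb5 : 0 < b := by omega
    have hXz : S.X z := by
      intro i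
      have h1 := hO i
      rw [hOz, map_smul, zsmul_eq_mul] at h1
      exact (mul_pos_iff_of_pos_left (by exact_mod_cast hb5)).1 h1
    have hlz : l z = 2 := by rw [hz]; simp only [map_add, map_smul, hlk', he, hf, smul_eq_mul]; ring
    have h2 := hX z hXz
    have hd2 : d = 2 := by omega
    have hb1' : b = 1 := by omega
    rw [hb1', one_smul] at hOz
    -- four points at height one outside the cone
    have hout : ∀ r : V3, l r = 1 → ∃ i, S.ell i r ≤ 0 := by
      intro r hr
      by_contra hno
      push Not at hno
      have := hX r hno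
      omega
    obtain ⟨i1, h1⟩ := hout k' hlk'
    obtain ⟨i2, h2'⟩ := hout (k' + e) (by rw [map_add, hlk', he, add_zero])
    obtain ⟨i3, h3⟩ := hout (k' + f) (by rw [map_add, hlk', hf, add_zero])
    obtain ⟨i4, h4⟩ := hout (k' + e + f) (by rw [map_add, map_add, hlk', he, hf]; rfl)
    have hbad : ∀ (i : Fin 3) (x y : V3), S.ell i x ≤ 0 → S.ell i y ≤ 0 → S.X (x + y) → False := by
      intro i x y hx hy hxy
      have := hxy i
      rw [map_add] at this
      linarith
    have x12 : S.X (k' + (k' + e)) := by
      have : k' + (k' + e) = O - f := by rw [hOz, hz, two_smul]; abel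
      rw [this]; exact hE
    have x13 : S.X (k' + (k' + f)) := by
      have : k' + (k' + f) = O - e := by rw [hOz, hz, two_smul]; abel
      rw [this]; exact hC
    have x14 : S.X (k' + (k' + e + f)) := by
      have : k' + (k' + e + f) = O := by rw [hOz, hz, two_smul]; abel
      rw [this]; exact hO
    have x23 : S.X ((k' + e) + (k' + f)) := by
      have : (k' + e) + (k' + f) = O := by rw [hOz, hz, two_smul]; abel
      rw [this]; exact hO
    have x24 : S.X ((k' + e) + (k' + e + f)) := by
      have : (k' + e) + (k' + e + f) = O + e := by rw [hOz, hz, two_smul]; abel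
      rw [this]; exact hA
    have x34 : S.X ((k' + f) + (k' + e + f)) := by
      have : (k' + f) + (k' + e + f) = O + f := by rw [hOz, hz, two_smul]; abel
      rw [this]; exact hB
    have hpig : i1 = i2 ∨ i1 = i3 ∨ i1 = i4 ∨ i2 = i3 ∨ i2 = i4 ∨ i3 = i4 := by omega
    rcases hpig with h | h | h | h | h | h
    · subst h; exact hbad _ _ _ h1 h2' x12
    · subst h; exact hbad _ _ _ h1 h3 x13
    · subst h; exact hbad _ _ _ h1 h4 x14
    · subst h; exact hbad _ _ _ h2' h3 x23
    · subst h; exact hbad _ _ _ h2' h4 x24
    · subst h; exact hbad _ _ _ h3 h4 x34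

/-- no strictly convex quadrilateral of contact points at height `≥ 2` -/
theorem no_quad {l : V3 →ₗ[ℤ] ℤ} {k : V3} {d : ℤ} (hk : l k = 1) (hd : 2 ≤ d)
    (hX : ∀ x, S.X x → d ≤ l x) {A B C E : V3} (h0 : Qd S l d A B C E) : False := by
  obtain ⟨A, B, C, E, m⟩ := exists_MQ h0
  have hd0 : 0 < d := by omega
  have q := m.qd
  have m1 := m.rot hd0
  have m2 := m1.rot hd0
  have m3 := m2.rot hd0
  by_cases hO : ∃ (x : V3), l x = d ∧ (∃ n α γ : ℤ, 0 < n ∧ 0 ≤ α ∧ 0 ≤ γ ∧ n • x = α • A + γ • C) ∧
      (∃ n α γ : ℤ, 0 < n ∧ 0 ≤ α ∧ 0 ≤ γ ∧ n • x = α • B + γ • E)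
  · obtain ⟨O, lO, ⟨n, α, γ, hn, hα, hγ, hac⟩, ⟨n', β, ε, hn', hβ, hε, hbe⟩⟩ := hO
    have hac' : n • O = α • A + (0 : ℤ) • B + γ • C := by rw [hac, zero_smul, add_zero]
    have hbe' : n' • O = β • B + (0 : ℤ) • C + ε • E := by rw [hbe, zero_smul, add_zero]
    have XO : S.X O := by
      apply X_comb q.XA q.XB q.XC hn hα le_rfl hγ hac'
      have := l_lin hac' l
      rw [lO, q.lA, q.lB, q.lC] at this
      have : d * n = d * (α + 0 + γ) := by linarith
      have := mul_left_cancel₀ hd0.ne' this
      omega
    -- O is not on the lines of the sides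
    have hαn : n = α + γ := by
      have := l_lin hac' l
      rw [lO, q.lA, q.lB, q.lC] at this
      have : d * n = d * (α + γ) := by linarith
      exact mul_left_cancel₀ hd0.ne' this
    have hβn : n' = β + ε := by
      have := l_lin hbe' l
      rw [lO, q.lB, q.lC, q.lE] at this
      have : d * n' = d * (β + ε) := by linarith
      exact mul_left_cancel₀ hd0.ne' this
    -- determinants
    have oAC : D O A C = 0 := by
      have := D_lin1 hac' A C
      rw [D_self1, D_self3] at this
      have e : n * D O A C = n * 0 := by rw [this]; ring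
      exact mul_left_cancel₀ hn.ne' e
    have oBE : D O B E = 0 := by
      have := D_lin1 hbe' B E
      rw [D_self1, D_self3] at this
      have e : n' * D O B E = n' * 0 := by rw [this]; ring
      exact mul_left_cancel₀ hn'.ne' e
    have habc := q.abc
    have habe := q.abe
    have hace := q.ace
    have hbce := q.bce
    have hbac : D B A C < 0 := by rw [D_swap]; omega
    have oAB : 0 < D O A B := by
      have e1 := D_lin1 hac' A B
      have e2 := D_lin1 hbe' A B
      rw [D_self1, D_self3] at e1
      rw [D_self3] at e2
      have c1 : D C A B = D A B C := by rw [D_rot]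
      have c2 : D E A B = D A B E := by rw [D_rot]
      rw [c1] at e1
      rw [c2] at e2
      have hge : 0 ≤ n * D O A B := by rw [e1]; nlinarith
      have hge2 : 0 ≤ D O A B := by
        by_contra hlt
        push Not at hlt
        nlinarith
      rcases lt_or_eq_of_le hge2 with h | h
      · exact h
      · exfalso
        rw [← h] at e1 e2
        have hγ0 : γ = 0 := by
          by_contra hne
          have : 0 < γ := by omega
          nlinarith
        have hε0 : ε = 0 := by
          by_contra hne
          have : 0 < ε := by omega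
          nlinarith
        have hOA : O = A := by
          apply smul_cancel hn.ne'
          rw [hac, hγ0, hαn, hγ0]; simp
        have hOB : O = B := by
          apply smul_cancel hn'.ne'
          rw [hbe, hε0, hβn, hε0]; simp
        rw [← hOA, ← hOB, D_self1] at habc
        omega
    have oBC : 0 < D O B C := by
      have e1 := D_lin1 hac' B C
      have e2 := D_lin1 hbe' B C
      rw [D_self1, D_self3] at e1
      rw [D_self1, D_self3] at e2
      have c2 : D E B C = D B C E := by rw [D_rot]
      rw [c2] at e2
      have hge : 0 ≤ n * D O B C := by rw [e1]; nlinarith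
      have hge2 : 0 ≤ D O B C := by
        by_contra hlt
        push Not at hlt
        nlinarith
      rcases lt_or_eq_of_le hge2 with h | h
      · exact h
      · exfalso
        rw [← h] at e1 e2
        have hα0 : α = 0 := by
          by_contra hne
          have : 0 < α := by omega
          nlinarith
        have hε0 : ε = 0 := by
          by_contra hne
          have : 0 < ε := by omega
          nlinarith
        have hOC : O = C := by
          apply smul_cancel hn.ne'
          rw [hac, hα0, hαn, hα0]; simp
        have hOB : O = B := by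
          apply smul_cancel hn'.ne'
          rw [hbe, hε0, hβn, hε0]; simp
        rw [← hOC, ← hOB, D_self2] at habc
        omega
    have oEA : 0 < D O E A := by
      have e1 := D_lin1 hac' E A
      have e2 := D_lin1 hbe' E A
      rw [D_self3] at e1
      rw [D_self1] at e2
      have c1 : D C E A = D A C E := by rw [← D_rot]
      have c2 : D B E A = D A B E := by rw [← D_rot]
      rw [c1] at e1
      rw [c2] at e2
      have hge : 0 ≤ n * D O E A := by rw [e1]; nlinarith
      have hge2 : 0 ≤ D O E A := by
        by_contra hlt
        push Not at hlt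
        nlinarith
      rcases lt_or_eq_of_le hge2 with h | h
      · exact h
      · exfalso
        rw [← h] at e1 e2
        have hγ0 : γ = 0 := by
          by_contra hne
          have : 0 < γ := by omega
          nlinarith
        have hβ0 : β = 0 := by
          by_contra hne
          have : 0 < β := by omega
          nlinarith
        have hOA : O = A := by
          apply smul_cancel hn.ne'
          rw [hac, hγ0, hαn, hγ0]; simp
        have hOE : O = E := by
          apply smul_cancel hn'.ne'
          rw [hbe, hβ0, hβn, hβ0]; simp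
        rw [← hOA, ← hOE, D_self3] at hace
        omega
    -- a generic emptiness statement for the triangle `O P Q`
    have tOAB : D O A B = d := by
      apply empty_triangle l hk lO q.lA q.lB hd0 oAB
      intro x N a b c hN ha hb hc hx hlx
      have hsum : N = a + b + c := by
        have := l_lin hx l
        rw [hlx, lO, q.lA, q.lB] at this
        have : d * N = d * (a + b + c) := by linarith
        exact mul_left_cancel₀ hd0.ne' this
      by_cases hc0 : 0 < c
      · right; right
        apply m.corner hd0 (n := n * N) (α := a * α + n * b) (β := n * c) (γ := a * γ) (by positivity)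
          (by positivity) (by positivity) (by positivity) _ hlx
        rw [mul_smul, hx, smul_add, smul_add, smul_comm n a O, hac]
        simp only [smul_add, add_smul, mul_smul]
        abel
      · by_cases hb0 : 0 < b
        · right; left
          apply m3.corner hd0 (n := n' * N) (α := a * ε) (β := n' * b) (γ := a * β + n' * c) (by positivity)
            (by positivity) (by positivity) (by positivity) _ hlx
          rw [mul_smul, hx, smul_add, smul_add, smul_comm n' a O, hbe]
          simp only [smul_add, add_smul, mul_smul]
          abel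
        · left
          have hc00 : c = 0 := by omega
          have hb00 : b = 0 := by omega
          apply smul_cancel hN.ne'
          rw [hx, hc00, hb00, hsum, hc00, hb00]
          simp
    have tOBC : D O B C = d := by
      apply empty_triangle l hk lO q.lB q.lC hd0 oBC
      intro x N a b c hN ha hb hc hx hlx
      have hsum : N = a + b + c := by
        have := l_lin hx l
        rw [hlx, lO, q.lB, q.lC] at this
        have : d * N = d * (a + b + c) := by linarith
        exact mul_left_cancel₀ hd0.ne' this
      by_cases hb0 : 0 < b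
      · right; left
        apply m.corner hd0 (n := n * N) (α := a * α) (β := n * b) (γ := a * γ + n * c) (by positivity)
          (by positivity) (by positivity) (by positivity) _ hlx
        rw [mul_smul, hx, smul_add, smul_add, smul_comm n a O, hac]
        simp only [smul_add, add_smul, mul_smul]
        abel
      · by_cases hc0 : 0 < c
        · right; right
          apply m1.corner hd0 (n := n' * N) (α := a * β + n' * b) (β := n' * c) (γ := a * ε) (by positivity)
            (by positivity) (by positivity) (by positivity) _ hlx
          rw [mul_smul, hx, smul_add, smul_add, smul_comm n' a O, hbe]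
          simp only [smul_add, add_smul, mul_smul]
          abel
        · left
          have hc00 : c = 0 := by omega
          have hb00 : b = 0 := by omega
          apply smul_cancel hN.ne'
          rw [hx, hc00, hb00, hsum, hc00, hb00]
          simp
    have tOEA : D O E A = d := by
      apply empty_triangle l hk lO q.lE q.lA hd0 oEA
      intro x N a b c hN ha hb hc hx hlx
      have hsum : N = a + b + c := by
        have := l_lin hx l
        rw [hlx, lO, q.lE, q.lA] at this
        have : d * N = d * (a + b + c) := by linarith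
        exact mul_left_cancel₀ hd0.ne' this
      by_cases hb0 : 0 < b
      · right; left
        apply m2.corner hd0 (n := n * N) (α := a * γ) (β := n * b) (γ := a * α + n * c) (by positivity)
          (by positivity) (by positivity) (by positivity) _ hlx
        rw [mul_smul, hx, smul_add, smul_add, smul_comm n a O, hac]
        simp only [smul_add, add_smul, mul_smul]
        abel
      · by_cases hc0 : 0 < c
        · right; right
          apply m3.corner hd0 (n := n' * N) (α := a * ε + n' * b) (β := n' * c) (γ := a * β) (by positivity)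
            (by positivity) (by positivity) (by positivity) _ hlx
          rw [mul_smul, hx, smul_add, smul_add, smul_comm n' a O, hbe]
          simp only [smul_add, add_smul, mul_smul]
          abel
        · left
          have hc00 : c = 0 := by omega
          have hb00 : b = 0 := by omega
          apply smul_cancel hN.ne'
          rw [hx, hc00, hb00, hsum, hc00, hb00]
          simp
    -- the diamond
    set e := A - O with he
    set f := B - O with hf
    have le : l e = 0 := by rw [he, map_sub, q.lA, lO, sub_self]
    have lf : l f = 0 := by rw [hf, map_sub, q.lB, lO, sub_self]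
    have hDef : D O e f = d := by
      rw [← tOAB, he, hf]
      simp only [D, Pi.sub_apply]; ring
    have hD1 : D k e f = 1 := by
      have := D_height hk le lf O
      rw [hDef, lO] at this
      have : d * D k e f = d * 1 := by rw [← this, mul_one]
      exact mul_left_cancel₀ (by omega) this
    have hA : A = O + e := by rw [he]; abel
    have hB : B = O + f := by rw [hf]; abel
    have hC : C = O - e := by
      have hr := ker_repr hk le lf hD1 (C - O)
      rw [map_sub, q.lC, lO, sub_self, zero_smul, zero_add] at hr
      set c1 := D k (C - O) f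
      set c2 := D k e (C - O)
      have hC' : C = O + c1 • e + c2 • f := by rw [add_assoc, ← hr]; abel
      have z1 : D O A C = c2 * D O e f := by
        rw [hA, hC']
        simp only [D, Pi.add_apply, Pi.smul_apply, smul_eq_mul]; ring
      have z2 : D O B C = -c1 * D O e f := by
        rw [hB, hC']
        simp only [D, Pi.add_apply, Pi.smul_apply, smul_eq_mul]; ring
      rw [oAC, hDef] at z1
      rw [tOBC, hDef] at z2
      have hc2 : c2 = 0 := by
        rcases mul_eq_zero.1 z1.symm with h | h
        · exact h
        · omega
      have hc1 : c1 = -1 := by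
        have : d * (-c1) = d * 1 := by linarith
        have := mul_left_cancel₀ hd0.ne' this
        omega
      rw [hC', hc1, hc2]; simp [sub_eq_add_neg]
    have hE : E = O - f := by
      have hr := ker_repr hk le lf hD1 (E - O)
      rw [map_sub, q.lE, lO, sub_self, zero_smul, zero_add] at hr
      set c1 := D k (E - O) f
      set c2 := D k e (E - O)
      have hC' : E = O + c1 • e + c2 • f := by rw [add_assoc, ← hr]; abel
      have z1 : D O B E = -c1 * D O e f := by
        rw [hB, hC']
        simp only [D, Pi.add_apply, Pi.smul_apply, smul_eq_mul]; ring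
      have z2 : D O E A = -c2 * D O e f := by
        rw [hA, hC']
        simp only [D, Pi.add_apply, Pi.smul_apply, smul_eq_mul]; ring
      rw [oBE, hDef] at z1
      rw [tOEA, hDef] at z2
      have hc2 : c1 = 0 := by
        rcases mul_eq_zero.1 z1.symm with h | h
        · omega
        · omega
      have hc1 : c2 = -1 := by
        have : d * (-c2) = d * 1 := by linarith
        have := mul_left_cancel₀ hd0.ne' this
        omega
      rw [hC', hc1, hc2]; simp [sub_eq_add_neg]
    exact no_dia hk hd hX XO (by rw [← hA]; exact q.XA) (by rw [← hB]; exact q.XB)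
      (by rw [← hC]; exact q.XC) (by rw [← hE]; exact q.XE) lO le lf hDef
  · -- no interior point: all four triangles are empty
    have hempty : ∀ {A B C E : V3}, MQ S l d A B C E → MQ S l d B C E A → MQ S l d E A B C →
        (¬ ∃ (x : V3), l x = d ∧ (∃ n α γ : ℤ, 0 < n ∧ 0 ≤ α ∧ 0 ≤ γ ∧ n • x = α • A + γ • C) ∧
          (∃ n α γ : ℤ, 0 < n ∧ 0 ≤ α ∧ 0 ≤ γ ∧ n • x = α • B + γ • E)) → D A B C = d := by
      intro A B C E m m1 m3 hno
      have q := m.qd
      apply empty_triangle l hk q.lA q.lB q.lC hd0 q.abc
      intro x N a b c hN ha hb hc hx hlx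
      have hsum : N = a + b + c := by
        have := l_lin hx l
        rw [hlx, q.lA, q.lB, q.lC] at this
        have : d * N = d * (a + b + c) := by linarith
        exact mul_left_cancel₀ hd0.ne' this
      by_cases hb0 : 0 < b
      · right; left
        exact m.corner hd0 hN ha hb0 hc hx hlx
      · have hb00 : b = 0 := by omega
        rw [hb00, zero_smul, add_zero] at hx
        -- position with respect to the diagonal `B E`
        -- relation between the four points
        have habc := q.abc
        have habe := q.abe
        have hace := q.ace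
        have hbce := q.bce
        have hcr := cramer A B C E
        have e1 : D E B C = D B C E := by rw [D_rot]
        have e2 : D A E C = - D A C E := by rw [D_swap']
        rw [e1, e2] at hcr
        -- P A + R C = Q B + T E
        have hrel : D B C E • A + D A B E • C = D A C E • B + D A B C • E := by
          rw [hcr]
          simp only [neg_smul]
          abel
        set P := D B C E
        set R := D A B E
        set Q := D A C E
        set T := D A B C
        by_cases hcmp : a * R ≤ c * P
        · -- x in the triangle B, C, E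
          by_cases ha0 : a = 0
          · right; right
            apply smul_cancel hN.ne'
            rw [hx, hsum, hb00, ha0]; simp
          · have haP : 0 < a := by omega
            rcases lt_or_eq_of_le hcmp with hlt | heq
            · right; right
              apply m1.corner hd0 (n := P * N) (α := a * Q) (β := c * P - a * R) (γ := a * T)
                (by positivity) (by positivity) (by omega) (by positivity) _ hlx
              have : P • (a • A + c • C) = a • (P • A + R • C) + (c * P - a * R) • C := by
                rw [smul_add, smul_add, smul_comm P a A, sub_smul, mul_smul, mul_smul,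
                  smul_comm c P C]
                abel
              rw [mul_smul, hx, this, hrel]
              simp only [smul_add, mul_smul]
              abel
            · exfalso
              apply hno
              refine ⟨x, hlx, ⟨N, a, c, hN, ha, hc, hx⟩, P * N, a * Q, a * T, by positivity,
                by positivity, by positivity, ?_⟩
              have : P • (a • A + c • C) = a • (P • A + R • C) := by
                simp only [smul_add, smul_smul]
                rw [mul_comm P a, mul_comm P c, heq]
              rw [mul_smul, hx, this, hrel]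
              simp only [smul_add, mul_smul]
        · push Not at hcmp
          -- x in the triangle E, A, B
          by_cases hc0 : c = 0
          · left
            apply smul_cancel hN.ne'
            rw [hx, hsum, hb00, hc0]; simp
          · have hcP : 0 < c := by omega
            left
            apply m3.corner hd0 (n := R * N) (α := c * T) (β := a * R - c * P) (γ := c * Q)
              (by positivity) (by positivity) (by omega) (by positivity) _ hlx
            have : R • (a • A + c • C) = c • (P • A + R • C) + (a * R - c * P) • A := by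
              rw [smul_add, smul_add, smul_comm R c C, sub_smul, mul_smul, mul_smul,
                smul_comm a R A]
              abel
            rw [mul_smul, hx, this, hrel]
            simp only [smul_add, mul_smul]
            abel
    have t1 : D A B C = d := hempty m m1 m3 hO
    have hO' : ¬ ∃ (x : V3), l x = d ∧ (∃ n α γ : ℤ, 0 < n ∧ 0 ≤ α ∧ 0 ≤ γ ∧ n • x = α • B + γ • E) ∧
        (∃ n α γ : ℤ, 0 < n ∧ 0 ≤ α ∧ 0 ≤ γ ∧ n • x = α • C + γ • A) := by
      rintro ⟨x, hlx, h1, ⟨n, α, γ, hn, hα, hγ, h2⟩⟩
      exact hO ⟨x, hlx, ⟨n, γ, α, hn, hγ, hα, by rw [h2]; abel⟩, h1⟩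
    have hO2 : ¬ ∃ (x : V3), l x = d ∧ (∃ n α γ : ℤ, 0 < n ∧ 0 ≤ α ∧ 0 ≤ γ ∧ n • x = α • C + γ • A) ∧
        (∃ n α γ : ℤ, 0 < n ∧ 0 ≤ α ∧ 0 ≤ γ ∧ n • x = α • E + γ • B) := by
      rintro ⟨x, hlx, ⟨n, α, γ, hn, hα, hγ, h2⟩, ⟨n', α', γ', hn', hα', hγ', h2'⟩⟩
      exact hO ⟨x, hlx, ⟨n, γ, α, hn, hγ, hα, by rw [h2]; abel⟩,
        ⟨n', γ', α', hn', hγ', hα', by rw [h2']; abel⟩⟩
    have hO3 : ¬ ∃ (x : V3), l x = d ∧ (∃ n α γ : ℤ, 0 < n ∧ 0 ≤ α ∧ 0 ≤ γ ∧ n • x = α • E + γ • B) ∧
        (∃ n α γ : ℤ, 0 < n ∧ 0 ≤ α ∧ 0 ≤ γ ∧ n • x = α • A + γ • C) := by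
      rintro ⟨x, hlx, ⟨n, α, γ, hn, hα, hγ, h2⟩, h3⟩
      exact hO ⟨x, hlx, h3, ⟨n, γ, α, hn, hγ, hα, by rw [h2]; abel⟩⟩
    have t2 : D B C E = d := hempty m1 m2 m hO'
    have t3 : D C E A = d := hempty m2 m3 m1 hO2
    have t4 : D E A B = d := hempty m3 m m2 hO3
    -- parallelogram
    have hcr := cramer A B C E
    have e1 : D E B C = d := by rw [← t2, D_rot]
    have e2 : D A E C = - d := by rw [← t3]; unfold D; ring
    have e3 : D A B E = d := by rw [← t4, ← D_rot]
    rw [t1, e1, e2, e3] at hcr
    have hpar : E = A - B + C := by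
      apply smul_cancel hd0.ne'
      rw [hcr, smul_add, smul_sub]
      simp only [neg_smul]
      abel
    set e := B - A with he
    set f := E - A with hf
    have hB : B = A + e := by rw [he]; abel
    have hE : E = A + f := by rw [hf]; abel
    have hC : C = A + e + f := by rw [he, hf, hpar]; abel
    apply no_par hk hd hX q.XA (by rw [← hB]; exact q.XB) (by rw [← hE]; exact q.XE)
      (by rw [← hC]; exact q.XC) q.lA (by rw [he, map_sub, q.lB, q.lA, sub_self])
      (by rw [hf, map_sub, q.lE, q.lA, sub_self])
    rw [← e3, he, hf]
    simp only [D, Pi.sub_apply]; ring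

end Sys

end Pool.Agent.H286R2
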