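import Pool.Agent.H286R2.Darts

/-!
Global counting modulo the group: the integral case is impossible.
-/

namespace Pool.Agent.H286R2

theorem sum_inv {A : Type*} {P : A → Prop} {r : A → A → Prop} (hsymm : ∀ a b, r a b → r b a)
    (htrans : ∀ a b c, r a b → r b c → r a c) {E : Finset A} (hEP : ∀ e ∈ E, P e)
    (hex : ∀ a, P a → ∃ e ∈ E, r a e) (hun : ∀ e ∈ E, ∀ e' ∈ E, r e e' → e = e')
    (F : A → ℤ) (hF : ∀ a b, P a → r a b → F a = F b) (ψ ψ' : A → A)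
    (hP : ∀ a, P a → P (ψ a)) (hP' : ∀ a, P a → P (ψ' a)) (h1 : ∀ a, P a → ψ' (ψ a) = a)
    (h2 : ∀ a, P a → ψ (ψ' a) = a) (hr : ∀ a b, P a → r a b → r (ψ a) (ψ b))
    (hr' : ∀ a b, P a → r a b → r (ψ' a) (ψ' b)) :
    ∑ e ∈ E, F (ψ e) = ∑ e ∈ E, F e := by
  classical
  have hch : ∀ a, ∃ e, P a → e ∈ E ∧ r a e := by
    intro a
    by_cases h : P a
    · obtain ⟨e, he, hre⟩ := hex a h
      exact ⟨e, fun _ => ⟨he, hre⟩⟩
    · exact ⟨a, fun h' => absurd h' h⟩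
  choose ρ hρ using hch
  refine Finset.sum_bij' (fun e _ => ρ (ψ e)) (fun e _ => ρ (ψ' e)) ?_ ?_ ?_ ?_ ?_
  · intro e he
    exact (hρ _ (hP e (hEP e he))).1
  · intro e he
    exact (hρ _ (hP' e (hEP e he))).1
  · intro e he
    have pe := hEP e he
    have k1 := hρ _ (hP e pe)
    have k2 := hρ _ (hP' _ (hEP _ k1.1))
    have k3 := hr' _ _ (hP e pe) k1.2
    rw [h1 e pe] at k3
    exact (hun _ he _ k2.1 (htrans _ _ _ k3 k2.2)).symm
  · intro e he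
    have pe := hEP e he
    have k1 := hρ _ (hP' e pe)
    have k2 := hρ _ (hP _ (hEP _ k1.1))
    have k3 := hr _ _ (hP' e pe) k1.2
    rw [h2 e pe] at k3
    exact (hun _ he _ k2.1 (htrans _ _ _ k3 k2.2)).symm
  · intro e he
    have pe := hEP e he
    exact hF _ _ (hP e pe) (hρ _ (hP e pe)).2

namespace Sys

variable {S : Sys}

theorem co_lin (a : Fin 3 → ℝ) (j : Fin 3) (f : V3 →ₗ[ℤ] ℝ)
    (h : ∀ x, f x = ∑ i, a i * S.ell i x) : S.c f j = a j := by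
  have e : f = a 0 • S.ell 0 + a 1 • S.ell 1 + a 2 • S.ell 2 := by
    apply LinearMap.ext
    intro x
    rw [h x, Fin.sum_univ_three]
    rfl
  change co S.y f j = a j
  rw [e, co_add, co_add, co_smul, co_smul, co_smul, S.dual, S.dual, S.dual]
  fin_cases j <;> simp

theorem X_gam {γ : V3 ≃ₗ[ℤ] V3} (hγ : γ ∈ S.Γ) {x : V3} : S.X (γ x) ↔ S.X x := by
  obtain ⟨g, hg, he⟩ := S.Γell γ hγ
  constructor
  · intro h i
    have := h i
    rw [he] at this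
    exact (pos_iff_pos_of_mul_pos this).1 (hg i)
  · intro h i
    rw [he]
    exact mul_pos (hg i) (h i)

theorem X_gam' {γ : V3 ≃ₗ[ℤ] V3} (hγ : γ ∈ S.Γ) {x : V3} : S.X (γ.symm x) ↔ S.X x := by
  have := X_gam hγ (x := γ.symm x)
  rw [γ.apply_symm_apply] at this
  exact this.symm

theorem c_gam {γ : V3 ≃ₗ[ℤ] V3} {g : Fin 3 → ℝ} (hg : ∀ i, 0 < g i)
    (he : ∀ i x, S.ell i (γ x) = g i * S.ell i x) {f f' : V3 →ₗ[ℤ] ℝ} (hf : ∀ x, f' x = f (γ.symm x))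
    (i : Fin 3) : S.c f' i = S.c f i / g i := by
  apply co_lin (S := S) (fun i => S.c f i / g i)
  intro x
  rw [hf, S.expand f]
  apply Finset.sum_congr rfl
  intro i _
  have h1 := he i (γ.symm x)
  rw [γ.apply_symm_apply] at h1
  have := (hg i).ne'
  rw [h1]
  field_simp

theorem q_gam {κ : ℝ} {γ : V3 ≃ₗ[ℤ] V3} (hγ : γ ∈ S.Γ) (l : V3 →ₗ[ℤ] ℤ) (x z : V3) :
    S.q κ (l ∘ₗ (γ.symm : V3 →ₗ[ℤ] V3)) (γ x) (γ z) = S.q κ l x z := by
  obtain ⟨g, hg, he⟩ := S.Γell γ hγ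
  have hc := fun i => c_gam (S := S) hg he (f := toR l) (f' := toR (l ∘ₗ (γ.symm : V3 →ₗ[ℤ] V3)))
    (fun x => rfl) i
  unfold q
  rw [hc, hc, he, he, he, he]
  have h0 := (hg 0).ne'
  have h1 := (hg 1).ne'
  field_simp

theorem q_gam' {κ : ℝ} {γ : V3 ≃ₗ[ℤ] V3} (hγ : γ ∈ S.Γ) (l : V3 →ₗ[ℤ] ℤ) (x z : V3) :
    S.q κ (l ∘ₗ (γ.symm : V3 →ₗ[ℤ] V3)) x z = S.q κ l (γ.symm x) (γ.symm z) := by
  rw [← q_gam hγ l (γ.symm x) (γ.symm z), γ.apply_symm_apply, γ.apply_symm_apply]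

theorem IsCell.gam {κ : ℝ} {γ : V3 ≃ₗ[ℤ] V3} (hγ : γ ∈ S.Γ) {l : V3 →ₗ[ℤ] ℤ} {τ : V3 →ₗ[ℤ] ℝ}
    {u v w : V3} (h : S.IsCell κ l τ u v w) :
    S.IsCell κ (l ∘ₗ (γ.symm : V3 →ₗ[ℤ] V3)) (τ ∘ₗ (γ.symm : V3 →ₗ[ℤ] V3)) (γ u) (γ v) (γ w) where
  supp := fun x hx => h.supp _ ((X_gam' hγ).2 hx)
  Xu := (X_gam hγ).2 h.Xu
  Xv := (X_gam hγ).2 h.Xv
  Xw := (X_gam hγ).2 h.Xw
  lu := by
    change l (γ.symm (γ u)) = 1
    rw [γ.symm_apply_apply, h.lu]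
  lv := by
    change l (γ.symm (γ v)) = 1
    rw [γ.symm_apply_apply, h.lv]
  lw := by
    change l (γ.symm (γ w)) = 1
    rw [γ.symm_apply_apply, h.lw]
  det := by rw [S.ΓD γ hγ, h.det]
  le := fun x hx hlx => by
    rw [q_gam' hγ]
    exact h.le _ ((X_gam' hγ).2 hx) hlx
  con := fun x hx hlx ht => by
    rw [q_gam' hγ] at ht
    rcases h.con _ ((X_gam' hγ).2 hx) hlx ht with h1 | h1 | h1
    · exact Or.inl (by rw [← h1, γ.apply_symm_apply])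
    · exact Or.inr (Or.inl (by rw [← h1, γ.apply_symm_apply]))
    · exact Or.inr (Or.inr (by rw [← h1, γ.apply_symm_apply]))
  tu := by
    rw [q_gam' hγ, γ.symm_apply_apply]
    change τ (γ.symm (γ u)) = _
    rw [γ.symm_apply_apply, h.tu]
  tv := by
    rw [q_gam' hγ, γ.symm_apply_apply]
    change τ (γ.symm (γ v)) = _
    rw [γ.symm_apply_apply, h.tv]
  tw := by
    rw [q_gam' hγ, γ.symm_apply_apply]
    change τ (γ.symm (γ w)) = _
    rw [γ.symm_apply_apply, h.tw]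

theorem dart_gam {κ : ℝ} {γ : V3 ≃ₗ[ℤ] V3} (hγ : γ ∈ S.Γ) {v a : V3} (h : S.IsDart κ v a) :
    S.IsDart κ (γ v) (γ a) := by
  obtain ⟨l, τ, b, hc⟩ := h
  exact ⟨_, _, _, hc.gam hγ⟩

theorem lt_gam {κ : ℝ} {γ : V3 ≃ₗ[ℤ] V3} (hγ : γ ∈ S.Γ) {v a : V3} (h : S.IsDart κ v a) :
    S.lt κ (γ v) (γ a) = γ (S.lt κ v a) := by
  obtain ⟨l, τ, hc⟩ := lt_spec h
  exact lt_eq (hc.gam hγ)

theorem bt_gam {κ : ℝ} (hκ : S.Gen κ) (H : S.Int1) {γ : V3 ≃ₗ[ℤ] V3} (hγ : γ ∈ S.Γ) {v a : V3}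
    (h : S.IsDart κ v a) : S.bt κ (γ v) (γ a) = S.bt κ v a := by
  unfold bt
  rw [lt_gam hγ h, lt_gam hγ (dart_symm hκ H h), S.ΓD γ hγ]

theorem sg_gam {γ : V3 ≃ₗ[ℤ] V3} (hγ : γ ∈ S.Γ) (v a : V3) :
    0 < S.sg (γ v) (γ a) ↔ 0 < S.sg v a := by
  obtain ⟨g, hg, he⟩ := S.Γell γ hγ
  have := c_gam (S := S) hg he (f := toR (Dl v a)) (f' := toR (Dl (γ v) (γ a)))
    (fun x => by
      rw [toR_apply, toR_apply, Dl_apply, Dl_apply]
      rw [← S.ΓD γ hγ v a, γ.apply_symm_apply]) 2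
  unfold sg
  rw [this]
  constructor
  · intro h
    exact (pos_iff_pos_of_mul_pos (by rwa [div_eq_mul_inv] at h)).2 (inv_pos.2 (hg 2))
  · intro h
    exact div_pos h (hg 2)

theorem inw_gam {γ : V3 ≃ₗ[ℤ] V3} (hγ : γ ∈ S.Γ) (v a : V3) : S.inw (γ v) (γ a) = S.inw v a := by
  unfold inw
  simp only [sg_gam hγ]

theorem mark_gam {κ : ℝ} {γ : V3 ≃ₗ[ℤ] V3} (hγ : γ ∈ S.Γ) {v a : V3}
    (h : S.IsDart κ v a) : S.mark κ (γ v) (γ a) = S.mark κ v a := by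
  unfold mark
  rw [lt_gam hγ h]
  simp only [sg_gam hγ]

/-- the group acts freely -/
theorem free {γ : V3 ≃ₗ[ℤ] V3} (hγ : γ ∈ S.Γ) {v : V3} (hv : v ≠ 0) (h : γ v = v) (x : V3) :
    γ x = x := by
  obtain ⟨g, hg, he⟩ := S.Γell γ hγ
  have h1 := he 0 v
  rw [h] at h1
  have hn := S.nz 0 v hv
  have hg1 : g 0 = 1 := by
    have : (g 0 - 1) * S.ell 0 v = 0 := by linarith
    rcases mul_eq_zero.1 this with h | h
    · linarith
    · exact absurd h hn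
  by_contra hne
  have h2 := S.nz 0 (γ x - x) (sub_ne_zero.2 hne)
  rw [map_sub, he, hg1, one_mul, sub_self] at h2
  exact h2 rfl

theorem main_sum {κ : ℝ} (hκ : S.Gen κ) (H : S.Int1) : False := by
  classical
  obtain ⟨B, hB⟩ := S.norm_bd
  obtain ⟨F, hF⟩ := S.orb B
  -- the relation on vertices
  let st : Setoid V3 := {
    r := fun v w => ∃ γ ∈ S.Γ, γ v = w
    iseqv := ⟨fun v => ⟨1, S.Γ.one_mem, rfl⟩,
      fun {v w} ⟨γ, hγ, h⟩ => ⟨γ⁻¹, S.Γ.inv_mem hγ, by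
        rw [← h]
        exact γ.symm_apply_apply v⟩,
      fun {u v w} ⟨γ, hγ, h⟩ ⟨γ', hγ', h'⟩ => ⟨γ' * γ, S.Γ.mul_mem hγ' hγ, by
        rw [← h', ← h]; rfl⟩⟩ }
  let rep : V3 → V3 := fun v => (Quotient.mk st v).out
  have hrep : ∀ v, ∃ γ ∈ S.Γ, γ v = rep v := fun v => st.symm (Quotient.mk_out (s := st) v)
  have hrepeq : ∀ v w, (∃ γ ∈ S.Γ, γ v = w) → rep v = rep w := by
    intro v w h
    change (Quotient.mk st v).out = (Quotient.mk st w).out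
    rw [Quotient.sound (s := st) h]
  let R : V3 → Finset V3 := fun v => (nbr_fin (S := S) κ v).toFinset
  have hR : ∀ v a, a ∈ R v ↔ S.IsDart κ v a := by
    intro v a
    change a ∈ (nbr_fin (S := S) κ v).toFinset ↔ _
    rw [Set.Finite.mem_toFinset]
    rfl
  let T : Finset V3 := (F.filter fun v => ∃ a, S.IsDart κ v a).image rep
  have hT : ∀ v, v ∈ T ↔ ∃ x ∈ F, (∃ a, S.IsDart κ x a) ∧ rep x = v := by
    intro v
    change v ∈ (F.filter fun v => ∃ a, S.IsDart κ v a).image rep ↔ _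
    rw [Finset.mem_image]
    constructor
    · rintro ⟨x, hx, rfl⟩
      rw [Finset.mem_filter] at hx
      exact ⟨x, hx.1, hx.2, rfl⟩
    · rintro ⟨x, hx, h2, h3⟩
      exact ⟨x, by rw [Finset.mem_filter]; exact ⟨hx, h2⟩, h3⟩
  have hTne : ∀ v ∈ T, (R v).Nonempty := by
    intro v hv
    obtain ⟨x, hx, ⟨a, ha⟩, rfl⟩ := (hT v).1 hv
    obtain ⟨γ, hγ, h⟩ := hrep x
    refine ⟨γ a, (hR _ _).2 ?_⟩
    rw [← h]
    exact dart_gam hγ ha
  let E : Finset (V3 × V3) := T.biUnion fun v => (R v).image fun a => (v, a)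
  have hE : ∀ p : V3 × V3, p ∈ E ↔ p.1 ∈ T ∧ p.2 ∈ R p.1 := by
    rintro ⟨v, a⟩
    change (v, a) ∈ T.biUnion (fun v => (R v).image fun a => (v, a)) ↔ _
    rw [Finset.mem_biUnion]
    constructor
    · rintro ⟨w, hw, h⟩
      rw [Finset.mem_image] at h
      obtain ⟨b, hb, h⟩ := h
      rw [Prod.mk.injEq] at h
      obtain ⟨rfl, rfl⟩ := h
      exact ⟨hw, hb⟩
    · rintro ⟨h1, h2⟩
      exact ⟨v, h1, by rw [Finset.mem_image]; exact ⟨a, h2, rfl⟩⟩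
  let P : V3 × V3 → Prop := fun p => S.IsDart κ p.1 p.2
  let r : V3 × V3 → V3 × V3 → Prop := fun p p' => ∃ γ ∈ S.Γ, γ p.1 = p'.1 ∧ γ p.2 = p'.2
  have hsymm : ∀ a b, r a b → r b a := by
    rintro a b ⟨γ, hγ, h1, h2⟩
    refine ⟨γ⁻¹, S.Γ.inv_mem hγ, ?_, ?_⟩
    · rw [← h1]; exact γ.symm_apply_apply _
    · rw [← h2]; exact γ.symm_apply_apply _
  have htrans : ∀ a b c, r a b → r b c → r a c := by
    rintro a b c ⟨γ, hγ, h1, h2⟩ ⟨γ', hγ', h1', h2'⟩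
    refine ⟨γ' * γ, S.Γ.mul_mem hγ' hγ, ?_, ?_⟩
    · rw [← h1', ← h1]; rfl
    · rw [← h2', ← h2]; rfl
  have hEP : ∀ e ∈ E, P e := fun e he => (hR _ _).1 ((hE e).1 he).2
  have hex : ∀ a, P a → ∃ e ∈ E, r a e := by
    rintro ⟨v, a⟩ hp
    have hp : S.IsDart κ v a := hp
    have hvX : S.X v := by
      obtain ⟨l, τ, b, hc⟩ := hp
      exact hc.Xu
    obtain ⟨γ, hγ, hm⟩ := hF v hvX (hB κ v a hp)
    obtain ⟨γ', hγ', h'⟩ := hrep (γ v)
    refine ⟨(γ' (γ v), γ' (γ a)), ?_, γ' * γ, S.Γ.mul_mem hγ' hγ, rfl, rfl⟩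
    rw [hE]
    refine ⟨?_, ?_⟩
    · rw [hT]
      exact ⟨γ v, hm, ⟨γ a, dart_gam hγ hp⟩, h'.symm⟩
    · rw [hR]
      exact dart_gam hγ' (dart_gam hγ hp)
  have hun : ∀ e ∈ E, ∀ e' ∈ E, r e e' → e = e' := by
    rintro ⟨v, a⟩ he ⟨v', a'⟩ he' ⟨γ, hγ, h1, h2⟩
    have h1 : γ v = v' := h1
    have h2 : γ a = a' := h2
    have he1 := ((hE _).1 he).1
    have he1' := ((hE _).1 he').1
    have hd : S.IsDart κ v a := hEP _ he
    obtain ⟨x, hx, -, hxv⟩ := (hT _).1 he1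
    obtain ⟨x', hx', -, hxv'⟩ := (hT _).1 he1'
    have hxv : rep x = v := hxv
    have hxv' : rep x' = v' := hxv'
    have e1 : rep x = rep v := by
      obtain ⟨γ0, hγ0, h0⟩ := hrep x
      exact hrepeq x v ⟨γ0, hγ0, by rw [h0, hxv]⟩
    have e2 : rep x' = rep v' := by
      obtain ⟨γ0, hγ0, h0⟩ := hrep x'
      exact hrepeq x' v' ⟨γ0, hγ0, by rw [h0, hxv']⟩
    have e3 : rep v = rep v' := hrepeq v v' ⟨γ, hγ, h1⟩
    have e4 : v = v' := by rw [← hxv, ← hxv', e1, e2, e3]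
    have hv0 : v ≠ 0 := by
      obtain ⟨l, τ, b, hc⟩ := hd
      exact X_ne_zero hc.Xu
    have hf := free hγ hv0 (by rw [h1, e4]) a
    rw [Prod.mk.injEq]
    exact ⟨e4, by rw [← h2, hf]⟩
  -- the three bijections
  let sw : V3 × V3 → V3 × V3 := fun p => (p.2, p.1)
  let ro : V3 × V3 → V3 × V3 := fun p => (p.2, S.lt κ p.1 p.2)
  have swP : ∀ a, P a → P (sw a) := fun a h => dart_symm hκ H h
  have roP : ∀ a, P a → P (ro a) := fun a h => dart_rot h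
  have swsw : ∀ a, P a → sw (sw a) = a := fun a _ => rfl
  have rorr : ∀ a, P a → ro (ro (ro a)) = a := by
    rintro ⟨v, a⟩ h
    change (S.lt κ a (S.lt κ v a), S.lt κ (S.lt κ v a) (S.lt κ a (S.lt κ v a))) = (v, a)
    rw [lt_rot h, lt_rot' h]
  have swr : ∀ a b, P a → r a b → r (sw a) (sw b) := by
    rintro a b _ ⟨γ, hγ, h1, h2⟩
    exact ⟨γ, hγ, h2, h1⟩
  have ror : ∀ a b, P a → r a b → r (ro a) (ro b) := by
    rintro ⟨v, a⟩ ⟨v', a'⟩ h ⟨γ, hγ, h1, h2⟩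
    refine ⟨γ, hγ, h2, ?_⟩
    change γ (S.lt κ v a) = S.lt κ v' a'
    have h1 : γ v = v' := h1
    have h2 : γ a = a' := h2
    rw [← lt_gam hγ h, h1, h2]
  have Psym : ∀ a b, P a → r a b → P b := by
    rintro ⟨v, a⟩ ⟨v', a'⟩ h ⟨γ, hγ, h1, h2⟩
    have h1 : γ v = v' := h1
    have h2 : γ a = a' := h2
    change S.IsDart κ v' a'
    rw [← h1, ← h2]
    exact dart_gam hγ h
  have Ssw : ∀ G : V3 × V3 → ℤ, (∀ a b, P a → r a b → G a = G b) →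
      ∑ e ∈ E, G (sw e) = ∑ e ∈ E, G e := by
    intro G hG
    exact sum_inv hsymm htrans hEP hex hun G hG sw sw swP swP swsw swsw swr swr
  have ro2r : ∀ a b, P a → r a b → r (ro (ro a)) (ro (ro b)) := fun a b h hab =>
    ror _ _ (roP _ h) (ror _ _ h hab)
  have Sro : ∀ G : V3 × V3 → ℤ, (∀ a b, P a → r a b → G a = G b) →
      ∑ e ∈ E, G (ro e) = ∑ e ∈ E, G e := by
    intro G hG
    exact sum_inv hsymm htrans hEP hex hun G hG ro (fun p => ro (ro p)) roP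
      (fun a h => roP _ (roP _ h)) rorr rorr ror ro2r
  have Sro2 : ∀ G : V3 × V3 → ℤ, (∀ a b, P a → r a b → G a = G b) →
      ∑ e ∈ E, G (ro (ro e)) = ∑ e ∈ E, G e := by
    intro G hG
    exact sum_inv hsymm htrans hEP hex hun G hG (fun p => ro (ro p)) ro
      (fun a h => roP _ (roP _ h)) roP rorr rorr ro2r ror
  -- the invariant functions
  let fI : V3 × V3 → ℤ := fun p => S.inw p.1 p.2
  let fM : V3 × V3 → ℤ := fun p => S.mark κ p.1 p.2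
  let fB : V3 × V3 → ℤ := fun p => S.bt κ p.1 p.2
  have iI : ∀ a b, P a → r a b → fI a = fI b := by
    rintro ⟨v, a⟩ ⟨v', a'⟩ h ⟨γ, hγ, h1, h2⟩
    have h1 : γ v = v' := h1
    have h2 : γ a = a' := h2
    change S.inw v a = S.inw v' a'
    rw [← h1, ← h2, inw_gam hγ]
  have iM : ∀ a b, P a → r a b → fM a = fM b := by
    rintro ⟨v, a⟩ ⟨v', a'⟩ h ⟨γ, hγ, h1, h2⟩
    have h1 : γ v = v' := h1
    have h2 : γ a = a' := h2
    change S.mark κ v a = S.mark κ v' a'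
    rw [← h1, ← h2, mark_gam hγ h]
  have iB : ∀ a b, P a → r a b → fB a = fB b := by
    rintro ⟨v, a⟩ ⟨v', a'⟩ h ⟨γ, hγ, h1, h2⟩
    have h1 : γ v = v' := h1
    have h2 : γ a = a' := h2
    change S.bt κ v a = S.bt κ v' a'
    rw [← h1, ← h2, bt_gam hκ H hγ h]
  have c1 : ∑ e ∈ E, fI e + ∑ e ∈ E, fI e = E.card := by
    nth_rewrite 2 [← Ssw fI iI]
    rw [← Finset.sum_add_distrib]
    rw [Finset.sum_congr rfl (g := fun _ => (1 : ℤ)) (fun e he => inw_add (hEP e he))]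
    simp
  have c2 : 3 * ∑ e ∈ E, fI e - 3 * ∑ e ∈ E, fM e = E.card := by
    have e1 : 3 * ∑ e ∈ E, fI e = ∑ e ∈ E, (fI e + fI (ro e) + fI (ro (ro e))) := by
      rw [Finset.sum_add_distrib, Finset.sum_add_distrib, Sro fI iI, Sro2 fI iI]
      ring
    have e2 : 3 * ∑ e ∈ E, fM e = ∑ e ∈ E, (fM e + fM (ro e) + fM (ro (ro e))) := by
      rw [Finset.sum_add_distrib, Finset.sum_add_distrib, Sro fM iM, Sro2 fM iM]
      ring
    rw [e1, e2, ← Finset.sum_sub_distrib]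
    rw [Finset.sum_congr rfl (g := fun _ => (1 : ℤ)) (fun e he => ?_)]
    · simp
    · have := tri_sum (hEP e he)
      have hl := lt_rot (hEP e he)
      change (S.inw e.1 e.2 + S.inw e.2 (S.lt κ e.1 e.2) + S.inw (S.lt κ e.1 e.2) (S.lt κ e.2 (S.lt κ e.1 e.2))) -
        (S.mark κ e.1 e.2 + S.mark κ e.2 (S.lt κ e.1 e.2) +
          S.mark κ (S.lt κ e.1 e.2) (S.lt κ e.2 (S.lt κ e.1 e.2))) = 1
      rw [hl]
      exact this
  have c3 : ∑ e ∈ E, fB e = 3 * E.card - 12 * ∑ e ∈ E, fM e := by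
    have iBsw : ∀ a b, P a → r a b → fB (sw a) = fB (sw b) := fun a b h hab =>
      iB _ _ (swP _ h) (swr _ _ h hab)
    have e1 : ∑ e ∈ E, fB (sw (ro (ro e))) = ∑ e ∈ E, fB e := by
      rw [Sro2 (fun p => fB (sw p)) iBsw, Ssw fB iB]
    have e2 : ∑ e ∈ E, (fB (sw (ro (ro e))) - 3 + 12 * fM e) = 0 := by
      have : ∀ e ∈ E, fB (sw (ro (ro e))) - 3 + 12 * fM e =
          (fun v a => D v a (S.lt κ v (S.lt κ v a)) - 3 + 12 * S.mark κ v a) e.1 e.2 := by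
        rintro ⟨v, a⟩ he
        have hd : S.IsDart κ v a := hEP _ he
        have hl := lt_rot hd
        have hl' := lt_rot' hd
        change S.bt κ (S.lt κ a (S.lt κ v a)) (S.lt κ v a) - 3 + 12 * S.mark κ v a =
          D v a (S.lt κ v (S.lt κ v a)) - 3 + 12 * S.mark κ v a
        rw [hl]
        unfold bt
        rw [hl']
      rw [Finset.sum_congr rfl this]
      rw [Finset.sum_finset_product' E T R hE
        (f := fun v a => D v a (S.lt κ v (S.lt κ v a)) - 3 + 12 * S.mark κ v a)]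
      apply Finset.sum_eq_zero
      intro v hv
      obtain ⟨h1, h2⟩ := local_sums (S := S) (κ := κ) (hTne v hv) (fun a ha => (hR v a).1 ha)
        (fun a ha => (hR v _).2 (by
          have hd := (hR v a).1 ha
          have := swP _ (roP _ (roP (v, a) hd))
          change S.IsDart κ (S.lt κ a (S.lt κ v a)) (S.lt κ v a) at this
          rwa [lt_rot hd] at this))
      rw [Finset.sum_add_distrib, Finset.sum_sub_distrib, h1, ← Finset.mul_sum, h2]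
      simp
      ring
    rw [Finset.sum_add_distrib, Finset.sum_sub_distrib, e1, ← Finset.mul_sum] at e2
    simp only [Finset.sum_const, nsmul_eq_mul] at e2
    linarith
  have c4 : ∑ e ∈ E, (fB e + fB (sw e) - 2) = 0 := by
    rw [Finset.sum_sub_distrib, Finset.sum_add_distrib, Ssw fB iB]
    simp only [Finset.sum_const, nsmul_eq_mul]
    linarith
  have hnn : ∀ e, P e → 0 ≤ fB e + fB (sw e) - 2 := by
    rintro ⟨v, a⟩ h
    obtain ⟨l, τ, hc⟩ := lt_spec h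
    obtain ⟨l', τ', c, hc'⟩ := dart_symm hκ H h
    have := (bend hc hc').1
    change 0 ≤ S.bt κ v a + S.bt κ a v - 2
    linarith
  have hz := (Finset.sum_eq_zero_iff_of_nonneg (fun e he => hnn e (hEP e he))).1 c4
  apply exists_bend hκ H
  intro v a h
  obtain ⟨e, he, hre⟩ := hex (v, a) h
  have h1 := hz e he
  have h2 := iB (v, a) e h hre
  have h3 := iB _ _ (swP _ h) (swr _ _ h hre)
  change S.bt κ v a = fB e at h2
  change S.bt κ a v = fB (sw e) at h3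
  rw [h2, h3]
  linarith

end Sys

end Pool.Agent.H286R2
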